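import Mathlib

/-!
# The bilinear obstruction, in abstract form
-/

open scoped Topology
open Filter

namespace Pool.Agent.FHC

section

variable {𝕜 : Type*} [RCLike 𝕜]

/-- A continuous functional which is bounded on a dense set vanishes. -/
lemma eq_zero_of_bounded {F : Type*} [NormedAddCommGroup F] [NormedSpace 𝕜 F] (f : F →L[𝕜] 𝕜)
    {s : Set F} (hs : Dense s) {C : ℝ} (h : ∀ v ∈ s, ‖f v‖ ≤ C) (v : F) : f v = 0 := by
  have hcl : IsClosed {v : F | ‖f v‖ ≤ C} := isClosed_le (by fun_prop) continuous_const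
  have hall : ∀ v, ‖f v‖ ≤ C := by
    intro v
    have h1 : closure s ⊆ {v : F | ‖f v‖ ≤ C} := closure_minimal h hcl
    exact h1 (hs v)
  by_contra hne
  have hpos : 0 < ‖f v‖ := norm_pos_iff.2 hne
  obtain ⟨n, hn⟩ := exists_nat_gt (C / ‖f v‖)
  rw [div_lt_iff₀ hpos] at hn
  have h2 := hall ((n : 𝕜) • v)
  rw [map_smul, smul_eq_mul, norm_mul, RCLike.norm_natCast] at h2
  linarith

variable {E ι : Type*} [NormedAddCommGroup E] [NormedSpace 𝕜 E]

/-- Abstract form of the obstruction to density of the orbit of `(y, z)`. -/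
theorem abs_obstruction (T : E →L[𝕜] E) (ζ : E →L[𝕜] 𝕜) {e : E} (he : ζ e ≠ 0) (x : E)
    (pos : ι → ℕ) (M : ι → ℝ) (Mz : ℕ → ℝ) (hM : ∀ β, 1 ≤ M β)
    (h1 : ∀ β v, ‖ζ ((T ^ pos β) v)‖ ≤ M β * ‖v‖)
    (h2 : ∀ β γ t, ‖ζ ((T ^ (pos β + pos γ + t)) x)‖ ≤ M β * M γ * Mz t)
    (y z : E) (wy wz : ι → 𝕜) (hy : Summable fun β => ‖wy β‖ * M β)
    (hz : Summable fun β => ‖wz β‖ * M β) (Sy Sz : ℝ)
    (hy' : ∀ t, ‖ζ ((T ^ t) y) - ∑' β, wy β * ζ ((T ^ (pos β + t)) x)‖ ≤ Sy)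
    (hz' : ∀ t, ‖ζ ((T ^ t) z) - ∑' β, wz β * ζ ((T ^ (pos β + t)) x)‖ ≤ Sz)
    (hd : Dense (Set.range fun t : ℕ => ((T ^ t) y, (T ^ t) z))) : False := by
  -- the functionals
  have hM0 : ∀ β, 0 ≤ M β := fun β => zero_le_one.trans (hM β)
  set g : ι → (E →L[𝕜] 𝕜) := fun β => ζ.comp (T ^ pos β) with hg
  have hgn : ∀ β, ‖g β‖ ≤ M β := fun β =>
    ContinuousLinearMap.opNorm_le_bound _ (hM0 β) (fun v => h1 β v)
  have hsum : ∀ w : ι → 𝕜, (Summable fun β => ‖w β‖ * M β) →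
      Summable (fun β => w β • g β) := by
    intro w hw
    apply Summable.of_norm_bounded hw
    intro β
    rw [norm_smul]
    exact mul_le_mul_of_nonneg_left (hgn β) (norm_nonneg _)
  have happ : ∀ w : ι → 𝕜, (Summable fun β => ‖w β‖ * M β) → ∀ v : E,
      HasSum (fun β => w β * ζ ((T ^ pos β) v)) ((∑' β, w β • g β) v) := by
    intro w hw v
    have := (ContinuousLinearMap.apply 𝕜 𝕜 v).hasSum (hsum w hw).hasSum
    simpa [hg] using this
  set Φy : E →L[𝕜] 𝕜 := ∑' β, wy β • g β with hΦy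
  set Φz : E →L[𝕜] 𝕜 := ∑' β, wz β • g β with hΦz
  have hpow : ∀ (a b : ℕ) (v : E), (T ^ a) ((T ^ b) v) = (T ^ (a + b)) v := by
    intro a b v
    rw [pow_add, ContinuousLinearMap.mul_apply]
  -- the difference with the double sum
  have hone : ∀ w : ι → 𝕜, (Summable fun β => ‖w β‖ * M β) → Summable fun β => ‖w β‖ := by
    intro w hw
    apply Summable.of_nonneg_of_le (fun _ => norm_nonneg _) _ hw
    intro β
    exact le_mul_of_one_le_right (norm_nonneg _) (hM β)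
  have hdiff : ∀ (a : E) (wa wb : ι → 𝕜) (Sa : ℝ), (Summable fun β => ‖wa β‖ * M β) →
      (Summable fun β => ‖wb β‖ * M β) →
      (∀ t, ‖ζ ((T ^ t) a) - ∑' β, wa β * ζ ((T ^ (pos β + t)) x)‖ ≤ Sa) → ∀ t : ℕ,
      ‖(∑' β, wb β • g β) ((T ^ t) a) -
        ∑' β, ∑' γ, wb β * (wa γ * ζ ((T ^ (pos γ + (pos β + t))) x))‖ ≤
        (∑' β, ‖wb β‖) * Sa := by
    intro a wa wb Sa hwa hwb ha t
    have e1 := happ wb hwb ((T ^ t) a)
    have e2 : Summable (fun β => ∑' γ, wb β * (wa γ * ζ ((T ^ (pos γ + (pos β + t))) x))) := by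
      apply Summable.of_norm_bounded (g := fun β => (‖wb β‖ * M β) * ((∑' γ, ‖wa γ‖ * M γ) * Mz t))
        (hwb.mul_right _)
      intro β
      rw [tsum_mul_left, norm_mul, mul_assoc]
      apply mul_le_mul_of_nonneg_left _ (norm_nonneg _)
      have e3 : Summable (fun γ => (‖wa γ‖ * M γ) * (M β * Mz t)) := hwa.mul_right _
      have e4 : ∀ γ, ‖wa γ * ζ ((T ^ (pos γ + (pos β + t))) x)‖ ≤
          (‖wa γ‖ * M γ) * (M β * Mz t) := by
        intro γ
        rw [norm_mul, mul_assoc]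
        apply mul_le_mul_of_nonneg_left _ (norm_nonneg _)
        have := h2 γ β t
        rw [← add_assoc]
        linarith
      calc ‖∑' γ, wa γ * ζ ((T ^ (pos γ + (pos β + t))) x)‖
          ≤ ∑' γ, (‖wa γ‖ * M γ) * (M β * Mz t) := tsum_of_norm_bounded e3.hasSum e4
        _ = M β * ((∑' γ, ‖wa γ‖ * M γ) * Mz t) := by rw [tsum_mul_right]; ring
    have e3 := e1.sub e2.hasSum
    have e4 : Summable fun β => ‖wb β‖ * Sa := (hone wb hwb).mul_right _
    rw [← e3.tsum_eq, ← tsum_mul_right]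
    apply tsum_of_norm_bounded e4.hasSum
    intro β
    rw [tsum_mul_left, ← mul_sub, norm_mul, hpow]
    exact mul_le_mul_of_nonneg_left (ha (pos β + t)) (norm_nonneg _)
  -- symmetry of the double sum
  have hsymm : ∀ t : ℕ,
      ∑' β, ∑' γ, wz β * (wy γ * ζ ((T ^ (pos γ + (pos β + t))) x)) =
      ∑' β, ∑' γ, wy β * (wz γ * ζ ((T ^ (pos γ + (pos β + t))) x)) := by
    intro t
    have e1 : Summable (Function.uncurry fun β γ =>
        wz β * (wy γ * ζ ((T ^ (pos γ + (pos β + t))) x))) := by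
      have e2 : Summable (fun p : ι × ι => (‖wz p.1‖ * M p.1) * (‖wy p.2‖ * M p.2)) :=
        hz.mul_of_nonneg hy (fun β => mul_nonneg (norm_nonneg _) (hM0 β))
          (fun β => mul_nonneg (norm_nonneg _) (hM0 β))
      apply Summable.of_norm_bounded (e2.mul_right (Mz t))
      rintro ⟨β, γ⟩
      simp only [Function.uncurry, norm_mul]
      have := h2 γ β t
      rw [← add_assoc]
      calc ‖wz β‖ * (‖wy γ‖ * ‖ζ ((T ^ (pos γ + pos β + t)) x)‖)
          ≤ ‖wz β‖ * (‖wy γ‖ * (M γ * M β * Mz t)) := by gcongr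
        _ = _ := by ring
    rw [← e1.tsum_comm]
    apply tsum_congr
    intro β
    apply tsum_congr
    intro γ
    rw [show pos β + (pos γ + t) = pos γ + (pos β + t) by ring]
    ring
  -- the functional on the product
  set Λ : E × E →L[𝕜] 𝕜 := Φz.comp (ContinuousLinearMap.fst 𝕜 E E) -
    Φy.comp (ContinuousLinearMap.snd 𝕜 E E) with hΛ
  have hΛ0 : ∀ v, Λ v = 0 := by
    apply eq_zero_of_bounded Λ hd (C := (∑' β, ‖wz β‖) * Sy + (∑' β, ‖wy β‖) * Sz)
    rintro _ ⟨t, rfl⟩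
    have e1 := hdiff y wy wz Sy hy hz hy' t
    have e2 := hdiff z wz wy Sz hz hy hz' t
    rw [← hsymm t] at e2
    have e3 : Λ ((T ^ t) y, (T ^ t) z) = Φz ((T ^ t) y) - Φy ((T ^ t) z) := rfl
    rw [e3]
    set A := ∑' β, ∑' γ, wz β * (wy γ * ζ ((T ^ (pos γ + (pos β + t))) x))
    calc ‖Φz ((T ^ t) y) - Φy ((T ^ t) z)‖ =
          ‖(Φz ((T ^ t) y) - A) - (Φy ((T ^ t) z) - A)‖ := by congr 1; ring
      _ ≤ ‖Φz ((T ^ t) y) - A‖ + ‖Φy ((T ^ t) z) - A‖ := norm_sub_le _ _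
      _ ≤ _ := add_le_add e1 e2
  have hΦz0 : ∀ v, Φz v = 0 := by
    intro v
    have := hΛ0 (v, 0)
    simpa [hΛ] using this
  -- conclusion
  have hζz : ∀ t : ℕ, ‖ζ ((T ^ t) z)‖ ≤ Sz := by
    intro t
    have e1 := happ wz hz ((T ^ t) x)
    rw [← hΦz, hΦz0] at e1
    have e2 := hz' t
    have e3 : ∑' β, wz β * ζ ((T ^ (pos β + t)) x) = 0 := by
      rw [← e1.tsum_eq]
      apply tsum_congr
      intro β
      rw [hpow]
    rwa [e3, sub_zero] at e2
  have hdz : Dense (Set.range fun t : ℕ => (T ^ t) z) := by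
    have e1 := (Prod.snd_surjective (α := E) (β := E)).denseRange.dense_image
      continuous_snd hd
    rw [← Set.range_comp] at e1
    exact e1
  exact he (eq_zero_of_bounded ζ hdz (C := Sz) (by
    rintro _ ⟨t, rfl⟩
    exact hζz t) e)

end

end Pool.Agent.FHC
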