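import Mathlib

/-!
# Weighted `ℓ¹` bases
-/

open scoped ENNReal Topology
open Filter

namespace Pool.Agent.FHC

/-- A Banach space identified with a weighted `ℓ¹` space: the vectors `D i` of norm `cost i` form an
`ℓ¹` basis with coordinate functionals `co i`. -/
structure WB (𝕜 : Type*) (E : Type*) (ι : Type*) [RCLike 𝕜] [NormedAddCommGroup E]
    [NormedSpace 𝕜 E] (cost : ι → ℝ) where
  D : ι → E
  co : ι → E →L[𝕜] 𝕜
  co_self : ∀ i, co i (D i) = 1
  co_ne : ∀ i j, i ≠ j → co i (D j) = 0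
  hasSum_norm : ∀ y, HasSum (fun i => ‖co i y‖ * cost i) ‖y‖
  hasSum : ∀ y, HasSum (fun i => co i y • D i) y

namespace WB

variable {𝕜 E ι : Type*} [RCLike 𝕜] [NormedAddCommGroup E] [NormedSpace 𝕜 E] {cost : ι → ℝ}
variable (B : WB 𝕜 E ι cost)

lemma norm_D (i : ι) : ‖B.D i‖ = cost i := by
  have h := B.hasSum_norm (B.D i)
  have h2 : HasSum (fun j => ‖B.co j (B.D i)‖ * cost j) (cost i) := by
    have := hasSum_single (f := fun j => ‖B.co j (B.D i)‖ * cost j) i (by
      intro j hj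
      rw [B.co_ne j i hj]
      simp)
    simpa [B.co_self] using this
  exact h.unique h2

lemma summable_norm (y : E) : Summable (fun i => ‖B.co i y‖ * cost i) := (B.hasSum_norm y).summable

/-- Operators with prescribed images of the basis vectors. -/
theorem exists_op [CompleteSpace E] (t : ι → E) (M : ℝ) (h : ∀ i, ‖t i‖ ≤ M * cost i) :
    ∃ T : E →L[𝕜] E, ∀ i, T (B.D i) = t i := by
  have hs : ∀ y : E, Summable (fun i => B.co i y • t i) := by
    intro y
    apply Summable.of_norm_bounded (g := fun i => M * (‖B.co i y‖ * cost i))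
      ((B.summable_norm y).mul_left M)
    intro i
    rw [norm_smul]
    calc ‖B.co i y‖ * ‖t i‖ ≤ ‖B.co i y‖ * (M * cost i) := by gcongr; exact h i
      _ = _ := by ring
  have hs' : ∀ y : E, Summable (fun i => ‖B.co i y • t i‖) := by
    intro y
    apply Summable.of_nonneg_of_le (fun _ => norm_nonneg _) _ ((B.summable_norm y).mul_left M)
    intro i
    rw [norm_smul]
    calc ‖B.co i y‖ * ‖t i‖ ≤ ‖B.co i y‖ * (M * cost i) := by gcongr; exact h i
      _ = _ := by ring
  let L : E →ₗ[𝕜] E :=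
    { toFun := fun y => ∑' i, B.co i y • t i
      map_add' := by
        intro y z
        rw [← (hs y).tsum_add (hs z)]
        simp [add_smul]
      map_smul' := by
        intro a y
        rw [RingHom.id_apply, ← (hs y).tsum_const_smul a]
        simp [smul_smul] }
  refine ⟨L.mkContinuous M ?_, ?_⟩
  · intro y
    change ‖∑' i, B.co i y • t i‖ ≤ M * ‖y‖
    calc ‖∑' i, B.co i y • t i‖ ≤ ∑' i, ‖B.co i y • t i‖ := norm_tsum_le_tsum_norm (hs' y)
      _ ≤ ∑' i, M * (‖B.co i y‖ * cost i) := by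
          apply (hs' y).tsum_le_tsum _ ((B.summable_norm y).mul_left M)
          intro i
          rw [norm_smul]
          calc ‖B.co i y‖ * ‖t i‖ ≤ ‖B.co i y‖ * (M * cost i) := by gcongr; exact h i
            _ = _ := by ring
      _ = M * ‖y‖ := by rw [tsum_mul_left, (B.hasSum_norm y).tsum_eq]
  · intro i
    change ∑' j, B.co j (B.D i) • t j = t i
    rw [tsum_eq_single i]
    · rw [B.co_self, one_smul]
    · intro j hj
      rw [B.co_ne j i hj, zero_smul]

/-- The seminorm `∑_{i ∈ F} ω i |co i v|`. -/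
noncomputable def ps (F : Finset ι) (ω : ι → ℝ) (v : E) : ℝ := ∑ i ∈ F, ω i * ‖B.co i v‖

section ps

variable {F : Finset ι} {ω : ι → ℝ}

lemma continuous_ps : Continuous (B.ps F ω) := by
  unfold ps
  fun_prop

lemma ps_nonneg (h : ∀ i ∈ F, 0 ≤ ω i) (v : E) : 0 ≤ B.ps F ω v :=
  Finset.sum_nonneg fun i hi => mul_nonneg (h i hi) (norm_nonneg _)

@[simp] lemma ps_zero : B.ps F ω 0 = 0 := by simp [ps]

lemma ps_add_le (h : ∀ i ∈ F, 0 ≤ ω i) (u v : E) : B.ps F ω (u + v) ≤ B.ps F ω u + B.ps F ω v := by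
  unfold ps
  rw [← Finset.sum_add_distrib]
  apply Finset.sum_le_sum
  intro i hi
  rw [map_add, ← mul_add]
  exact mul_le_mul_of_nonneg_left (norm_add_le _ _) (h i hi)

lemma ps_smul (a : 𝕜) (v : E) : B.ps F ω (a • v) = ‖a‖ * B.ps F ω v := by
  unfold ps
  rw [Finset.mul_sum]
  apply Finset.sum_congr rfl
  intro i _
  rw [map_smul, smul_eq_mul, norm_mul]
  ring

lemma ps_neg (v : E) : B.ps F ω (-v) = B.ps F ω v := by
  have := B.ps_smul (F := F) (ω := ω) (-1 : 𝕜) v
  simpa using this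

lemma ps_sub_le (h : ∀ i ∈ F, 0 ≤ ω i) (u v : E) : B.ps F ω (u - v) ≤ B.ps F ω u + B.ps F ω v := by
  rw [sub_eq_add_neg, ← B.ps_neg v]
  exact B.ps_add_le h _ _

lemma ps_sum_le (h : ∀ i ∈ F, 0 ≤ ω i) {κ : Type*} (s : Finset κ) (f : κ → E) :
    B.ps F ω (∑ k ∈ s, f k) ≤ ∑ k ∈ s, B.ps F ω (f k) := by
  classical
  induction s using Finset.induction_on with
  | empty => simp
  | insert a s ha ih =>
    rw [Finset.sum_insert ha, Finset.sum_insert ha]
    exact (B.ps_add_le h _ _).trans (add_le_add le_rfl ih)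

lemma ps_le_norm (h : ∀ i ∈ F, ω i ≤ cost i) (v : E) (hc : ∀ i, 0 ≤ cost i) :
    B.ps F ω v ≤ ‖v‖ := by
  unfold ps
  calc ∑ i ∈ F, ω i * ‖B.co i v‖ ≤ ∑ i ∈ F, ‖B.co i v‖ * cost i := by
        apply Finset.sum_le_sum
        intro i hi
        rw [mul_comm]
        exact mul_le_mul_of_nonneg_left (h i hi) (norm_nonneg _)
    _ ≤ ‖v‖ := sum_le_hasSum F (fun i _ => mul_nonneg (norm_nonneg _) (hc i)) (B.hasSum_norm v)

/-- The contribution of the basis vectors outside a finite set. -/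
lemma ps_tail (h : ∀ i ∈ F, 0 ≤ ω i) (hc : ∀ i, 0 ≤ cost i) (S : E →L[𝕜] E) (G : Finset ι)
    {K : ℝ} (hK : 0 ≤ K) (hG : ∀ i, i ∉ G → B.ps F ω (S (B.D i)) ≤ K * cost i) (y : E) :
    B.ps F ω (S y - ∑ i ∈ G, B.co i y • S (B.D i)) ≤ K * ‖y‖ := by
  classical
  have h1 : HasSum (fun i => B.co i y • S (B.D i)) (S y) := by
    have := S.hasSum (B.hasSum y)
    simpa [map_smul] using this
  have h2 : HasSum (fun i => (if i ∈ G then B.co i y • S (B.D i) else 0))
      (∑ i ∈ G, (if i ∈ G then B.co i y • S (B.D i) else 0)) :=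
    hasSum_sum_of_ne_finset_zero (by intro i hi; simp [hi])
  rw [Finset.sum_congr rfl (g := fun i => B.co i y • S (B.D i))
    (by intro i hi; simp [hi])] at h2
  have h3 := h1.sub h2
  have h4 : Tendsto (fun s : Finset ι => B.ps F ω (∑ i ∈ s, (B.co i y • S (B.D i) -
      (if i ∈ G then B.co i y • S (B.D i) else 0)))) atTop
      (𝓝 (B.ps F ω (S y - ∑ i ∈ G, B.co i y • S (B.D i)))) :=
    (B.continuous_ps.tendsto _).comp h3
  apply le_of_tendsto' h4
  intro s
  calc B.ps F ω (∑ i ∈ s, (B.co i y • S (B.D i) -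
      (if i ∈ G then B.co i y • S (B.D i) else 0)))
      ≤ ∑ i ∈ s, B.ps F ω (B.co i y • S (B.D i) -
      (if i ∈ G then B.co i y • S (B.D i) else 0)) := B.ps_sum_le h _ _
    _ ≤ ∑ i ∈ s, K * (‖B.co i y‖ * cost i) := by
        apply Finset.sum_le_sum
        intro i _
        by_cases hi : i ∈ G
        · simp only [hi, if_true, sub_self, ps_zero]
          exact mul_nonneg hK (mul_nonneg (norm_nonneg _) (hc i))
        · simp only [hi, if_false, sub_zero, ps_smul]
          calc ‖B.co i y‖ * B.ps F ω (S (B.D i)) ≤ ‖B.co i y‖ * (K * cost i) := by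
                gcongr; exact hG i hi
            _ = _ := by ring
    _ ≤ K * ‖y‖ := by
        rw [← Finset.mul_sum]
        exact mul_le_mul_of_nonneg_left (sum_le_hasSum s
          (fun i _ => mul_nonneg (norm_nonneg _) (hc i)) (B.hasSum_norm y)) hK

end ps

end WB

/-- The space `ℓ¹(ℕ)` has a weighted `ℓ¹` basis indexed by any countably infinite type. -/
noncomputable def wbLp {𝕜 : Type*} [RCLike 𝕜] {ι : Type*} (e : ι ≃ ℕ) (cost : ι → ℝ)
    (hc : ∀ i, 0 < cost i) : WB 𝕜 (lp (fun _ : ℕ => 𝕜) 1) ι cost where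
  D i := (cost i : 𝕜) • lp.single 1 (e i) (1 : 𝕜)
  co i := ((cost i : 𝕜)⁻¹) • lp.evalCLM 𝕜 (fun _ : ℕ => 𝕜) 1 (e i)
  co_self i := by
    have h : (cost i : 𝕜) ≠ 0 := by exact_mod_cast (hc i).ne'
    simp [lp.evalCLM, RCLike.real_smul_eq_coe_mul, h]
  co_ne i j hij := by
    have h1 : e i ≠ e j := fun h => hij (e.injective h)
    simp [lp.evalCLM, Pi.single_eq_of_ne h1]
  hasSum_norm y := by
    have h := lp.hasSum_norm (p := 1) (by norm_num) y
    simp only [ENNReal.toReal_one, Real.rpow_one] at h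
    have h2 := (e.hasSum_iff (f := fun n => ‖(y : ℕ → 𝕜) n‖)).2 h
    convert h2 using 1
    ext i
    have h3 : ‖(cost i : 𝕜)‖ = cost i := by simp [abs_of_pos (hc i)]
    have h4 : (lp.evalCLM 𝕜 (fun _ : ℕ => 𝕜) 1 (e i)) y = (y : ℕ → 𝕜) (e i) := rfl
    simp only [ContinuousLinearMap.smul_apply, h4, smul_eq_mul, norm_mul, norm_inv, h3,
      Function.comp]
    have := (hc i).ne'
    field_simp
  hasSum y := by
    have h := lp.hasSum_single (p := 1) (by norm_num) y
    have h2 := (e.hasSum_iff (f := fun n => lp.single 1 n ((y : ℕ → 𝕜) n))).2 h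
    convert h2 using 1
    ext i : 1
    have h0 : (cost i : 𝕜) ≠ 0 := by exact_mod_cast (hc i).ne'
    have h4 : (lp.evalCLM 𝕜 (fun _ : ℕ => 𝕜) 1 (e i)) y = (y : ℕ → 𝕜) (e i) := rfl
    simp only [ContinuousLinearMap.smul_apply, h4, smul_eq_mul, Function.comp, smul_smul]
    rw [← lp.single_smul]
    congr 1
    simp only [smul_eq_mul, mul_one]
    field_simp

end Pool.Agent.FHC
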