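import Mathlib

/-!
# Parameters of the construction

`om k < Q k < N k < q k < om (k+1)`, each the power of two of the preceding one, and
`W k = 2 ^ om k`.
-/

namespace Pool.Agent.FHC

/-- A sequence growing like a tower of exponentials. -/
structure Par where
  om : ℕ → ℕ
  om0 : 16 ≤ om 0
  om_succ : ∀ k, om (k + 1) = 2 ^ (2 ^ (2 ^ (2 ^ om k)))

namespace Par

variable (P : Par)

/-- The period of the pattern of visits in the zone `k`. -/
def Q (k : ℕ) : ℕ := 2 ^ P.om k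

/-- The beginning of the zone `k`. -/
def N (k : ℕ) : ℕ := 2 ^ P.Q k

/-- The period of the periodic vectors of the block `k`. -/
def q (k : ℕ) : ℕ := 2 ^ P.N k

/-- The size of the wild terms of the zone `k` and of the block `k`. -/
def W (k : ℕ) : ℝ := 2 ^ P.om k

lemma om_succ' (k : ℕ) : P.om (k + 1) = 2 ^ P.q k := P.om_succ k

lemma om_lt_Q (k : ℕ) : P.om k < P.Q k := Nat.lt_two_pow_self
lemma Q_lt_N (k : ℕ) : P.Q k < P.N k := Nat.lt_two_pow_self
lemma N_lt_q (k : ℕ) : P.N k < P.q k := Nat.lt_two_pow_self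
lemma q_lt_om (k : ℕ) : P.q k < P.om (k + 1) := by
  rw [P.om_succ']; exact Nat.lt_two_pow_self

lemma om_ge (k : ℕ) : 4 * k + 16 ≤ P.om k := by
  induction k with
  | zero => simpa using P.om0
  | succ k ih =>
    have h1 := P.om_lt_Q k
    have h2 := P.Q_lt_N k
    have h3 := P.N_lt_q k
    have h4 := P.q_lt_om k
    omega

lemma om_lt_om_succ (k : ℕ) : P.om k < P.om (k + 1) :=
  (P.om_lt_Q k).trans ((P.Q_lt_N k).trans ((P.N_lt_q k).trans (P.q_lt_om k)))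

lemma om_strictMono : StrictMono P.om := strictMono_nat_of_lt_succ P.om_lt_om_succ

lemma om_mono {k l : ℕ} (h : k ≤ l) : P.om k ≤ P.om l := P.om_strictMono.monotone h

lemma Q_mono {k l : ℕ} (h : k ≤ l) : P.Q k ≤ P.Q l :=
  Nat.pow_le_pow_right (by norm_num) (P.om_mono h)
lemma N_mono {k l : ℕ} (h : k ≤ l) : P.N k ≤ P.N l :=
  Nat.pow_le_pow_right (by norm_num) (P.Q_mono h)
lemma q_mono {k l : ℕ} (h : k ≤ l) : P.q k ≤ P.q l :=
  Nat.pow_le_pow_right (by norm_num) (P.N_mono h)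
lemma Q_strictMono : StrictMono P.Q := fun _ _ h =>
  Nat.pow_lt_pow_right (by norm_num) (P.om_strictMono h)
lemma N_strictMono : StrictMono P.N := fun _ _ h =>
  Nat.pow_lt_pow_right (by norm_num) (P.Q_strictMono h)
lemma q_strictMono : StrictMono P.q := fun _ _ h =>
  Nat.pow_lt_pow_right (by norm_num) (P.N_strictMono h)
lemma W_mono {k l : ℕ} (h : k ≤ l) : P.W k ≤ P.W l :=
  pow_le_pow_right₀ (by norm_num) (P.om_mono h)

lemma Q_pos (k : ℕ) : 0 < P.Q k := Nat.pow_pos (by norm_num)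
lemma N_pos (k : ℕ) : 0 < P.N k := Nat.pow_pos (by norm_num)
lemma q_pos (k : ℕ) : 0 < P.q k := Nat.pow_pos (by norm_num)
lemma W_pos (k : ℕ) : 0 < P.W k := pow_pos (by norm_num) _
lemma one_le_W (k : ℕ) : 1 ≤ P.W k := one_le_pow₀ (by norm_num)

lemma lt_N (k : ℕ) : k < P.N k := by
  have h0 := P.om_ge k
  have h1 := P.om_lt_Q k
  have h2 := P.Q_lt_N k
  omega

lemma sixteen_le_om (k : ℕ) : 16 ≤ P.om k := by have := P.om_ge k; omega

/-- `x ^ 2 ≤ 2 ^ x` for `x ≥ 4`. -/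
lemma sq_le_two_pow {x : ℕ} (hx : 4 ≤ x) : x * x ≤ 2 ^ x := by
  induction x, hx using Nat.le_induction with
  | base => norm_num
  | succ n hn ih =>
    rw [pow_succ]
    nlinarith

/-- `64 x ^ 2 ≤ 2 ^ x` for `x ≥ 16`. -/
lemma sq_le_two_pow' {x : ℕ} (hx : 16 ≤ x) : 64 * (x * x) ≤ 2 ^ x := by
  induction x, hx using Nat.le_induction with
  | base => norm_num
  | succ n hn ih =>
    rw [pow_succ]
    nlinarith

/-- division: `q l ∣ q k` for `l ≤ k`. -/
lemma q_dvd_q {l k : ℕ} (h : l ≤ k) : P.q l ∣ P.q k := pow_dvd_pow 2 (P.N_mono h)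

lemma Q_dvd_N (k : ℕ) : P.Q k ∣ P.N k :=
  pow_dvd_pow 2 (P.om_lt_Q k).le

lemma Q_dvd_N_succ (k : ℕ) : P.Q k ∣ P.N (k + 1) :=
  (P.Q_dvd_N k).trans (pow_dvd_pow 2 (P.Q_mono (Nat.le_succ k)))

/-- `256 q k ≤ Q (k + 1)`. -/
lemma q_le_Q (k : ℕ) : 256 * P.q k ≤ P.Q (k + 1) := by
  have h1 : P.q k < P.om (k + 1) := P.q_lt_om k
  have h2 := sq_le_two_pow' (P.sixteen_le_om (k + 1))
  have h3 := P.sixteen_le_om (k + 1)
  have : P.Q (k + 1) = 2 ^ P.om (k + 1) := rfl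
  nlinarith

end Par

/-- Existence of parameters. -/
noncomputable def omSeq : ℕ → ℕ
  | 0 => 16
  | (k + 1) => 2 ^ (2 ^ (2 ^ (2 ^ omSeq k)))

theorem exists_par : Nonempty Par :=
  ⟨{ om := omSeq, om0 := le_of_eq (by rw [omSeq]), om_succ := fun k => by rw [omSeq] }⟩

end Pool.Agent.FHC
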