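import Mathlib
import Pool.Agent.FHC.Par

/-!
# Zones and the schedule of visits

`zone n` is the largest `k` with `N k ≤ n` (and `0` if there is none). In the zone `k` the `i`-th
run, `1 ≤ i ≤ k`, consists of the `n` for which `n % Q k` lies in
`[Q k / 2 - Q k / 2 ^ (i + 1), Q k / 2 - 3 * Q k / 2 ^ (i + 3))`, and `sch n` is the index of the run
containing `n`, or `0` when `n` is in no run (then `n` is wild).
-/

namespace Pool.Agent.FHC

namespace Par

variable (P : Par)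

/-- The index of the zone of `n`. -/
def zone (n : ℕ) : ℕ := Nat.findGreatest (fun k => P.N k ≤ n) n

lemma le_zone_iff {k n : ℕ} (hk : 1 ≤ k) : k ≤ P.zone n ↔ P.N k ≤ n := by
  constructor
  · intro h
    have h0 : P.zone n ≠ 0 := by omega
    have h1 : P.N (P.zone n) ≤ n := Nat.findGreatest_of_ne_zero (P := fun k => P.N k ≤ n) rfl h0
    exact (P.N_mono h).trans h1
  · intro h
    have h1 : k ≤ n := (P.lt_N k).le.trans h
    exact Nat.le_findGreatest h1 h

lemma zone_lt_iff {k n : ℕ} (hk : 1 ≤ k) : P.zone n < k ↔ n < P.N k := by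
  rw [← not_le, ← not_le, P.le_zone_iff hk]

lemma lt_N_zone_succ (n : ℕ) : n < P.N (P.zone n + 1) :=
  (P.zone_lt_iff (by omega)).1 (Nat.lt_succ_self _)

lemma N_zone_le {n : ℕ} (h : 1 ≤ P.zone n) : P.N (P.zone n) ≤ n :=
  (P.le_zone_iff h).1 le_rfl

lemma zone_eq {k n : ℕ} (h1 : P.N k ≤ n) (h2 : n < P.N (k + 1)) : P.zone n = k := by
  have h3 : P.zone n < k + 1 := (P.zone_lt_iff (by omega)).2 h2
  rcases Nat.eq_zero_or_pos k with rfl | hk
  · omega
  · have := (P.le_zone_iff hk).2 h1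
    omega

lemma zone_mono {m n : ℕ} (h : m ≤ n) : P.zone m ≤ P.zone n := by
  rcases Nat.eq_zero_or_pos (P.zone m) with h0 | h0
  · omega
  · exact (P.le_zone_iff h0).2 ((P.N_zone_le h0).trans h)

/-- if `n < N l` and `l ≥ 1` then `zone n < l`; in all cases `zone n ≤ l`. -/
lemma zone_le_of_lt {l n : ℕ} (h : n < P.N l) : P.zone n ≤ l := by
  rcases Nat.eq_zero_or_pos l with rfl | hl
  · have : n < P.N 1 := h.trans (P.N_strictMono (by norm_num))
    have := (P.zone_lt_iff (le_refl 1)).2 this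
    omega
  · exact ((P.zone_lt_iff hl).2 h).le

lemma zone_zero : P.zone 0 = 0 := by
  have : P.zone 0 < 1 := (P.zone_lt_iff le_rfl).2 (P.N_pos 1)
  omega

/-- `n` lies in the `i`-th run of the zone `k` (the zone itself is not required here). -/
def InRun (k i n : ℕ) : Prop :=
  1 ≤ i ∧ i ≤ k ∧ n % P.Q k < P.Q k / 2 ∧ 2 ^ (i + 1) * (P.Q k / 2 - n % P.Q k) ≤ P.Q k ∧
    3 * P.Q k < 2 ^ (i + 3) * (P.Q k / 2 - n % P.Q k)

instance (k i n : ℕ) : Decidable (P.InRun k i n) := by unfold InRun; infer_instance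

/-- The index of the run containing `n`, `0` for wild `n`. -/
def sch (n : ℕ) : ℕ := Nat.findGreatest (fun i => P.InRun (P.zone n) i n) (P.zone n)

lemma inRun_unique {k i j n : ℕ} (hi : P.InRun k i n) (hj : P.InRun k j n) : i = j := by
  obtain ⟨a1, a2, a3, a4, a5⟩ := hi
  obtain ⟨b1, b2, b3, b4, b5⟩ := hj
  set z := P.Q k / 2 - n % P.Q k
  have key : ∀ {i j : ℕ}, 2 ^ (j + 1) * z ≤ P.Q k → 3 * P.Q k < 2 ^ (i + 3) * z → ¬ i < j := by
    intro i j h1 h2 hij
    have h3 : 2 ^ (i + 3) * z ≤ 2 ^ (j + 2) * z :=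
      Nat.mul_le_mul_right _ (Nat.pow_le_pow_right (by norm_num) (by omega))
    have h4 : 2 ^ (j + 2) * z = 2 * (2 ^ (j + 1) * z) := by ring
    have h5 := P.Q_pos k
    omega
  have h1 := key b4 a5
  have h2 := key a4 b5
  omega

lemma sch_spec {n : ℕ} (h : P.sch n ≠ 0) : P.InRun (P.zone n) (P.sch n) n :=
  Nat.findGreatest_of_ne_zero (P := fun i => P.InRun (P.zone n) i n) rfl h

lemma sch_eq_of_inRun {n i : ℕ} (h : P.InRun (P.zone n) i n) : P.sch n = i := by
  have h1 : P.sch n ≠ 0 := by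
    have h2 : i ≤ P.sch n := Nat.le_findGreatest (P := fun i => P.InRun (P.zone n) i n) h.2.1 h
    have h3 := h.1
    omega
  exact P.inRun_unique (P.sch_spec h1) h

lemma sch_le_zone (n : ℕ) : P.sch n ≤ P.zone n := by
  by_cases h : P.sch n = 0
  · omega
  · exact (P.sch_spec h).2.1

/-- In the zone `0` everything is wild. -/
lemma sch_zone_zero {n : ℕ} (h : P.zone n = 0) : P.sch n = 0 := by
  have := P.sch_le_zone n
  omega

/-- The phases of the visits: between `Q / 4` and `Q / 2 - 3 Q / 2 ^ (k + 3)`. -/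
lemma sch_phase {n : ℕ} (h : P.sch n ≠ 0) :
    P.Q (P.zone n) ≤ 4 * (n % P.Q (P.zone n)) ∧ n % P.Q (P.zone n) < P.Q (P.zone n) / 2 ∧
    3 * P.Q (P.zone n) < 2 ^ (P.zone n + 3) * (P.Q (P.zone n) / 2 - n % P.Q (P.zone n)) := by
  obtain ⟨a1, a2, a3, a4, a5⟩ := P.sch_spec h
  set k := P.zone n
  set i := P.sch n
  set r := n % P.Q k
  refine ⟨?_, a3, lt_of_lt_of_le a5 (Nat.mul_le_mul_right _ (Nat.pow_le_pow_right (by norm_num)
    (by omega)))⟩
  have h1 : 2 ^ 2 * (P.Q k / 2 - r) ≤ 2 ^ (i + 1) * (P.Q k / 2 - r) :=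
    Nat.mul_le_mul_right _ (Nat.pow_le_pow_right (by norm_num) (by omega))
  have h2 : P.Q k % 2 = 0 := by
    have : 2 ∣ P.Q k := dvd_pow_self 2 (by have := P.sixteen_le_om k; omega)
    omega
  omega

/-- The initial part of each zone is wild. -/
lemma sch_initial {k n : ℕ} (h1 : P.N k ≤ n) (h2 : 4 * n < 4 * P.N k + P.Q k) : P.sch n = 0 := by
  by_contra h
  have hlt : n < P.N (k + 1) := by
    have h3 : P.Q k < P.N k := P.Q_lt_N k
    have h4 : P.N k < P.N (k + 1) := P.N_strictMono (Nat.lt_succ_self k)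
    have h5 := P.N_lt_q k
    have h6 := P.q_lt_om k
    have h7 := P.om_lt_Q (k + 1)
    have h8 := P.Q_lt_N (k + 1)
    have h9 := P.q_le_Q k
    omega
  have hz := P.zone_eq h1 hlt
  have h3 := P.sch_phase h
  rw [hz] at h3
  obtain ⟨a1, a2, a3⟩ := h3
  obtain ⟨c, hc⟩ := P.Q_dvd_N k
  have h4 : n % P.Q k = n - P.N k := by
    have : n = P.N k + (n - P.N k) := by omega
    rw [this, hc, Nat.mul_add_mod, ← hc, Nat.add_sub_cancel_left]
    apply Nat.mod_eq_of_lt
    have := P.Q_pos k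
    omega
  omega

/-- After a time which is not wild comes the next time of the same run or a wild time. -/
lemma sch_succ {n : ℕ} (h1 : P.sch n ≠ 0) (h2 : P.sch (n + 1) ≠ 0) : P.sch (n + 1) = P.sch n := by
  have hz : P.zone (n + 1) = P.zone n := by
    by_contra hne
    have hle : P.zone n ≤ P.zone (n + 1) := P.zone_mono (Nat.le_succ n)
    have hlt : P.zone n + 1 ≤ P.zone (n + 1) := by omega
    have h3 : P.N (P.zone n + 1) ≤ n + 1 := (P.le_zone_iff (by omega)).1 hlt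
    have h4 : n < P.N (P.zone n + 1) := P.lt_N_zone_succ n
    have h5 : n + 1 = P.N (P.zone n + 1) := by omega
    have := P.sch_initial (k := P.zone n + 1) (n := n + 1) (by omega) (by
      have := P.Q_pos (P.zone n + 1); omega)
    exact h2 this
  have s1 := P.sch_spec h1
  have s2 := P.sch_spec h2
  have hph := P.sch_phase h1
  rw [hz] at s2
  set k := P.zone n
  set i := P.sch n
  set j := P.sch (n + 1)
  obtain ⟨a1, a2, a3, a4, a5⟩ := s1
  obtain ⟨b1, b2, b3, b4, b5⟩ := s2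
  have hmod : (n + 1) % P.Q k = n % P.Q k + 1 := by
    rw [Nat.add_mod, Nat.mod_eq_of_lt (a := 1)]
    · apply Nat.mod_eq_of_lt
      have := P.Q_pos k
      omega
    · have := P.om_ge k
      have := P.om_lt_Q k
      omega
  rw [hmod] at b3 b4 b5
  set r := n % P.Q k
  have hQ : 2 ^ (k + 3) ≤ P.Q k := by
    unfold Q
    exact Nat.pow_le_pow_right (by norm_num) (by have := P.om_ge k; omega)
  obtain ⟨z, hz1⟩ : ∃ z, P.Q k / 2 - r = z + 1 := ⟨P.Q k / 2 - r - 1, by omega⟩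
  have hz2 : P.Q k / 2 - (r + 1) = z := by omega
  rw [hz1] at a4 a5
  rw [hz2] at b4 b5
  rcases lt_trichotomy i j with hij | hij | hij
  · -- `i < j`
    exfalso
    have h3 : 2 ^ (i + 3) * z ≤ 2 ^ (j + 2) * z :=
      Nat.mul_le_mul_right _ (Nat.pow_le_pow_right (by norm_num) (by omega))
    have h4 : 2 ^ (j + 2) * z = 2 * (2 ^ (j + 1) * z) := by ring
    have h5 : 2 ^ (i + 3) * (z + 1) = 2 ^ (i + 3) * z + 2 ^ (i + 3) := by ring
    have h6 : 2 ^ (i + 3) ≤ 2 ^ (k + 3) := Nat.pow_le_pow_right (by norm_num) (by omega)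
    omega
  · exact hij.symm
  · exfalso
    have h3 : 2 ^ (j + 3) * z ≤ 2 ^ (i + 2) * z :=
      Nat.mul_le_mul_right _ (Nat.pow_le_pow_right (by norm_num) (by omega))
    have h4 : 2 ^ (i + 2) * z ≤ 2 ^ (i + 2) * (z + 1) := Nat.mul_le_mul_left _ (by omega)
    have h5 : 2 ^ (i + 2) * (z + 1) = 2 * (2 ^ (i + 1) * (z + 1)) := by ring
    have := P.Q_pos k
    omega

/-- There is a wild time in `[n, n + t]`. -/
def Bad (n t : ℕ) : Prop := ∃ j, j ≤ t ∧ P.sch (n + j) = 0

lemma sch_of_not_bad {n t : ℕ} (h : ¬ P.Bad n t) {j : ℕ} (hj : j ≤ t) :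
    P.sch (n + j) = P.sch n := by
  unfold Bad at h
  push Not at h
  induction j with
  | zero => rfl
  | succ j ih =>
    have h1 := P.sch_succ (n := n + j) (h j (by omega)) (h (j + 1) hj)
    rw [← add_assoc, h1, ih (by omega)]

/-- Sum-freeness of the phases of the visits. -/
lemma sch_sumfree {n t m k : ℕ} (hn : P.zone n = k) (hn' : P.sch n ≠ 0)
    (ht : P.zone (m + t) = k) (ht' : P.sch (m + t) ≠ 0) (hz : P.zone (n + t) = k)
    (hm : 2 ^ (k + 3) * m ≤ 3 * P.Q k) : P.sch (n + t) = 0 := by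
  by_contra h
  have e1 := P.sch_phase hn'
  have e2 := P.sch_phase ht'
  have e3 := P.sch_phase h
  rw [hn] at e1
  rw [ht] at e2
  rw [hz] at e3
  obtain ⟨a1, a2, a3⟩ := e1
  obtain ⟨b1, b2, b3⟩ := e2
  obtain ⟨c1, c2, c3⟩ := e3
  have heven : P.Q k % 2 = 0 := by
    have : 2 ∣ P.Q k := dvd_pow_self 2 (by have := P.sixteen_le_om k; omega)
    omega
  have hQ := P.Q_pos k
  have hmQ : m < P.Q k := by
    have : 2 ^ 3 * m ≤ 2 ^ (k + 3) * m :=
      Nat.mul_le_mul_right _ (Nat.pow_le_pow_right (by norm_num) (by omega))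
    omega
  -- residues
  set r1 := n % P.Q k with hr1
  set r2 := (m + t) % P.Q k with hr2
  set r3 := (n + t) % P.Q k with hr3
  have hs : (r3 + m) % P.Q k = (r1 + r2) % P.Q k := by
    rw [hr1, hr2, hr3, Nat.mod_add_mod, ← Nat.add_mod]
    congr 1
    ring
  have h12 : (r1 + r2) % P.Q k = r1 + r2 := Nat.mod_eq_of_lt (by omega)
  rw [h12] at hs
  -- r3 + m < 2 Q
  have h3 : (r3 + m) % P.Q k = r3 + m ∨ (r3 + m) % P.Q k + P.Q k = r3 + m := by
    rcases lt_or_ge (r3 + m) (P.Q k) with h4 | h4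
    · left; exact Nat.mod_eq_of_lt h4
    · right
      have : (r3 + m) % P.Q k = r3 + m - P.Q k := by
        rw [Nat.mod_eq_sub_mod h4]
        apply Nat.mod_eq_of_lt
        omega
      omega
  rcases h3 with h3 | h3
  · -- `r3 = r1 + r2 - m`
    have h4 : P.Q k / 2 ≤ r3 + m := by omega
    have h5 : P.Q k / 2 - r3 ≤ m := by omega
    have h6 : 2 ^ (k + 3) * (P.Q k / 2 - r3) ≤ 2 ^ (k + 3) * m := Nat.mul_le_mul_left _ h5
    omega
  · have h8 : 2 ^ 3 * m ≤ 2 ^ (k + 3) * m :=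
      Nat.mul_le_mul_right _ (Nat.pow_le_pow_right (by norm_num) (by omega))
    omega

end Par

end Pool.Agent.FHC
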