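import Mathlib
import Pool.Agent.FHC.Zone

/-!
# The weights
-/

namespace Pool.Agent.FHC

namespace Par

variable (P : Par)

/-- The size which we want the `n`-th vector to have. -/
noncomputable def w (n : ℕ) : ℝ := if P.sch n = 0 then P.W (P.zone n) else (1 / 2) ^ P.sch n

/-- The weights: the smallest numbers `≥ w n` which at most double from `n` to `n + 1`. -/
noncomputable def c (n : ℕ) : ℝ := ⨆ j : ℕ, P.w (n + j) / 2 ^ j

/-- The weights of the blocks. -/
noncomputable def C (l m : ℕ) : ℝ :=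
  if m < P.N l then max ((1 / 2) ^ l) (P.W l / 2 ^ (P.N l - m)) else P.W l

lemma w_pos (n : ℕ) : 0 < P.w n := by
  unfold w
  split_ifs
  · exact P.W_pos _
  · positivity

lemma w_le_W (n : ℕ) : P.w n ≤ P.W (P.zone n) := by
  unfold w
  split_ifs
  · exact le_rfl
  · exact (pow_le_one₀ (by norm_num) (by norm_num)).trans (P.one_le_W _)

lemma w_ge (n : ℕ) : (1 / 2 : ℝ) ^ P.zone n ≤ P.w n := by
  unfold w
  split_ifs
  · exact (pow_le_one₀ (by norm_num) (by norm_num)).trans (P.one_le_W _)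
  · exact pow_le_pow_of_le_one (by norm_num) (by norm_num) (P.sch_le_zone n)

lemma W_div_le_one {k j : ℕ} (h : P.om k ≤ j) : P.W k / 2 ^ j ≤ 1 := by
  rw [div_le_one (by positivity)]
  exact pow_le_pow_right₀ (by norm_num) h

lemma two_om_le_N (k : ℕ) : 4 * P.om k ≤ P.N k := by
  have h1 := sq_le_two_pow' (P.sixteen_le_om k)
  have h2 := P.Q_lt_N k
  have h3 := P.sixteen_le_om k
  have : P.Q k = 2 ^ P.om k := rfl
  nlinarith

lemma N_lt_om {l k : ℕ} (h : l < k) : P.N l < P.om k := by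
  have h1 : P.om (l + 1) ≤ P.om k := P.om_mono h
  exact (P.N_lt_q l).trans ((P.q_lt_om l).trans_le h1)

lemma N_lt_N_aux {l k : ℕ} (h : l < k) : P.N l + P.om k ≤ P.N k := by
  have h1 := P.N_lt_om h
  have h2 := P.two_om_le_N k
  omega

lemma term_le {n l : ℕ} (h : n + P.om (l + 1) ≤ P.N (l + 1)) (j : ℕ) :
    P.w (n + j) / 2 ^ j ≤ P.W l := by
  by_cases hz : P.zone (n + j) ≤ l
  · calc P.w (n + j) / 2 ^ j ≤ P.w (n + j) := by
          apply div_le_self (P.w_pos _).le
          exact one_le_pow₀ (by norm_num)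
      _ ≤ P.W l := (P.w_le_W _).trans (P.W_mono hz)
  · push Not at hz
    have h1 : P.N (P.zone (n + j)) ≤ n + j := P.N_zone_le (by omega)
    have h2 : P.om (P.zone (n + j)) ≤ j := by
      rcases Nat.lt_or_ge (l + 1) (P.zone (n + j)) with h3 | h3
      · have := P.N_lt_N_aux h3
        have h4 := P.om_mono (Nat.le_of_lt h3)
        omega
      · have h4 : P.zone (n + j) = l + 1 := by omega
        rw [h4] at h1 ⊢
        omega
    calc P.w (n + j) / 2 ^ j ≤ P.W (P.zone (n + j)) / 2 ^ j := by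
          gcongr
          exact P.w_le_W _
      _ ≤ 1 := P.W_div_le_one h2
      _ ≤ P.W l := P.one_le_W l

lemma bdd (n : ℕ) : BddAbove (Set.range fun j : ℕ => P.w (n + j) / 2 ^ j) := by
  refine ⟨P.W (P.zone n + 1), ?_⟩
  rintro _ ⟨j, rfl⟩
  apply P.term_le
  have h1 := P.lt_N_zone_succ n
  have h2 := P.N_lt_N_aux (Nat.lt_succ_self (P.zone n + 1))
  simp only [Nat.succ_eq_add_one] at h2
  omega

lemma le_c (n j : ℕ) : P.w (n + j) / 2 ^ j ≤ P.c n := le_ciSup (P.bdd n) j

lemma w_le_c (n : ℕ) : P.w n ≤ P.c n := by simpa using P.le_c n 0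

lemma c_pos (n : ℕ) : 0 < P.c n := (P.w_pos n).trans_le (P.w_le_c n)

lemma c_le {n l : ℕ} (h : n + P.om (l + 1) ≤ P.N (l + 1)) : P.c n ≤ P.W l :=
  ciSup_le (P.term_le h)

lemma c_le' {n l : ℕ} (h : n ≤ P.N l) : P.c n ≤ P.W l := by
  apply P.c_le
  have := P.N_lt_N_aux (Nat.lt_succ_self l)
  simp only [Nat.succ_eq_add_one] at this
  omega

lemma c_succ_le (n : ℕ) : P.c (n + 1) ≤ 2 * P.c n := by
  apply ciSup_le
  intro j
  have h := P.le_c n (j + 1)
  have h1 : P.w (n + 1 + j) / 2 ^ j = 2 * (P.w (n + (j + 1)) / 2 ^ (j + 1)) := by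
    rw [show n + 1 + j = n + (j + 1) by ring, pow_succ]
    field_simp
  rw [h1]
  linarith

lemma c_ge_min (n : ℕ) : (1 / 2 : ℝ) ^ P.zone n ≤ P.c n := (P.w_ge n).trans (P.w_le_c n)

lemma c_bad {n t : ℕ} (h : P.Bad n t) : P.W (P.zone n) / 2 ^ t ≤ P.c n := by
  obtain ⟨j, hj, h1⟩ := h
  refine le_trans ?_ (P.le_c n j)
  have h2 : P.w (n + j) = P.W (P.zone (n + j)) := by
    unfold w
    rw [if_pos h1]
  rw [h2]
  have h3 : P.W (P.zone n) ≤ P.W (P.zone (n + j)) := P.W_mono (P.zone_mono (by omega))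
  have h4 := P.W_pos (P.zone n)
  have h5 := P.W_pos (P.zone (n + j))
  exact div_le_div₀ h5.le h3 (by positivity) (pow_le_pow_right₀ (by norm_num) hj)

lemma c_wild {n : ℕ} (h : P.sch n = 0) : P.W (P.zone n) ≤ P.c n := by
  have := P.c_bad (n := n) (t := 0) ⟨0, le_rfl, by simpa using h⟩
  simpa using this

/-- The weight is small in the first part of a run. -/
lemma c_run {n i h : ℕ} (hi : P.sch n = i) (hi0 : i ≠ 0) (hrun : ∀ j ≤ h, P.sch (n + j) = i)
    (hh : P.om (P.zone n) + i ≤ h) (hn : 2 * n ≤ P.N (P.zone n + 1)) : P.c n ≤ (1 / 2) ^ i := by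
  apply ciSup_le
  intro j
  have hik : i ≤ P.zone n := hi ▸ P.sch_le_zone n
  rcases le_or_gt j h with hj | hj
  · have h1 : P.w (n + j) = (1 / 2) ^ i := by
      unfold w
      rw [hrun j hj, if_neg hi0]
    rw [h1]
    apply div_le_self (by positivity)
    exact one_le_pow₀ (by norm_num)
  · have hz : P.zone n ≤ P.zone (n + j) := P.zone_mono (by omega)
    have h2 : P.om (P.zone (n + j)) + i ≤ j := by
      rcases Nat.lt_or_ge (P.zone n) (P.zone (n + j)) with h3 | h3
      · have h4 : P.N (P.zone (n + j)) ≤ n + j := P.N_zone_le (by omega)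
        have h5 : P.N (P.zone n + 1) ≤ P.N (P.zone (n + j)) := P.N_mono h3
        have h6 := P.two_om_le_N (P.zone (n + j))
        have h7 : i ≤ P.om (P.zone (n + j)) := by
          have := P.om_ge (P.zone (n + j))
          omega
        omega
      · have h4 : P.zone (n + j) = P.zone n := by omega
        rw [h4]
        omega
    calc P.w (n + j) / 2 ^ j ≤ P.W (P.zone (n + j)) / 2 ^ j := by
          gcongr
          exact P.w_le_W _
      _ ≤ P.W (P.zone (n + j)) / 2 ^ (P.om (P.zone (n + j)) + i) := by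
          have := P.W_pos (P.zone (n + j))
          gcongr
          norm_num
      _ = (1 / 2) ^ i := by
          unfold W
          rw [pow_add, one_div, inv_pow]
          field_simp

lemma C_pos (l m : ℕ) : 0 < P.C l m := by
  unfold C
  split_ifs
  · exact lt_max_of_lt_left (by positivity)
  · exact P.W_pos l

lemma C_le_W (l m : ℕ) : P.C l m ≤ P.W l := by
  unfold C
  split_ifs
  · apply max_le
    · exact (pow_le_one₀ (by norm_num) (by norm_num)).trans (P.one_le_W _)
    · apply div_le_self (P.W_pos l).le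
      exact one_le_pow₀ (by norm_num)
  · exact le_rfl

lemma C_eq_W {l m : ℕ} (h : P.N l ≤ m) : P.C l m = P.W l := by
  unfold C
  rw [if_neg (by omega)]

lemma C_ge_min (l m : ℕ) : (1 / 2 : ℝ) ^ l ≤ P.C l m := by
  unfold C
  split_ifs
  · exact le_max_left _ _
  · exact (pow_le_one₀ (by norm_num) (by norm_num)).trans (P.one_le_W _)

lemma C_bad {l m t : ℕ} (h : P.N l ≤ m + t) : P.W l / 2 ^ t ≤ P.C l m := by
  have h4 := P.W_pos l
  by_cases hm : m < P.N l
  · unfold C
    rw [if_pos hm]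
    refine le_max_of_le_right ?_
    gcongr
    · norm_num
    · omega
  · rw [P.C_eq_W (by omega)]
    apply div_le_self h4.le
    exact one_le_pow₀ (by norm_num)

lemma C_succ_le {l m : ℕ} (h : m + 1 < P.N l) : P.C l (m + 1) ≤ 2 * P.C l m := by
  unfold C
  rw [if_pos h, if_pos (by omega)]
  have h1 : P.W l / 2 ^ (P.N l - (m + 1)) = 2 * (P.W l / 2 ^ (P.N l - m)) := by
    rw [show P.N l - m = (P.N l - (m + 1)) + 1 by omega, pow_succ]
    field_simp
  rw [h1]
  have h2 : (0 : ℝ) < (1 / 2) ^ l := by positivity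
  apply max_le
  · calc (1 / 2 : ℝ) ^ l ≤ 2 * (1 / 2) ^ l := by linarith
      _ ≤ _ := by gcongr; exact le_max_left _ _
  · gcongr
    exact le_max_right _ _

/-- The weight of a fixed element of the block `l` tends to `0` with `l`. -/
lemma C_small {l m : ℕ} (h : 2 * m ≤ P.N l) : P.C l m ≤ (1 / 2) ^ l := by
  unfold C
  have hN := P.N_pos l
  rw [if_pos (by omega)]
  apply max_le le_rfl
  have h1 := P.two_om_le_N l
  have h2 := P.om_ge l
  have h3 : P.om l + l ≤ P.N l - m := by omega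
  have h4 := P.W_pos l
  calc P.W l / 2 ^ (P.N l - m) ≤ P.W l / 2 ^ (P.om l + l) := by gcongr; norm_num
    _ = (1 / 2) ^ l := by
      unfold W
      rw [pow_add, one_div, inv_pow]
      field_simp

end Par

end Pool.Agent.FHC
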