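import Mathlib

/-!
# Lower density and frequent hypercyclicity
-/

open scoped Topology
open Filter

namespace Pool.Agent.FHC

/-- The lower density `liminf_N #{n ≤ N : n ∈ A} / N` of a set of natural numbers. -/
noncomputable def lowerDensity (A : Set ℕ) : ℝ :=
  liminf (fun N : ℕ => (({n : ℕ | n ≤ N ∧ n ∈ A}.ncard : ℕ) : ℝ) / (N : ℝ)) atTop

/-- `x` is a frequently hypercyclic vector of `T`: the orbit of `x` visits each nonempty open set
with positive lower density. -/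
def IsFHCVector {X : Type*} [TopologicalSpace X] (T : X → X) (x : X) : Prop :=
  ∀ U : Set X, IsOpen U → U.Nonempty → 0 < lowerDensity {n : ℕ | T^[n] x ∈ U}

/-- `T` is frequently hypercyclic. -/
def FrequentlyHypercyclic {X : Type*} [TopologicalSpace X] (T : X → X) : Prop :=
  ∃ x : X, IsFHCVector T x

lemma ncard_le (A : Set ℕ) (N : ℕ) : {n : ℕ | n ≤ N ∧ n ∈ A}.ncard ≤ N + 1 := by
  have h : {n : ℕ | n ≤ N ∧ n ∈ A} ⊆ ((Finset.range (N + 1) : Finset ℕ) : Set ℕ) := by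
    intro n hn
    have := hn.1
    simp
    omega
  have := Set.ncard_le_ncard h (Finset.finite_toSet _)
  rwa [Set.ncard_coe_finset, Finset.card_range] at this

lemma seq_nonneg (A : Set ℕ) (N : ℕ) :
    0 ≤ (({n : ℕ | n ≤ N ∧ n ∈ A}.ncard : ℕ) : ℝ) / (N : ℝ) := by positivity

lemma seq_le (A : Set ℕ) (N : ℕ) :
    (({n : ℕ | n ≤ N ∧ n ∈ A}.ncard : ℕ) : ℝ) / (N : ℝ) ≤ 2 := by
  rcases Nat.eq_zero_or_pos N with rfl | hN
  · simp
  · rw [div_le_iff₀ (by exact_mod_cast hN)]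
    have h1 := ncard_le A N
    have h2 : (({n : ℕ | n ≤ N ∧ n ∈ A}.ncard : ℕ) : ℝ) ≤ N + 1 := by exact_mod_cast h1
    have h3 : (1 : ℝ) ≤ N := by exact_mod_cast hN
    linarith

open Classical in
/-- positive lower density in terms of counting. -/
theorem exists_of_lowerDensity_pos {A : Set ℕ} (h : 0 < lowerDensity A) :
    ∃ δ : ℝ, 0 < δ ∧ ∃ n₀ : ℕ, ∀ n ≥ n₀, δ * n ≤ ((Finset.range n).filter (· ∈ A)).card := by
  obtain ⟨δ, hδ, hδ'⟩ := exists_between h
  have hb : IsBoundedUnder (· ≥ ·) atTop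
      (fun N : ℕ => (({n : ℕ | n ≤ N ∧ n ∈ A}.ncard : ℕ) : ℝ) / (N : ℝ)) :=
    isBoundedUnder_of ⟨0, fun N => seq_nonneg A N⟩
  have h1 := eventually_lt_of_lt_liminf hδ' hb
  obtain ⟨n₁, hn₁⟩ := eventually_atTop.1 h1
  obtain ⟨n₂, hn₂⟩ := exists_nat_gt (2 / δ)
  refine ⟨δ / 2, by positivity, max n₁ (max n₂ 1), fun n hn => ?_⟩
  have hnpos : (0 : ℝ) < n := by
    have : 1 ≤ n := (le_max_right _ _).trans ((le_max_right _ _).trans hn)
    exact_mod_cast this
  have h2 := hn₁ n ((le_max_left _ _).trans hn)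
  rw [lt_div_iff₀ hnpos] at h2
  have h3 : {m : ℕ | m ≤ n ∧ m ∈ A} ⊆
      ((insert n ((Finset.range n).filter (· ∈ A)) : Finset ℕ) : Set ℕ) := by
    intro m hm
    obtain ⟨hm1, hm2⟩ := hm
    rcases hm1.lt_or_eq with h4 | h4
    · simp [h4, hm2]
    · simp [h4]
  have h4 := Set.ncard_le_ncard h3 (Finset.finite_toSet _)
  rw [Set.ncard_coe_finset] at h4
  have h5 := h4.trans (Finset.card_insert_le _ _)
  have h6 : (({m : ℕ | m ≤ n ∧ m ∈ A}.ncard : ℕ) : ℝ) ≤
      ((Finset.range n).filter (· ∈ A)).card + 1 := by exact_mod_cast h5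
  have h7 : (2 : ℝ) / δ < n := by
    have : n₂ ≤ n := (le_max_left _ _).trans ((le_max_right _ _).trans hn)
    exact hn₂.trans_le (by exact_mod_cast this)
  rw [div_lt_iff₀ hδ] at h7
  linarith

open Classical in
/-- positive lower density from counting. -/
theorem lowerDensity_pos {A : Set ℕ} {δ : ℝ} (hδ : 0 < δ) {n₀ : ℕ}
    (h : ∀ n ≥ n₀, δ * n ≤ ((Finset.range n).filter (· ∈ A)).card) : 0 < lowerDensity A := by
  refine hδ.trans_le ?_
  unfold lowerDensity
  apply le_liminf_of_le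
  · exact (isBoundedUnder_of (r := (· ≤ ·)) ⟨2, fun N => seq_le A N⟩).isCoboundedUnder_flip
  · filter_upwards [eventually_ge_atTop (max n₀ 1)] with n hn
    have hn0 : n₀ ≤ n := (le_max_left _ _).trans hn
    have hn1 : 1 ≤ n := (le_max_right _ _).trans hn
    have hnpos : (0 : ℝ) < n := by exact_mod_cast hn1
    rw [le_div_iff₀ hnpos]
    refine (h n hn0).trans ?_
    have h3 : (((Finset.range n).filter (· ∈ A) : Finset ℕ) : Set ℕ) ⊆
        {m : ℕ | m ≤ n ∧ m ∈ A} := by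
      intro m hm
      simp only [Finset.coe_filter, Finset.mem_range, Set.mem_setOf_eq] at hm
      exact ⟨hm.1.le, hm.2⟩
    have hfin : {m : ℕ | m ≤ n ∧ m ∈ A}.Finite :=
      (Set.finite_Iic n).subset (fun m hm => hm.1)
    have h4 := Set.ncard_le_ncard h3 hfin
    rw [Set.ncard_coe_finset] at h4
    exact_mod_cast h4

end Pool.Agent.FHC
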