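import Mathlib
import Pool.Agent.FHC.Basis
import Pool.Agent.FHC.Cost

/-!
# The vectors `x n`, the periodic vectors `X l p` and the operator
-/

open scoped Topology
open Filter

namespace Pool.Agent.FHC

/-- Indices of the basis: `inl n` for the orbit of `x`, `inr (l, m)` for the blocks. -/
abbrev Par.Idx (P : Par) : Type := ℕ ⊕ (Σ l : ℕ, Fin (P.q l))

/-- The weights of the basis. -/
noncomputable def Par.cost (P : Par) : P.Idx → ℝ := Sum.elim P.c (fun β => P.C β.1 β.2)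

/-- The index of the `p`-th vector of the block `l`, `q l`-periodic in `p`. -/
def Par.ix (P : Par) (l p : ℕ) : P.Idx := Sum.inr ⟨l, ⟨p % P.q l, Nat.mod_lt _ (P.q_pos l)⟩⟩

lemma Par.ix_mod (P : Par) (l p : ℕ) : P.ix l (p % P.q l) = P.ix l p := by
  simp [Par.ix]

lemma Par.ix_fin (P : Par) (β : Σ l : ℕ, Fin (P.q l)) : P.ix β.1 β.2 = Sum.inr β := by
  obtain ⟨l, m⟩ := β
  simp [Par.ix, Nat.mod_eq_of_lt m.2]

lemma Par.ix_inj (P : Par) {l l' p p' : ℕ} (h : P.ix l p = P.ix l' p') :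
    l = l' ∧ p % P.q l = p' % P.q l' := by
  simp only [Par.ix, Sum.inr.injEq, Sigma.mk.injEq] at h
  obtain ⟨rfl, h⟩ := h
  simp at h
  exact ⟨rfl, h⟩

@[simp] lemma Par.cost_inl (P : Par) (n : ℕ) : P.cost (Sum.inl n) = P.c n := rfl

@[simp] lemma Par.cost_ix (P : Par) (l p : ℕ) : P.cost (P.ix l p) = P.C l (p % P.q l) := rfl

lemma Par.cost_pos (P : Par) (β : P.Idx) : 0 < P.cost β := by
  rcases β with n | β
  · exact P.c_pos n
  · exact P.C_pos _ _

/-- The targets. -/
structure Tg (𝕜 : Type*) [RCLike 𝕜] (P : Par) where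
  u : ℕ → (Σ l : ℕ, Fin (P.q l)) →₀ 𝕜
  u_zero : u 0 = 0
  supp : ∀ i β, β ∈ (u i).support → β.1 < i
  norm_le : ∀ i, ((u i).sum fun _ a => ‖a‖) ≤ 2 ^ i

section

variable {𝕜 E : Type*} [RCLike 𝕜] [NormedAddCommGroup E] [NormedSpace 𝕜 E] {P : Par}
variable (B : WB 𝕜 E P.Idx P.cost) (u : Tg 𝕜 P)

/-- The vectors `x n = T ^ n x`. -/
noncomputable def xx (n : ℕ) : E :=
  B.D (Sum.inl n) + (u.u (P.sch n)).sum fun β a => a • (B.D (P.ix β.1 (β.2 + n)) +
    if h : (β.2 + n) % P.q β.1 < P.N β.1 ∧ (β.2 + n) % P.q β.1 < n then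
      xx ((β.2 + n) % P.q β.1) else 0)
termination_by n
decreasing_by exact h.2

/-- The periodic vectors. -/
noncomputable def XX (l p : ℕ) : E :=
  B.D (P.ix l p) + if p % P.q l < P.N l then xx B u (p % P.q l) else 0

/-- The orbits of the targets. -/
noncomputable def UU (i s : ℕ) : E := (u.u i).sum fun β a => a • XX B u β.1 (β.2 + s)

lemma N_le_of_lt_sch {n l : ℕ} (h : l < P.sch n) : P.N l ≤ n := by
  have h1 := P.sch_le_zone n
  have h2 : P.N (P.zone n) ≤ n := P.N_zone_le (by omega)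
  exact (P.N_mono (by omega)).trans h2

lemma xx_eq (n : ℕ) : xx B u n = B.D (Sum.inl n) + UU B u (P.sch n) n := by
  rw [xx, UU]
  congr 1
  apply Finsupp.sum_congr
  intro β hβ
  congr 1
  rw [XX]
  congr 1
  have h1 := u.supp _ _ hβ
  have h2 : P.N β.1 ≤ n := N_le_of_lt_sch h1
  by_cases h : (β.2 + n) % P.q β.1 < P.N β.1
  · rw [dif_pos ⟨h, h.trans_le h2⟩, if_pos h]
  · rw [dif_neg (fun h' => h h'.1), if_neg h]

lemma XX_mod (l p : ℕ) : XX B u l (p % P.q l) = XX B u l p := by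
  rw [XX, XX, P.ix_mod, Nat.mod_mod]

lemma XX_add (l p m : ℕ) (h : P.q l ∣ m) : XX B u l (p + m) = XX B u l p := by
  obtain ⟨c, rfl⟩ := h
  rw [← XX_mod, Nat.add_mul_mod_self_left, XX_mod]

lemma UU_zero (s : ℕ) : UU B u 0 s = 0 := by rw [UU, u.u_zero, Finsupp.sum_zero_index]

/-- `U i` is periodic. -/
lemma UU_period {i n : ℕ} (h : ∀ l < i, P.q l ∣ n) : UU B u i n = UU B u i 0 := by
  unfold UU
  apply Finsupp.sum_congr
  intro β hβ
  rw [XX_add B u β.1 β.2 n (h _ (u.supp _ _ hβ)), add_zero]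

/-! ### Norm bounds -/

/-- A bound for the norms of the targets with index `i`. -/
noncomputable def Par.V (P : Par) (i : ℕ) : ℝ := 3 * 2 ^ i * P.W (i - 1)

lemma Par.V_pos (P : Par) (i : ℕ) : 0 < P.V i := by
  have := P.W_pos (i - 1)
  unfold Par.V
  positivity

lemma Par.V_mono (P : Par) {i j : ℕ} (h : i ≤ j) : P.V i ≤ P.V j := by
  unfold Par.V
  have h1 := P.W_mono (show i - 1 ≤ j - 1 by omega)
  have h2 := P.W_pos (i - 1)
  gcongr
  norm_num

/-- The wild terms dominate the targets by far. -/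
lemma Par.V_small (P : Par) {j : ℕ} (hj : 1 ≤ j) :
    4 * P.V j * 2 ^ P.q (j - 1) * 2 ^ j ≤ P.W j := by
  obtain ⟨i, rfl⟩ : ∃ i, j = i + 1 := ⟨j - 1, by omega⟩
  simp only [Nat.add_sub_cancel]
  unfold Par.V Par.W
  simp only [Nat.add_sub_cancel]
  have h1 : 4 * (3 * 2 ^ (i + 1) * 2 ^ P.om i) * 2 ^ P.q i * 2 ^ (i + 1) ≤
      (2 : ℝ) ^ (4 + (i + 1) + P.om i + P.q i + (i + 1)) := by
    have h0 : (2 : ℝ) ^ (4 + (i + 1) + P.om i + P.q i + (i + 1)) =
        16 * (2 ^ (i + 1) * 2 ^ P.om i * 2 ^ P.q i * 2 ^ (i + 1)) := by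
      have : (2 : ℝ) ^ (4 + (i + 1) + P.om i + P.q i + (i + 1)) =
        2 ^ 4 * 2 ^ (i + 1) * 2 ^ P.om i * 2 ^ P.q i * 2 ^ (i + 1) := by
        rw [← pow_add, ← pow_add, ← pow_add, ← pow_add]
      rw [this]
      ring
    rw [h0]
    have h1 : (0 : ℝ) ≤ 2 ^ (i + 1) * 2 ^ P.om i * 2 ^ P.q i * 2 ^ (i + 1) := by positivity
    calc 4 * (3 * 2 ^ (i + 1) * 2 ^ P.om i) * 2 ^ P.q i * 2 ^ (i + 1)
        = 12 * ((2 : ℝ) ^ (i + 1) * 2 ^ P.om i * 2 ^ P.q i * 2 ^ (i + 1)) := by ring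
      _ ≤ 16 * (2 ^ (i + 1) * 2 ^ P.om i * 2 ^ P.q i * 2 ^ (i + 1)) := by linarith
  refine h1.trans (pow_le_pow_right₀ (by norm_num) ?_)
  rw [P.om_succ']
  have h2 := P.om_ge i
  have h3 := P.om_lt_Q i
  have h4 := P.Q_lt_N i
  have h5 := P.N_lt_q i
  have h6 : 16 ≤ P.q i := by omega
  have h7 := Par.sq_le_two_pow' h6
  nlinarith

lemma Par.V_le_W (P : Par) (i : ℕ) (hi : 1 ≤ i) : 4 * P.V i ≤ P.W i := by
  have h := P.V_small hi
  have h1 := P.V_pos i
  have h2 : (1 : ℝ) ≤ 2 ^ P.q (i - 1) := one_le_pow₀ (by norm_num)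
  have h3 : (1 : ℝ) ≤ 2 ^ i := one_le_pow₀ (by norm_num)
  calc 4 * P.V i = 4 * P.V i * 1 * 1 := by ring
    _ ≤ 4 * P.V i * 2 ^ P.q (i - 1) * 2 ^ i := by gcongr
    _ ≤ P.W i := h

lemma norm_sum_le {i : ℕ} {f : (Σ l : ℕ, Fin (P.q l)) → E} {M : ℝ} (hM : 0 ≤ M)
    (hf : ∀ β ∈ (u.u i).support, ‖f β‖ ≤ M) :
    ‖(u.u i).sum fun β a => a • f β‖ ≤ 2 ^ i * M := by
  calc ‖(u.u i).sum fun β a => a • f β‖ ≤ ∑ β ∈ (u.u i).support, ‖u.u i β • f β‖ :=
        _root_.norm_sum_le _ _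
    _ ≤ ∑ β ∈ (u.u i).support, ‖u.u i β‖ * M := by
        apply Finset.sum_le_sum
        intro β hβ
        rw [norm_smul]
        gcongr
        exact hf β hβ
    _ = ((u.u i).sum fun _ a => ‖a‖) * M := by rw [Finsupp.sum, Finset.sum_mul]
    _ ≤ 2 ^ i * M := by gcongr; exact u.norm_le i

lemma norm_UU_aux {i s : ℕ} (h : ∀ l < i, ∀ p, ‖XX B u l p‖ ≤ 3 * P.W l) :
    ‖UU B u i s‖ ≤ P.V i := by
  have h0 := P.W_pos (i - 1)
  have := norm_sum_le (u := u) (i := i) (f := fun β => XX B u β.1 (β.2 + s))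
    (M := 3 * P.W (i - 1)) (by positivity) (by
      intro β hβ
      have h1 := u.supp _ _ hβ
      refine (h β.1 h1 _).trans ?_
      have := P.W_mono (show β.1 ≤ i - 1 by omega)
      linarith)
  refine this.trans (le_of_eq ?_)
  unfold Par.V
  ring

lemma norm_xx_aux (n : ℕ) : ∀ l, n < P.N l → ‖xx B u n‖ ≤ 2 * P.W l := by
  induction n using Nat.strong_induction_on with
  | _ n ih =>
    intro l hl
    rw [xx_eq]
    have h1 : ‖B.D (Sum.inl n)‖ ≤ P.W l := by
      rw [B.norm_D]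
      exact P.c_le' hl.le
    have h2 : ‖UU B u (P.sch n) n‖ ≤ P.W l := by
      by_cases h0 : P.sch n = 0
      · rw [h0, UU_zero, norm_zero]
        exact (P.W_pos l).le
      · have h3 : ‖UU B u (P.sch n) n‖ ≤ P.V (P.sch n) := by
          apply norm_UU_aux
          intro l' hl' p
          rw [XX]
          have h4 : ‖B.D (P.ix l' p)‖ ≤ P.W l' := by
            rw [B.norm_D]
            exact P.C_le_W _ _
          have h5 : ‖(if p % P.q l' < P.N l' then xx B u (p % P.q l') else 0 : E)‖ ≤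
              2 * P.W l' := by
            split_ifs with h6
            · exact ih _ (h6.trans_le (N_le_of_lt_sch hl')) l' h6
            · rw [norm_zero]
              have := P.W_pos l'
              positivity
          calc _ ≤ ‖B.D (P.ix l' p)‖ +
                ‖(if p % P.q l' < P.N l' then xx B u (p % P.q l') else 0 : E)‖ := norm_add_le _ _
            _ ≤ 3 * P.W l' := by linarith
        have h4 := P.V_le_W (P.sch n) (by omega)
        have h5 : P.sch n ≤ l := (P.sch_le_zone n).trans (P.zone_le_of_lt hl)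
        have h6 := P.W_mono h5
        have h7 := P.V_pos (P.sch n)
        linarith
    calc _ ≤ ‖B.D (Sum.inl n)‖ + ‖UU B u (P.sch n) n‖ := norm_add_le _ _
      _ ≤ 2 * P.W l := by linarith

lemma norm_xx {n l : ℕ} (h : n < P.N l) : ‖xx B u n‖ ≤ 2 * P.W l := norm_xx_aux B u n l h

lemma norm_XX (l p : ℕ) : ‖XX B u l p‖ ≤ 3 * P.W l := by
  rw [XX]
  have h4 : ‖B.D (P.ix l p)‖ ≤ P.W l := by
    rw [B.norm_D]
    exact P.C_le_W _ _
  have h5 : ‖(if p % P.q l < P.N l then xx B u (p % P.q l) else 0 : E)‖ ≤ 2 * P.W l := by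
    split_ifs with h6
    · exact norm_xx B u h6
    · rw [norm_zero]
      have := P.W_pos l
      positivity
  calc _ ≤ ‖B.D (P.ix l p)‖ +
        ‖(if p % P.q l < P.N l then xx B u (p % P.q l) else 0 : E)‖ := norm_add_le _ _
    _ ≤ 3 * P.W l := by linarith

lemma norm_UU (i s : ℕ) : ‖UU B u i s‖ ≤ P.V i :=
  norm_UU_aux B u (fun l _ p => norm_XX B u l p)

/-! ### The operator -/

/-- The prescribed image of the basis vector `D (inl n)`. -/
noncomputable def timg : P.Idx → E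
  | Sum.inl n => xx B u (n + 1) - UU B u (P.sch n) (n + 1)
  | Sum.inr β => XX B u β.1 (β.2 + 1) - if (β.2 : ℕ) < P.N β.1 then xx B u (β.2 + 1) else 0

lemma sch_N (l : ℕ) : P.sch (P.N l) = 0 :=
  P.sch_initial le_rfl (by have := P.Q_pos l; omega)

lemma xx_N (l : ℕ) : xx B u (P.N l) = B.D (Sum.inl (P.N l)) := by
  rw [xx_eq, sch_N, UU_zero, add_zero]

/-- If `n` is not wild and `n + 1` is not wild then they are in the same run; otherwise the weight
of `n` is large. -/
lemma norm_timg_inl (n : ℕ) : ‖timg B u (Sum.inl n)‖ ≤ 6 * P.c n := by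
  have hc := P.c_succ_le n
  have hc0 := P.c_pos n
  simp only [timg]
  rw [xx_eq]
  by_cases hb : P.Bad n 1
  · have h1 := P.c_bad hb
    rw [pow_one] at h1
    have hV : ∀ i, i ≤ P.zone n → ∀ s, ‖UU B u i s‖ ≤ P.W (P.zone n) / 4 := by
      intro i hi s
      rcases Nat.eq_zero_or_pos i with rfl | hi0
      · rw [UU_zero, norm_zero]
        have := P.W_pos (P.zone n)
        positivity
      · have h2 := norm_UU B u i s
        have h3 := P.V_le_W i hi0
        have h4 := P.W_mono hi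
        linarith
    have h2 : ‖UU B u (P.sch (n + 1)) (n + 1)‖ ≤ P.W (P.zone n) / 4 := by
      by_cases h0 : P.sch (n + 1) = 0
      · exact hV _ (by omega) _
      · apply hV
        have h3 := P.sch_le_zone (n + 1)
        have h4 : P.zone (n + 1) = P.zone n := by
          by_contra hne
          have hle : P.zone n ≤ P.zone (n + 1) := P.zone_mono (Nat.le_succ n)
          have hlt : P.zone n + 1 ≤ P.zone (n + 1) := by omega
          have h3 : P.N (P.zone n + 1) ≤ n + 1 := (P.le_zone_iff (by omega)).1 hlt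
          have h4 : n < P.N (P.zone n + 1) := P.lt_N_zone_succ n
          have h5 : n + 1 = P.N (P.zone n + 1) := by omega
          exact h0 (by rw [h5]; exact sch_N _)
        omega
    have h3 : ‖UU B u (P.sch n) (n + 1)‖ ≤ P.W (P.zone n) / 4 := hV _ (P.sch_le_zone n) _
    have h4 : ‖B.D (Sum.inl (n + 1))‖ = P.c (n + 1) := B.norm_D _
    calc _ ≤ ‖B.D (Sum.inl (n + 1)) + UU B u (P.sch (n + 1)) (n + 1)‖ +
          ‖UU B u (P.sch n) (n + 1)‖ := norm_sub_le _ _
      _ ≤ ‖B.D (Sum.inl (n + 1))‖ + ‖UU B u (P.sch (n + 1)) (n + 1)‖ +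
          ‖UU B u (P.sch n) (n + 1)‖ := by gcongr; exact norm_add_le _ _
      _ ≤ 6 * P.c n := by linarith
  · have h1 := P.sch_of_not_bad hb (j := 1) le_rfl
    rw [h1, add_sub_cancel_right, B.norm_D]
    simp only [Par.cost_inl]
    linarith

lemma norm_timg_inr (β : Σ l : ℕ, Fin (P.q l)) :
    ‖timg B u (Sum.inr β)‖ ≤ 6 * P.C β.1 β.2 := by
  obtain ⟨l, m, hm⟩ := β
  simp only [timg]
  have hNq := P.N_lt_q l
  have hW := P.W_pos l
  have hW1 := P.one_le_W l
  rw [XX]
  have hD : ∀ p, ‖B.D (P.ix l p)‖ = P.C l (p % P.q l) := fun p => B.norm_D _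
  rcases lt_trichotomy (m + 1) (P.N l) with h | h | h
  · -- both follow `x`
    rw [Nat.mod_eq_of_lt (show m + 1 < P.q l by omega), if_pos h, if_pos (by omega),
      add_sub_cancel_right, hD, Nat.mod_eq_of_lt (show m + 1 < P.q l by omega)]
    have := P.C_succ_le h
    have := P.C_pos l m
    linarith
  · -- separation
    rw [Nat.mod_eq_of_lt (show m + 1 < P.q l by omega), if_neg (by omega), if_pos (by omega),
      add_zero, h, xx_N]
    have h1 := P.C_bad (l := l) (m := m) (t := 1) (by omega)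
    rw [pow_one] at h1
    have h2 : ‖B.D (Sum.inl (P.N l))‖ ≤ P.W l := by
      rw [B.norm_D]
      exact P.c_le' le_rfl
    have h3 : ‖B.D (P.ix l (P.N l))‖ ≤ P.W l := by
      rw [hD]
      exact P.C_le_W _ _
    calc _ ≤ ‖B.D (P.ix l (P.N l))‖ + ‖B.D (Sum.inl (P.N l))‖ := norm_sub_le _ _
      _ ≤ 6 * P.C l m := by linarith
  · have h1 : P.C l m = P.W l := P.C_eq_W (by omega)
    rw [h1, if_neg (show ¬ m < P.N l by omega), sub_zero]
    have h3 : ‖B.D (P.ix l (m + 1))‖ ≤ P.W l := by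
      rw [hD]
      exact P.C_le_W _ _
    have h4 : ‖(if (m + 1) % P.q l < P.N l then xx B u ((m + 1) % P.q l) else 0 : E)‖ ≤
        2 * P.W l := by
      split_ifs with h6
      · exact norm_xx B u h6
      · rw [norm_zero]
        positivity
    calc _ ≤ ‖B.D (P.ix l (m + 1))‖ +
          ‖(if (m + 1) % P.q l < P.N l then xx B u ((m + 1) % P.q l) else 0 : E)‖ :=
          norm_add_le _ _
      _ ≤ 6 * P.W l := by linarith

theorem exists_T [CompleteSpace E] : ∃ T : E →L[𝕜] E, ∀ β, T (B.D β) = timg B u β := by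
  apply B.exists_op _ 6
  intro β
  rcases β with n | β
  · exact norm_timg_inl B u n
  · exact norm_timg_inr B u β

/-- The operator. -/
noncomputable def TT [CompleteSpace E] : E →L[𝕜] E := (exists_T B u).choose

variable [CompleteSpace E]

lemma TT_inl (n : ℕ) : TT B u (B.D (Sum.inl n)) = xx B u (n + 1) - UU B u (P.sch n) (n + 1) :=
  (exists_T B u).choose_spec (Sum.inl n)

lemma TT_ix (l p : ℕ) : TT B u (B.D (P.ix l p)) = XX B u l (p + 1) -
    if p % P.q l < P.N l then xx B u (p % P.q l + 1) else 0 := by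
  have := (exists_T B u).choose_spec (P.ix l p)
  simp only [TT]
  rw [this]
  simp only [timg, Par.ix]
  congr 1
  rw [← XX_mod, ← XX_mod B u l (p + 1), Nat.mod_add_mod]

lemma TT_xx_aux (n : ℕ) : TT B u (xx B u n) = xx B u (n + 1) := by
  induction n using Nat.strong_induction_on with
  | _ n ih =>
    rw [xx_eq, map_add, TT_inl]
    have h : TT B u (UU B u (P.sch n) n) = UU B u (P.sch n) (n + 1) := by
      rw [UU, UU, Finsupp.sum, Finsupp.sum, map_sum]
      apply Finset.sum_congr rfl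
      intro β hβ
      rw [map_smul]
      congr 1
      have h1 := N_le_of_lt_sch (u.supp _ _ hβ)
      rw [XX, map_add, TT_ix, add_assoc]
      by_cases h2 : (β.2 + n) % P.q β.1 < P.N β.1
      · rw [if_pos h2, if_pos h2, ih _ (h2.trans_le h1), sub_add_cancel]
      · rw [if_neg h2, if_neg h2, map_zero, sub_zero, add_zero]
    rw [h, sub_add_cancel]

@[simp] lemma TT_xx (n : ℕ) : TT B u (xx B u n) = xx B u (n + 1) := TT_xx_aux B u n

@[simp] lemma TT_XX (l p : ℕ) : TT B u (XX B u l p) = XX B u l (p + 1) := by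
  rw [XX, map_add, TT_ix]
  by_cases h2 : p % P.q l < P.N l
  · rw [if_pos h2, if_pos h2, TT_xx, sub_add_cancel]
  · rw [if_neg h2, if_neg h2, map_zero, sub_zero, add_zero]

lemma TT_pow_xx (t n : ℕ) : (TT B u ^ t) (xx B u n) = xx B u (n + t) := by
  induction t with
  | zero => simp
  | succ t ih =>
    rw [pow_succ', ContinuousLinearMap.mul_apply, ih, TT_xx, add_assoc]

lemma TT_pow_XX (t l p : ℕ) : (TT B u ^ t) (XX B u l p) = XX B u l (p + t) := by
  induction t with
  | zero => simp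
  | succ t ih =>
    rw [pow_succ', ContinuousLinearMap.mul_apply, ih, TT_XX, add_assoc]

lemma TT_pow_UU (t i s : ℕ) : (TT B u ^ t) (UU B u i s) = UU B u i (s + t) := by
  rw [UU, UU, Finsupp.sum, map_sum, Finsupp.sum]
  apply Finset.sum_congr rfl
  intro β _
  rw [map_smul, TT_pow_XX, add_assoc]

/-- The action of `T ^ t` on the basis vectors of the orbit. -/
lemma TT_pow_inl (t n : ℕ) : (TT B u ^ t) (B.D (Sum.inl n)) =
    B.D (Sum.inl (n + t)) + (UU B u (P.sch (n + t)) (n + t) - UU B u (P.sch n) (n + t)) := by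
  have h : B.D (Sum.inl n) = xx B u n - UU B u (P.sch n) n := by
    rw [xx_eq, add_sub_cancel_right]
  rw [h, map_sub, TT_pow_xx, TT_pow_UU, xx_eq]
  abel

/-- The action of `T ^ t` on the basis vectors of the blocks. -/
lemma TT_pow_ix (t l p : ℕ) : (TT B u ^ t) (B.D (P.ix l p)) =
    B.D (P.ix l (p + t)) + ((if (p + t) % P.q l < P.N l then xx B u ((p + t) % P.q l) else 0) -
      if p % P.q l < P.N l then xx B u (p % P.q l + t) else 0) := by
  have h : B.D (P.ix l p) = XX B u l p -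
      if p % P.q l < P.N l then xx B u (p % P.q l) else 0 := by
    rw [XX, add_sub_cancel_right]
  rw [h, map_sub, TT_pow_XX, XX]
  by_cases h2 : p % P.q l < P.N l
  · rw [if_pos h2, if_pos h2, TT_pow_xx]
    abel
  · rw [if_neg h2, if_neg h2, map_zero]
    abel

end

end Pool.Agent.FHC
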