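import Mathlib
import Pool.Agent.FHC.Vec

/-!
# Supports and the two key estimates
-/

open scoped Topology
open Filter

namespace Pool.Agent.FHC

namespace Par

variable (P : Par)

lemma ix_ne_inl (l p n : ℕ) : P.ix l p ≠ Sum.inl n := by simp [Par.ix]

lemma ix_eq_of_mod {l p p' : ℕ} (h : p % P.q l = p' % P.q l) : P.ix l p = P.ix l p' := by
  simp [Par.ix, h]

/-- Before and in the initial part of the zone `l + 1` only runs with index `≤ l` occur. -/
lemma sch_le_of_lt {n l : ℕ} (h : 4 * n < 4 * P.N (l + 1) + P.Q (l + 1)) : P.sch n ≤ l := by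
  rcases Nat.lt_or_ge n (P.N (l + 1)) with h1 | h1
  · have := (P.zone_lt_iff (k := l + 1) (by omega)).2 h1
    have := P.sch_le_zone n
    omega
  · rw [P.sch_initial h1 h]
    omega

end Par

section

variable {𝕜 E : Type*} [RCLike 𝕜] [NormedAddCommGroup E] [NormedSpace 𝕜 E] {P : Par}
variable (B : WB 𝕜 E P.Idx P.cost) (u : Tg 𝕜 P)

/-- `v` has no coordinates in the blocks `≥ K` nor at orbit indices beyond `N l`, `l < K`. -/
def Low (K : ℕ) (v : E) : Prop :=
  (∀ l p, K ≤ l → B.co (P.ix l p) v = 0) ∧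
    ∀ s, (∀ l < K, P.N l ≤ s) → B.co (Sum.inl s) v = 0

variable {B}

lemma Low.zero (K : ℕ) : Low B K (0 : E) := ⟨fun _ _ _ => by simp, fun _ _ => by simp⟩

lemma Low.mono {K K' : ℕ} {v : E} (h : Low B K v) (hK : K ≤ K') : Low B K' v :=
  ⟨fun l p hl => h.1 l p (hK.trans hl), fun s hs => h.2 s fun l hl => hs l (hl.trans_le hK)⟩

lemma Low.add {K : ℕ} {v w : E} (h : Low B K v) (h' : Low B K w) : Low B K (v + w) :=
  ⟨fun l p hl => by rw [map_add, h.1 l p hl, h'.1 l p hl, add_zero],
    fun s hs => by rw [map_add, h.2 s hs, h'.2 s hs, add_zero]⟩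

lemma Low.smul {K : ℕ} {v : E} (h : Low B K v) (a : 𝕜) : Low B K (a • v) :=
  ⟨fun l p hl => by rw [map_smul, h.1 l p hl, smul_zero],
    fun s hs => by rw [map_smul, h.2 s hs, smul_zero]⟩

lemma Low.sum {K : ℕ} {κ : Type*} (s : Finset κ) {f : κ → E} (h : ∀ i ∈ s, Low B K (f i)) :
    Low B K (∑ i ∈ s, f i) :=
  ⟨fun l p hl => by rw [map_sum]; exact Finset.sum_eq_zero fun i hi => (h i hi).1 l p hl,
    fun t ht => by rw [map_sum]; exact Finset.sum_eq_zero fun i hi => (h i hi).2 t ht⟩

lemma low_D_ix {l K : ℕ} (h : l < K) (p : ℕ) : Low B K (B.D (P.ix l p)) := by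
  refine ⟨fun l' p' hl' => B.co_ne _ _ fun he => ?_, fun s _ => B.co_ne _ _ fun he => ?_⟩
  · have := (P.ix_inj he).1
    omega
  · exact P.ix_ne_inl _ _ _ he.symm

lemma low_D_inl {n l K : ℕ} (hn : n < P.N l) (h : l < K) : Low B K (B.D (Sum.inl n)) := by
  refine ⟨fun l' p' _ => B.co_ne _ _ (P.ix_ne_inl _ _ _), fun s hs => B.co_ne _ _ fun he => ?_⟩
  have h1 := hs l h
  have h2 : s = n := Sum.inl_injective he
  omega

variable (B)

lemma low_XX_aux (l : ℕ) : ∀ p, Low B (l + 1) (XX B u l p) := by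
  induction l using Nat.strong_induction_on with
  | _ l ih =>
    intro p
    rw [XX]
    refine (low_D_ix (Nat.lt_succ_self l) p).add ?_
    split_ifs with h
    · rw [xx_eq]
      refine (low_D_inl h (Nat.lt_succ_self l)).add ?_
      rw [UU, Finsupp.sum]
      apply Low.sum
      intro β hβ
      apply Low.smul
      have h1 := u.supp _ _ hβ
      have h2 := P.sch_le_zone (p % P.q l)
      have h3 : β.1 < l := by
        rcases Nat.eq_zero_or_pos l with rfl | hl
        · have := P.zone_le_of_lt h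
          omega
        · have := (P.zone_lt_iff hl).2 h
          omega
      exact (ih _ h3 _).mono (by omega)
    · exact Low.zero _

lemma low_XX {l K : ℕ} (h : l < K) (p : ℕ) : Low B K (XX B u l p) :=
  (low_XX_aux B u l p).mono h

lemma low_UU {i K : ℕ} (h : i ≤ K) (s : ℕ) : Low B K (UU B u i s) := by
  rw [UU, Finsupp.sum]
  apply Low.sum
  intro β hβ
  apply Low.smul
  exact low_XX B u ((u.supp _ _ hβ).trans_le h) _

/-- coordinates of `x n` in the blocks. -/
lemma co_ix_xx {n l : ℕ} (h : P.sch n ≤ l) (s : ℕ) : B.co (P.ix l s) (xx B u n) = 0 := by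
  rw [xx_eq, map_add, B.co_ne _ _ (P.ix_ne_inl _ _ _), zero_add]
  exact (low_UU B u h n).1 l s le_rfl

lemma xx_sub_low {n K : ℕ} (h : P.sch n ≤ K) : Low B K (xx B u n - B.D (Sum.inl n)) := by
  rw [xx_eq, add_sub_cancel_left]
  exact low_UU B u h n

variable [CompleteSpace E]

/-- The lower order term of `T ^ t (D (inl n))` is small. -/
lemma err_inl {n t : ℕ} (hz : 1 ≤ P.zone n) (ht : t ≤ P.q (P.zone n - 1)) :
    ‖UU B u (P.sch (n + t)) (n + t) - UU B u (P.sch n) (n + t)‖ ≤ P.c n := by
  by_cases hb : P.Bad n t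
  · have h1 := P.c_bad hb
    set j := P.zone n with hj
    have h2 : P.sch (n + t) ≤ j := by
      apply P.sch_le_of_lt
      have h3 := P.lt_N_zone_succ n
      rw [← hj] at h3
      have h4 : P.q (j - 1) ≤ P.q j := P.q_mono (by omega)
      have h5 := P.q_le_Q j
      have h6 := P.q_pos j
      omega
    have h3 : P.sch n ≤ j := P.sch_le_zone n
    have e1 : ‖UU B u (P.sch (n + t)) (n + t)‖ ≤ P.V j := (norm_UU B u _ _).trans (P.V_mono h2)
    have e2 : ‖UU B u (P.sch n) (n + t)‖ ≤ P.V j := (norm_UU B u _ _).trans (P.V_mono h3)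
    have e3 := P.V_small hz
    have e4 := P.V_pos j
    have e5 : (2 : ℝ) ^ t ≤ 2 ^ P.q (j - 1) := pow_le_pow_right₀ (by norm_num) ht
    have e6 : (1 : ℝ) ≤ 2 ^ j := one_le_pow₀ (by norm_num)
    have e7 : 4 * P.V j * 2 ^ t ≤ P.W j := by
      calc 4 * P.V j * 2 ^ t ≤ 4 * P.V j * 2 ^ P.q (j - 1) := by gcongr
        _ = 4 * P.V j * 2 ^ P.q (j - 1) * 1 := by ring
        _ ≤ 4 * P.V j * 2 ^ P.q (j - 1) * 2 ^ j := by gcongr
        _ ≤ _ := e3
    have e8 : 4 * P.V j ≤ P.W j / 2 ^ t := by
      rw [le_div_iff₀ (by positivity)]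
      exact e7
    calc _ ≤ ‖UU B u (P.sch (n + t)) (n + t)‖ + ‖UU B u (P.sch n) (n + t)‖ := norm_sub_le _ _
      _ ≤ P.c n := by linarith
  · rw [P.sch_of_not_bad hb le_rfl, sub_self, norm_zero]
    exact (P.c_pos n).le

variable {F : Finset P.Idx} {ω : P.Idx → ℝ}

/-- The image of a basis vector of a high block is small in coordinates outside this block. -/
lemma err_ix (hω : ∀ i ∈ F, 0 ≤ ω i) (hω' : ∀ i ∈ F, ω i ≤ P.cost i) {l t : ℕ} (hl : 1 ≤ l)
    (ht : t ≤ P.q (l - 1)) (h1 : ∀ s, B.ps F ω (B.D (Sum.inl s)) ≤ P.V l)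
    (h2 : ∀ p, B.ps F ω (B.D (P.ix l p)) = 0) (m : ℕ) :
    B.ps F ω ((TT B u ^ t) (B.D (P.ix l m))) ≤ P.C l (m % P.q l) := by
  have hxx : ∀ n, P.sch n ≤ l → B.ps F ω (xx B u n) ≤ 2 * P.V l := by
    intro n hn
    rw [xx_eq]
    have e1 := B.ps_le_norm hω' (UU B u (P.sch n) n) (fun i => (P.cost_pos i).le)
    have e2 := (norm_UU B u (P.sch n) n).trans (P.V_mono hn)
    calc _ ≤ B.ps F ω (B.D (Sum.inl n)) + B.ps F ω (UU B u (P.sch n) n) := B.ps_add_le hω _ _
      _ ≤ _ := by linarith [h1 n]
  rw [TT_pow_ix]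
  have hN := P.N_lt_q l
  have hm : m % P.q l < P.q l := Nat.mod_lt _ (P.q_pos l)
  by_cases hc : m % P.q l + t < P.N l
  · have e1 : (m + t) % P.q l = m % P.q l + t := by
      rw [← Nat.mod_add_mod]
      exact Nat.mod_eq_of_lt (by omega)
    rw [e1, if_pos hc, if_pos (by omega), sub_self, add_zero, h2]
    exact (P.C_pos _ _).le
  · push Not at hc
    have e1 := P.C_bad hc
    have e4 := P.V_pos l
    have hp1 : B.ps F ω (if (m + t) % P.q l < P.N l then xx B u ((m + t) % P.q l) else 0) ≤
        2 * P.V l := by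
      split_ifs with h
      · exact hxx _ ((P.sch_le_zone _).trans (P.zone_le_of_lt h))
      · rw [B.ps_zero]
        positivity
    have hp2 : B.ps F ω (if m % P.q l < P.N l then xx B u (m % P.q l + t) else 0) ≤
        2 * P.V l := by
      split_ifs with h
      · apply hxx
        apply P.sch_le_of_lt
        have h4 : P.q (l - 1) ≤ P.q l := P.q_mono (by omega)
        have h5 := P.q_le_Q l
        have h6 := P.q_pos l
        have h7 : P.N l < P.N (l + 1) := P.N_strictMono (Nat.lt_succ_self l)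
        omega
      · rw [B.ps_zero]
        positivity
    have e3 := P.V_small hl
    have e5 : (2 : ℝ) ^ t ≤ 2 ^ P.q (l - 1) := pow_le_pow_right₀ (by norm_num) ht
    have e6 : (1 : ℝ) ≤ 2 ^ l := one_le_pow₀ (by norm_num)
    have e7 : 4 * P.V l * 2 ^ t ≤ P.W l := by
      calc 4 * P.V l * 2 ^ t ≤ 4 * P.V l * 2 ^ P.q (l - 1) := by gcongr
        _ = 4 * P.V l * 2 ^ P.q (l - 1) * 1 := by ring
        _ ≤ 4 * P.V l * 2 ^ P.q (l - 1) * 2 ^ l := by gcongr
        _ ≤ _ := e3
    have e8 : 4 * P.V l ≤ P.W l / 2 ^ t := by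
      rw [le_div_iff₀ (by positivity)]
      exact e7
    calc _ ≤ B.ps F ω (B.D (P.ix l (m + t))) +
          B.ps F ω ((if (m + t) % P.q l < P.N l then xx B u ((m + t) % P.q l) else 0) -
          if m % P.q l < P.N l then xx B u (m % P.q l + t) else 0) := B.ps_add_le hω _ _
      _ ≤ 0 + (2 * P.V l + 2 * P.V l) := by
          rw [h2]
          gcongr
          exact (B.ps_sub_le hω _ _).trans (add_le_add hp1 hp2)
      _ ≤ _ := by linarith

/-- **First key estimate**: the block `l` part of `y` is seen in `T ^ t y`. -/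
theorem key_block {l t : ℕ} (ht : t ≤ P.q l) (y : E) :
    ∑ m ∈ Finset.range (P.q l), P.C l ((m + t) % P.q l) * ‖B.co (P.ix l m) y‖ ≤
      ‖(TT B u ^ t) y‖ + ‖y‖ := by
  classical
  set F : Finset P.Idx := (Finset.range (P.q l)).image (fun m => P.ix l (m + t)) with hF
  set G : Finset P.Idx := (Finset.range (P.q l)).image (fun m => P.ix l m) with hG
  have hcost : ∀ i : P.Idx, 0 ≤ P.cost i := fun i => (P.cost_pos i).le
  have hω : ∀ i ∈ F, 0 ≤ P.cost i := fun i _ => hcost i
  -- vanishing of the seminorm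
  have hps0 : ∀ v : E, (∀ s, B.co (P.ix l s) v = 0) → B.ps F P.cost v = 0 := by
    intro v hv
    unfold WB.ps
    apply Finset.sum_eq_zero
    intro i hi
    rw [hF, Finset.mem_image] at hi
    obtain ⟨m, _, rfl⟩ := hi
    rw [hv, norm_zero, mul_zero]
  have hinl : ∀ s, B.ps F P.cost (B.D (Sum.inl s)) = 0 := fun s =>
    hps0 _ fun _ => B.co_ne _ _ (P.ix_ne_inl _ _ _)
  have hQ := P.q_le_Q l
  have hqp := P.q_pos l
  have hNN : P.N l < P.N (l + 1) := P.N_strictMono (Nat.lt_succ_self l)
  have htail := B.ps_tail hω hcost (TT B u ^ t) G (K := 1) zero_le_one (by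
    intro i hi
    rw [one_mul]
    rcases i with n | β
    · -- orbit indices
      rw [TT_pow_inl]
      rcases Nat.lt_or_ge n (P.N (l + 1)) with hn | hn
      · rw [hps0]
        · exact hcost _
        · intro s
          have h1 : P.sch (n + t) ≤ l := P.sch_le_of_lt (by omega)
          have h2 : P.sch n ≤ l := P.sch_le_of_lt (by omega)
          rw [map_add, map_sub, (low_UU B u h1 _).1 l s le_rfl, (low_UU B u h2 _).1 l s le_rfl,
            B.co_ne _ _ (P.ix_ne_inl _ _ _)]
          simp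
      · have hz : l + 1 ≤ P.zone n := (P.le_zone_iff (by omega)).2 hn
        have h1 := err_inl B u (n := n) (t := t) (by omega) (ht.trans (P.q_mono (by omega)))
        calc _ ≤ B.ps F P.cost (B.D (Sum.inl (n + t))) +
              B.ps F P.cost (UU B u (P.sch (n + t)) (n + t) - UU B u (P.sch n) (n + t)) :=
              B.ps_add_le hω _ _
          _ ≤ 0 + ‖UU B u (P.sch (n + t)) (n + t) - UU B u (P.sch n) (n + t)‖ := by
              rw [hinl]
              gcongr
              exact B.ps_le_norm (fun i _ => le_rfl) _ hcost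
          _ ≤ _ := by rw [zero_add]; exact h1
    · obtain ⟨l', m⟩ := β
      have hix : (Sum.inr ⟨l', m⟩ : P.Idx) = P.ix l' m := (P.ix_fin ⟨l', m⟩).symm
      rw [hix] at hi ⊢
      rcases lt_trichotomy l' l with hll | hll | hll
      · rw [hps0]
        · exact hcost _
        · intro s
          have hN' : P.N l' ≤ P.N l := P.N_mono hll.le
          have h1 : ∀ n, 4 * n < 4 * P.N (l + 1) + P.Q (l + 1) →
              B.co (P.ix l s) (xx B u n) = 0 := fun n hn => co_ix_xx B u (P.sch_le_of_lt hn) s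
          have h2 : B.co (P.ix l s) (B.D (P.ix l' (m + t))) = 0 := by
            apply B.co_ne
            intro he
            have := (P.ix_inj he).1
            omega
          rw [TT_pow_ix, map_add, map_sub, h2]
          split_ifs with g1 g2 g2
          · rw [h1 _ (by omega), h1 _ (by omega)]; simp
          · rw [h1 _ (by omega)]; simp
          · rw [h1 _ (by omega)]; simp
          · simp
      · subst hll
        exfalso
        apply hi
        rw [hG, Finset.mem_image]
        exact ⟨m, Finset.mem_range.2 m.2, rfl⟩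
      · rw [Par.cost_ix]
        apply err_ix B u hω (fun i _ => le_rfl) (by omega) (ht.trans (P.q_mono (by omega)))
        · intro s
          rw [hinl]
          exact (P.V_pos _).le
        · intro p
          apply hps0
          intro s
          apply B.co_ne
          intro he
          have := (P.ix_inj he).1
          omega) y
  rw [one_mul] at htail
  -- evaluation of the main term
  have hinj : Set.InjOn (fun m => P.ix l (m + t)) (Finset.range (P.q l) : Set ℕ) := by
    intro a ha b hb hab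
    have h1 := (P.ix_inj hab).2
    have ha' : a < P.q l := by simpa using ha
    have hb' : b < P.q l := by simpa using hb
    have h2 : a ≡ b [MOD P.q l] := Nat.ModEq.add_right_cancel' t h1
    exact Nat.ModEq.eq_of_lt_of_lt h2 ha' hb'
  have hinj0 : Set.InjOn (fun m => P.ix l m) (Finset.range (P.q l) : Set ℕ) := by
    intro a ha b hb hab
    have h1 := (P.ix_inj hab).2
    have ha' : a < P.q l := by simpa using ha
    have hb' : b < P.q l := by simpa using hb
    rwa [Nat.mod_eq_of_lt ha', Nat.mod_eq_of_lt hb'] at h1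
  have hmain : B.ps F P.cost (∑ i ∈ G, B.co i y • (TT B u ^ t) (B.D i)) =
      ∑ m ∈ Finset.range (P.q l), P.C l ((m + t) % P.q l) * ‖B.co (P.ix l m) y‖ := by
    unfold WB.ps
    rw [hF, Finset.sum_image hinj]
    apply Finset.sum_congr rfl
    intro m hm
    rw [Par.cost_ix]
    congr 2
    rw [hG, Finset.sum_image hinj0, map_sum]
    rw [Finset.sum_eq_single_of_mem m hm]
    · rw [map_smul, TT_pow_ix, map_add, map_sub, B.co_self]
      have h1 : ∀ n, 4 * n < 4 * P.N (l + 1) + P.Q (l + 1) →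
          B.co (P.ix l (m + t)) (xx B u n) = 0 := fun n hn =>
            co_ix_xx B u (P.sch_le_of_lt hn) _
      split_ifs with g1 g2 g2
      · rw [h1 _ (by omega), h1 _ (by omega)]; simp
      · rw [h1 _ (by omega)]; simp
      · rw [h1 _ (by omega)]; simp
      · simp
    · intro m' hm' hne
      rw [map_smul, TT_pow_ix, map_add, map_sub]
      have h1 : ∀ n, 4 * n < 4 * P.N (l + 1) + P.Q (l + 1) →
          B.co (P.ix l (m + t)) (xx B u n) = 0 := fun n hn =>
            co_ix_xx B u (P.sch_le_of_lt hn) _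
      have h2 : B.co (P.ix l (m + t)) (B.D (P.ix l (m' + t))) = 0 := by
        apply B.co_ne
        intro he
        exact hne (hinj hm' hm he.symm)
      rw [h2]
      split_ifs with g1 g2 g2
      · rw [h1 _ (by omega), h1 _ (by omega)]; simp
      · rw [h1 _ (by omega)]; simp
      · rw [h1 _ (by omega)]; simp
      · simp
  rw [← hmain]
  have h3 : B.ps F P.cost (∑ i ∈ G, B.co i y • (TT B u ^ t) (B.D i)) ≤
      B.ps F P.cost ((TT B u ^ t) y) + B.ps F P.cost ((TT B u ^ t) y -
        ∑ i ∈ G, B.co i y • (TT B u ^ t) (B.D i)) := by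
    have := B.ps_sub_le hω ((TT B u ^ t) y) ((TT B u ^ t) y -
        ∑ i ∈ G, B.co i y • (TT B u ^ t) (B.D i))
    simpa using this
  have h4 := B.ps_le_norm (F := F) (ω := P.cost) (fun i _ => le_rfl) ((TT B u ^ t) y) hcost
  linarith

end

end Pool.Agent.FHC
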