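import Mathlib
import Pool.Agent.FHC.Supp

/-!
# The second key estimate
-/

open scoped Topology
open Filter

namespace Pool.Agent.FHC

section

variable {𝕜 E : Type*} [RCLike 𝕜] [NormedAddCommGroup E] [NormedSpace 𝕜 E] {P : Par}
variable (B : WB 𝕜 E P.Idx P.cost) (u : Tg 𝕜 P)

/-- The coefficient of `x n` seen by the times of the zone `k`. -/
noncomputable def bk (k n : ℕ) (y : E) : 𝕜 :=
  B.co (Sum.inl n) y - ∑ l ∈ Finset.range (k + 1), if n < P.N l then B.co (P.ix l n) y else 0

variable [CompleteSpace E]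

open Classical in
/-- **Second key estimate**: the coefficients of the `x n` are seen in `T ^ t y`. -/
theorem key_zone {k t : ℕ} (ht : 4 * t ≤ P.Q (k + 1)) (R : Finset ℕ)
    (hR : ∀ n ∈ R, P.N k ≤ n + t ∧ n + t < P.N (k + 2) ∧ P.sch (n + t) = 0) (y : E) :
    P.W k * ∑ n ∈ R, ‖bk B k n y‖ ≤ ‖(TT B u ^ t) y‖ + ‖y‖ +
      2 * P.W k * ∑ m : Fin (P.q (k + 1)), ‖B.co (Sum.inr ⟨k + 1, m⟩) y‖ := by
  set F : Finset P.Idx := R.image (fun n => Sum.inl (n + t)) with hF
  set ω : P.Idx → ℝ := fun _ => P.W k with hωdef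
  set G : Finset P.Idx := (Finset.range (P.N (k + 2))).disjSum
    ((Finset.range (k + 2)).sigma fun l => (Finset.univ : Finset (Fin (P.q l)))) with hG
  have hWk := P.W_pos k
  have hcost : ∀ i : P.Idx, 0 ≤ P.cost i := fun i => (P.cost_pos i).le
  have hω : ∀ i ∈ F, 0 ≤ ω i := fun i _ => hWk.le
  have hω' : ∀ i ∈ F, ω i ≤ P.cost i := by
    intro i hi
    rw [hF, Finset.mem_image] at hi
    obtain ⟨n, hn, rfl⟩ := hi
    obtain ⟨h1, h2, h3⟩ := hR n hn
    rw [Par.cost_inl]
    refine le_trans ?_ (P.c_wild h3)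
    apply P.W_mono
    rcases Nat.eq_zero_or_pos k with rfl | hk
    · omega
    · exact (P.le_zone_iff hk).2 h1
  -- vanishing and bounds of the seminorm
  have hps0 : ∀ v : E, (∀ n ∈ R, B.co (Sum.inl (n + t)) v = 0) → B.ps F ω v = 0 := by
    intro v hv
    unfold WB.ps
    apply Finset.sum_eq_zero
    intro i hi
    rw [hF, Finset.mem_image] at hi
    obtain ⟨n, hn, rfl⟩ := hi
    rw [hv n hn, norm_zero, mul_zero]
  have hlow : ∀ v : E, Low B (k + 1) v → ∀ n ∈ R, B.co (Sum.inl (n + t)) v = 0 := by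
    intro v hv n hn
    apply hv.2
    intro l hl
    exact (P.N_mono (by omega)).trans (hR n hn).1
  have hixR : ∀ (l p n : ℕ), B.co (Sum.inl n) (B.D (P.ix l p)) = 0 := fun l p n =>
    B.co_ne _ _ (fun he => P.ix_ne_inl _ _ _ he.symm)
  have hinl : ∀ s, B.ps F ω (B.D (Sum.inl s)) ≤ P.W k := by
    intro s
    unfold WB.ps
    by_cases hs : (Sum.inl s : P.Idx) ∈ F
    · rw [Finset.sum_eq_single_of_mem _ hs, B.co_self]
      · simp [hωdef]
      · intro j _ hj
        rw [B.co_ne _ _ hj, norm_zero, mul_zero]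
    · rw [Finset.sum_eq_zero]
      · exact hWk.le
      · intro j hj
        rw [B.co_ne, norm_zero, mul_zero]
        rintro rfl
        exact hs hj
  have hQN := P.Q_lt_N (k + 1)
  have hNq := P.N_lt_q (k + 1)
  have hQQ : P.Q (k + 1) < P.Q (k + 2) := P.Q_strictMono (Nat.lt_succ_self _)
  have hNN1 : P.N k < P.N (k + 1) := P.N_strictMono (Nat.lt_succ_self _)
  have hNN2 : P.N (k + 1) < P.N (k + 2) := P.N_strictMono (Nat.lt_succ_self _)
  have hQpos := P.Q_pos (k + 1)
  have hs1 : ∀ n, n < P.N (k + 2) + t → P.sch n ≤ k + 1 := by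
    intro n hn
    apply P.sch_le_of_lt
    show 4 * n < 4 * P.N (k + 2) + P.Q (k + 2)
    omega
  -- orbit vectors
  have hcoxx : ∀ r, P.sch r ≤ k + 1 → ∀ n ∈ R, B.co (Sum.inl (n + t)) (xx B u r) =
      if n + t = r then 1 else 0 := by
    intro r hr n hn
    have h1 : B.co (Sum.inl (n + t)) (UU B u (P.sch r) r) = 0 :=
      hlow _ (low_UU B u hr r) n hn
    rw [xx_eq, map_add, h1, add_zero]
    split_ifs with h2
    · rw [h2, B.co_self]
    · exact B.co_ne _ _ (fun he => h2 (Sum.inl_injective he))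
  have hpsxx : ∀ r, P.sch r ≤ k + 1 → B.ps F ω (xx B u r) ≤ P.W k := by
    intro r hr
    have h1 : B.ps F ω (UU B u (P.sch r) r) = 0 := hps0 _ (hlow _ (low_UU B u hr r))
    rw [xx_eq]
    calc _ ≤ B.ps F ω (B.D (Sum.inl r)) + B.ps F ω (UU B u (P.sch r) r) := B.ps_add_le hω _ _
      _ ≤ P.W k := by rw [h1, add_zero]; exact hinl r
  -- the tail
  have htail := B.ps_tail hω hcost (TT B u ^ t) G (K := 1) zero_le_one (by
    intro i hi
    rw [one_mul]
    rcases i with n | β
    · have hn : P.N (k + 2) ≤ n := by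
        by_contra hcon
        apply hi
        rw [hG, Finset.inl_mem_disjSum]
        exact Finset.mem_range.2 (by omega)
      have hz : k + 2 ≤ P.zone n := (P.le_zone_iff (by omega)).2 hn
      have h1 := err_inl B u (n := n) (t := t) (by omega) (by
        have : P.q (k + 1) ≤ P.q (P.zone n - 1) := P.q_mono (by omega)
        omega)
      rw [TT_pow_inl]
      have h2 : B.ps F ω (B.D (Sum.inl (n + t))) = 0 := by
        apply hps0
        intro n' hn'
        apply B.co_ne
        intro he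
        have h3 : n' + t = n + t := Sum.inl_injective he
        have h4 := (hR n' hn').2.1
        omega
      calc _ ≤ B.ps F ω (B.D (Sum.inl (n + t))) +
            B.ps F ω (UU B u (P.sch (n + t)) (n + t) - UU B u (P.sch n) (n + t)) :=
            B.ps_add_le hω _ _
        _ ≤ 0 + ‖UU B u (P.sch (n + t)) (n + t) - UU B u (P.sch n) (n + t)‖ := by
            rw [h2]
            gcongr
            exact B.ps_le_norm hω' _ hcost
        _ ≤ _ := by rw [zero_add]; exact h1
    · obtain ⟨l, m⟩ := β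
      have hl : k + 2 ≤ l := by
        by_contra hcon
        apply hi
        rw [hG, Finset.inr_mem_disjSum, Finset.mem_sigma]
        exact ⟨Finset.mem_range.2 (by simpa using hcon), Finset.mem_univ _⟩
      have hix : (Sum.inr ⟨l, m⟩ : P.Idx) = P.ix l m := (P.ix_fin ⟨l, m⟩).symm
      rw [hix, Par.cost_ix]
      apply err_ix B u hω hω' (by omega)
      · have : P.q (k + 1) ≤ P.q (l - 1) := P.q_mono (by omega)
        omega
      · intro s
        refine (hinl s).trans ?_
        unfold Par.V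
        have h1 : P.W k ≤ P.W (l - 1) := P.W_mono (by omega)
        have h2 : (1 : ℝ) ≤ 2 ^ l := one_le_pow₀ (by norm_num)
        have h3 := P.W_pos (l - 1)
        nlinarith
      · intro p
        apply hps0
        intro n _
        exact hixR _ _ _) y
  rw [one_mul] at htail
  -- splitting of the finite sum
  set v1 : E := ∑ n ∈ Finset.range (P.N (k + 2)),
    B.co (Sum.inl n) y • (TT B u ^ t) (B.D (Sum.inl n)) with hv1
  set v2 : E := ∑ l ∈ Finset.range (k + 1), ∑ m : Fin (P.q l),
    B.co (Sum.inr ⟨l, m⟩) y • (TT B u ^ t) (B.D (Sum.inr ⟨l, m⟩)) with hv2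
  set v3 : E := ∑ m : Fin (P.q (k + 1)),
    B.co (Sum.inr ⟨k + 1, m⟩) y • (TT B u ^ t) (B.D (Sum.inr ⟨k + 1, m⟩)) with hv3
  have hsplit : ∑ i ∈ G, B.co i y • (TT B u ^ t) (B.D i) = v1 + v2 + v3 := by
    rw [hG, Finset.sum_disjSum, Finset.sum_sigma, Finset.sum_range_succ, hv1, hv2, hv3, add_assoc]
  rw [hsplit] at htail
  -- the block `k + 1`
  have hp3 : B.ps F ω v3 ≤ 2 * P.W k * ∑ m : Fin (P.q (k + 1)), ‖B.co (Sum.inr ⟨k + 1, m⟩) y‖ := by
    rw [hv3, Finset.mul_sum]
    refine (B.ps_sum_le hω _ _).trans (Finset.sum_le_sum fun m _ => ?_)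
    rw [B.ps_smul, mul_comm]
    apply mul_le_mul_of_nonneg_right _ (norm_nonneg _)
    have hix : (Sum.inr ⟨k + 1, m⟩ : P.Idx) = P.ix (k + 1) m := (P.ix_fin ⟨k + 1, m⟩).symm
    rw [hix, TT_pow_ix]
    have h1 : B.ps F ω (B.D (P.ix (k + 1) (m + t))) = 0 := hps0 _ fun n _ => hixR _ _ _
    have h2 : B.ps F ω (if (m + t) % P.q (k + 1) < P.N (k + 1) then
        xx B u ((m + t) % P.q (k + 1)) else 0) ≤ P.W k := by
      split_ifs with h
      · exact hpsxx _ ((P.sch_le_zone _).trans (P.zone_le_of_lt h))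
      · rw [B.ps_zero]; exact hWk.le
    have h3 : B.ps F ω (if (m : ℕ) % P.q (k + 1) < P.N (k + 1) then
        xx B u (m % P.q (k + 1) + t) else 0) ≤ P.W k := by
      split_ifs with h
      · exact hpsxx _ (hs1 _ (by omega))
      · rw [B.ps_zero]; exact hWk.le
    calc _ ≤ B.ps F ω (B.D (P.ix (k + 1) (m + t))) +
          B.ps F ω ((if (m + t) % P.q (k + 1) < P.N (k + 1) then
            xx B u ((m + t) % P.q (k + 1)) else 0) -
            if (m : ℕ) % P.q (k + 1) < P.N (k + 1) then
            xx B u (m % P.q (k + 1) + t) else 0) := B.ps_add_le hω _ _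
      _ ≤ 0 + (P.W k + P.W k) := by
          rw [h1]
          gcongr
          exact (B.ps_sub_le hω _ _).trans (add_le_add h2 h3)
      _ = 2 * P.W k := by ring
  -- the main term
  have hinj : Set.InjOn (fun n : ℕ => (Sum.inl (n + t) : P.Idx)) (R : Set ℕ) := by
    intro a _ b _ hab
    have : a + t = b + t := Sum.inl_injective hab
    omega
  have hmain : B.ps F ω (v1 + v2) = P.W k * ∑ n ∈ R, ‖bk B k n y‖ := by
    unfold WB.ps
    rw [hF, Finset.sum_image hinj, Finset.mul_sum]
    apply Finset.sum_congr rfl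
    intro n hn
    congr 2
    obtain ⟨hn1, hn2, hn3⟩ := hR n hn
    rw [map_add, hv1, hv2, map_sum, map_sum, bk, sub_eq_add_neg, ← Finset.sum_neg_distrib]
    congr 1
    · rw [Finset.sum_eq_single_of_mem n (Finset.mem_range.2 (by omega))]
      · rw [map_smul, TT_pow_inl, map_add, B.co_self, map_sub,
          hlow _ (low_UU B u (hs1 _ (by omega)) _) n hn,
          hlow _ (low_UU B u (hs1 _ (by omega)) _) n hn]
        simp
      · intro n' hn' hne
        rw [Finset.mem_range] at hn'
        rw [map_smul, TT_pow_inl, map_add, B.co_ne, map_sub,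
          hlow _ (low_UU B u (hs1 _ (by omega)) _) n hn,
          hlow _ (low_UU B u (hs1 _ (by omega)) _) n hn]
        · simp
        · intro he
          have : n + t = n' + t := Sum.inl_injective he
          omega
    · apply Finset.sum_congr rfl
      intro l hl
      rw [Finset.mem_range] at hl
      have hNl : P.N l ≤ P.N k := P.N_mono (by omega)
      have hNql := P.N_lt_q l
      rw [map_sum]
      have hterm : ∀ m : Fin (P.q l), B.co (Sum.inl (n + t))
          (B.co (Sum.inr ⟨l, m⟩) y • (TT B u ^ t) (B.D (Sum.inr ⟨l, m⟩))) =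
          if (m : ℕ) < P.N l ∧ n = m then - B.co (Sum.inr ⟨l, m⟩) y else 0 := by
        intro m
        have hix : (Sum.inr ⟨l, m⟩ : P.Idx) = P.ix l m := (P.ix_fin ⟨l, m⟩).symm
        rw [hix, map_smul, TT_pow_ix, map_add, hixR, map_sub, zero_add, Nat.mod_eq_of_lt m.2]
        have h2 : B.co (Sum.inl (n + t)) (if (m + t) % P.q l < P.N l then
            xx B u ((m + t) % P.q l) else 0) = 0 := by
          split_ifs with h
          · rw [hcoxx _ (((P.sch_le_zone _).trans (P.zone_le_of_lt h)).trans (by omega)) n hn,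
              if_neg (by omega)]
          · rw [map_zero]
        rw [h2, zero_sub]
        by_cases h3 : (m : ℕ) < P.N l
        · rw [if_pos h3, hcoxx _ (hs1 _ (by omega)) n hn]
          by_cases h4 : n = m
          · rw [if_pos (by omega), if_pos ⟨h3, h4⟩]
            simp
          · rw [if_neg (by omega), if_neg (fun h => h4 h.2)]
            simp
        · rw [if_neg h3, if_neg (fun h => h3 h.1)]
          simp
      rw [Finset.sum_congr rfl (fun m _ => hterm m)]
      by_cases hnl : n < P.N l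
      · rw [if_pos hnl, Finset.sum_eq_single_of_mem (⟨n, by omega⟩ : Fin (P.q l))
          (Finset.mem_univ _)]
        · rw [if_pos ⟨hnl, rfl⟩]
          congr 2
          exact (P.ix_fin ⟨l, ⟨n, by omega⟩⟩).symm ▸ rfl
        · intro m _ hne
          rw [if_neg]
          rintro ⟨_, rfl⟩
          exact hne rfl
      · rw [if_neg hnl, Finset.sum_eq_zero, neg_zero]
        intro m _
        rw [if_neg]
        rintro ⟨h5, rfl⟩
        exact hnl h5
  rw [← hmain]
  have h3 : B.ps F ω (v1 + v2) ≤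
      B.ps F ω ((TT B u ^ t) y) + B.ps F ω ((TT B u ^ t) y - (v1 + v2 + v3)) + B.ps F ω v3 := by
    have e1 : v1 + v2 = (TT B u ^ t) y - ((TT B u ^ t) y - (v1 + v2 + v3)) - v3 := by abel
    calc B.ps F ω (v1 + v2)
        = B.ps F ω ((TT B u ^ t) y - ((TT B u ^ t) y - (v1 + v2 + v3)) - v3) := by rw [← e1]
      _ ≤ B.ps F ω ((TT B u ^ t) y - ((TT B u ^ t) y - (v1 + v2 + v3))) + B.ps F ω v3 :=
          B.ps_sub_le hω _ _
      _ ≤ _ := by
          gcongr
          exact B.ps_sub_le hω _ _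
  have h4 := B.ps_le_norm (F := F) (ω := ω) hω' ((TT B u ^ t) y) hcost
  linarith

end

end Pool.Agent.FHC
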