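import Mathlib
import Pool.Agent.FHC.KeyZone

/-!
# Vectors with frequent returns to the unit ball are tame
-/

open scoped Topology
open Filter

namespace Pool.Agent.FHC

namespace Par

variable (P : Par)

lemma om_add_le {k l : ℕ} (h : k ≤ l) : P.om k + (l - k) ≤ P.om l := by
  obtain ⟨d, rfl⟩ := Nat.exists_eq_add_of_le h
  simp only [Nat.add_sub_cancel_left]
  clear h
  induction d with
  | zero => simp
  | succ d ih =>
    have := P.om_lt_om_succ (k + d)
    rw [← add_assoc k d 1]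
    omega

lemma W_div_W {k l : ℕ} (h : k ≤ l) : P.W k / P.W l ≤ (1 / 2) ^ (l - k) := by
  have h1 := P.om_add_le h
  rw [div_le_iff₀ (P.W_pos l)]
  unfold W
  calc (2 : ℝ) ^ P.om k = (1 / 2) ^ (l - k) * 2 ^ (P.om k + (l - k)) := by
        rw [pow_add, one_div, inv_pow]
        field_simp
    _ ≤ (1 / 2) ^ (l - k) * 2 ^ P.om l := by
        gcongr
        norm_num

lemma two_pow_le_W (l : ℕ) : (2 : ℝ) ^ l ≤ P.W l := by
  unfold W
  exact pow_le_pow_right₀ (by norm_num) (by have := P.om_ge l; omega)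

lemma N_sq_le_q (l : ℕ) : P.N l * P.N l ≤ P.q l := by
  apply sq_le_two_pow
  have := P.om_ge l
  have := P.om_lt_Q l
  have := P.Q_lt_N l
  omega

end Par

section

variable {𝕜 E : Type*} [RCLike 𝕜] [NormedAddCommGroup E] [NormedSpace 𝕜 E] {P : Par}
variable (B : WB 𝕜 E P.Idx P.cost) (u : Tg 𝕜 P)

/-- The `ℓ¹` norm of the coordinates in the block `l`. -/
noncomputable def blk (l : ℕ) (y : E) : ℝ := ∑ m : Fin (P.q l), ‖B.co (Sum.inr ⟨l, m⟩) y‖

/-- The `ℓ¹` norm of the coordinates in the zone `k`. -/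
noncomputable def zon (k : ℕ) (y : E) : ℝ :=
  ∑ n ∈ Finset.Ico (P.N k) (P.N (k + 1)), ‖B.co (Sum.inl n) y‖

lemma blk_nonneg (l : ℕ) (y : E) : 0 ≤ blk B l y := Finset.sum_nonneg fun _ _ => norm_nonneg _

lemma zon_nonneg (k : ℕ) (y : E) : 0 ≤ zon B k y := Finset.sum_nonneg fun _ _ => norm_nonneg _

lemma blk_eq (l : ℕ) (y : E) :
    blk B l y = ∑ m ∈ Finset.range (P.q l), ‖B.co (P.ix l m) y‖ := by
  unfold blk
  rw [← Fin.sum_univ_eq_sum_range (fun m => ‖B.co (P.ix l m) y‖)]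
  apply Finset.sum_congr rfl
  intro m _
  rw [P.ix_fin ⟨l, m⟩]

lemma co_ix_le_blk (l n : ℕ) (y : E) : ‖B.co (P.ix l n) y‖ ≤ blk B l y := by
  unfold blk
  exact Finset.single_le_sum (f := fun m : Fin (P.q l) => ‖B.co (Sum.inr ⟨l, m⟩) y‖)
    (fun _ _ => norm_nonneg _) (Finset.mem_univ _)

/-- Tame vectors. -/
def Tame (y : E) : Prop :=
  ∃ K : ℝ, 0 ≤ K ∧ ∃ l₀ : ℕ, ∀ l ≥ l₀, P.W l * blk B l y ≤ K ∧ P.W l * zon B l y ≤ K

variable [CompleteSpace E]

/-- The times at which `y` is small. -/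
def Hit (y : E) (t : ℕ) : Prop := ‖(TT B u ^ t) y‖ < 1

open Classical in
/-- positive lower density of the set of hits. -/
def Dens (y : E) : Prop :=
  ∃ δ : ℝ, 0 < δ ∧ ∃ n₀ : ℕ, ∀ n ≥ n₀, δ * n ≤ ((Finset.range n).filter (Hit B u y)).card

/-- The block part of a vector with frequent hits. -/
theorem blk_of_dens {y : E} (hy : Dens B u y) :
    ∃ l₀ : ℕ, ∀ l ≥ l₀, P.W l * blk B l y ≤ 2 * (1 + ‖y‖) := by
  classical
  obtain ⟨δ, hδ, n₀, hn₀⟩ := hy
  obtain ⟨l₁, hl₁⟩ := exists_nat_gt (2 / δ)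
  refine ⟨max n₀ l₁, fun l hl => ?_⟩
  have hln : n₀ ≤ P.q l := by
    have h1 := P.lt_N l
    have h2 := P.N_lt_q l
    have h3 : n₀ ≤ l := (le_max_left _ _).trans hl
    omega
  set Hl := (Finset.range (P.q l)).filter (Hit B u y) with hHl
  have hcard : δ * (P.q l : ℝ) ≤ Hl.card := by
    convert hn₀ (P.q l) hln
  have hNpos : (0 : ℝ) < P.N l := by exact_mod_cast P.N_pos l
  have hbig : 2 * (P.N l : ℝ) ≤ Hl.card := by
    have h1 : (P.N l : ℝ) * P.N l ≤ P.q l := by exact_mod_cast P.N_sq_le_q l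
    have h2 : (2 : ℝ) / δ < P.N l := by
      have h3 : l₁ < P.N l := lt_of_le_of_lt ((le_max_right _ _).trans hl) (P.lt_N l)
      exact hl₁.trans (by exact_mod_cast h3)
    have h4 : 2 ≤ δ * P.N l := by
      rw [div_lt_iff₀ hδ] at h2
      linarith [mul_comm δ (P.N l : ℝ)]
    calc 2 * (P.N l : ℝ) ≤ (δ * P.N l) * P.N l := by gcongr
      _ = δ * (P.N l * P.N l) := by ring
      _ ≤ δ * P.q l := by gcongr
      _ ≤ _ := hcard
  -- the sum over the hits
  have h1 : ∀ t ∈ Hl, ∑ m ∈ Finset.range (P.q l), P.C l ((m + t) % P.q l) *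
      ‖B.co (P.ix l m) y‖ ≤ 1 + ‖y‖ := by
    intro t ht
    rw [hHl, Finset.mem_filter, Finset.mem_range] at ht
    have := key_block B u (l := l) (t := t) ht.1.le y
    have h2 : ‖(TT B u ^ t) y‖ < 1 := ht.2
    linarith
  have h2 : ∑ m ∈ Finset.range (P.q l), (∑ t ∈ Hl, P.C l ((m + t) % P.q l)) *
      ‖B.co (P.ix l m) y‖ ≤ Hl.card * (1 + ‖y‖) := by
    calc ∑ m ∈ Finset.range (P.q l), (∑ t ∈ Hl, P.C l ((m + t) % P.q l)) * ‖B.co (P.ix l m) y‖
        = ∑ t ∈ Hl, ∑ m ∈ Finset.range (P.q l), P.C l ((m + t) % P.q l) *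
          ‖B.co (P.ix l m) y‖ := by
          rw [Finset.sum_comm]
          apply Finset.sum_congr rfl
          intro m _
          rw [Finset.sum_mul]
      _ ≤ ∑ t ∈ Hl, (1 + ‖y‖) := Finset.sum_le_sum h1
      _ = _ := by rw [Finset.sum_const, nsmul_eq_mul]
  have h3 : ∀ m ∈ Finset.range (P.q l), P.W l * (Hl.card - P.N l) ≤
      ∑ t ∈ Hl, P.C l ((m + t) % P.q l) := by
    intro m _
    have h4 : ∑ t ∈ Hl.filter (fun t => P.N l ≤ (m + t) % P.q l), P.W l ≤
        ∑ t ∈ Hl, P.C l ((m + t) % P.q l) := by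
      rw [Finset.sum_filter]
      apply Finset.sum_le_sum
      intro t _
      split_ifs with h
      · rw [P.C_eq_W h]
      · exact (P.C_pos _ _).le
    refine le_trans ?_ h4
    rw [Finset.sum_const, nsmul_eq_mul, mul_comm]
    apply mul_le_mul_of_nonneg_right _ (P.W_pos l).le
    have h5 : (Hl.filter (fun t => ¬ P.N l ≤ (m + t) % P.q l)).card ≤ P.N l := by
      rw [← Finset.card_range (P.N l)]
      apply Finset.card_le_card_of_injOn (fun t => (m + t) % P.q l)
      · intro t ht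
        have := (Finset.mem_filter.1 (Finset.mem_coe.1 ht)).2
        simpa using this
      · intro a ha b hb hab
        have ha1 := (Finset.mem_filter.1 (Finset.mem_coe.1 ha)).1
        have hb1 := (Finset.mem_filter.1 (Finset.mem_coe.1 hb)).1
        rw [hHl, Finset.mem_filter, Finset.mem_range] at ha1 hb1
        have h6 : a ≡ b [MOD P.q l] := Nat.ModEq.add_left_cancel' m hab
        exact Nat.ModEq.eq_of_lt_of_lt h6 ha1.1 hb1.1
    have h6 := Finset.card_filter_add_card_filter_not (s := Hl) (fun t => P.N l ≤ (m + t) % P.q l)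
    have h7 : (Hl.card : ℝ) = (Hl.filter (fun t => P.N l ≤ (m + t) % P.q l)).card +
        (Hl.filter (fun t => ¬ P.N l ≤ (m + t) % P.q l)).card := by exact_mod_cast h6.symm
    have h8 : ((Hl.filter (fun t => ¬ P.N l ≤ (m + t) % P.q l)).card : ℝ) ≤ P.N l := by
      exact_mod_cast h5
    linarith
  have h4 : P.W l * (Hl.card - P.N l) * blk B l y ≤ Hl.card * (1 + ‖y‖) := by
    rw [blk_eq, Finset.mul_sum]
    refine le_trans (Finset.sum_le_sum fun m hm => ?_) h2
    exact mul_le_mul_of_nonneg_right (h3 m hm) (norm_nonneg _)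
  have h5 : (0 : ℝ) < Hl.card := by linarith
  have h6 : P.W l * blk B l y * ((Hl.card : ℝ) / 2) ≤ P.W l * (Hl.card - P.N l) * blk B l y := by
    have h7 : (Hl.card : ℝ) / 2 ≤ Hl.card - P.N l := by linarith
    have h8 := blk_nonneg B l y
    have h9 := P.W_pos l
    calc P.W l * blk B l y * ((Hl.card : ℝ) / 2) ≤ P.W l * blk B l y * (Hl.card - P.N l) := by
          gcongr
      _ = _ := by ring
  have h7 : P.W l * blk B l y * ((Hl.card : ℝ) / 2) ≤ (2 * (1 + ‖y‖)) * ((Hl.card : ℝ) / 2) := by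
    linarith
  exact le_of_mul_le_mul_right h7 (by positivity)

/-- summability of the block norms. -/
lemma summable_blk {y : E} {K : ℝ} {l₀ : ℕ} (h : ∀ l ≥ l₀, P.W l * blk B l y ≤ K) :
    Summable (fun l => blk B l y) := by
  have hK : 0 ≤ K := (mul_nonneg (P.W_pos l₀).le (blk_nonneg B l₀ y)).trans (h l₀ le_rfl)
  have h1 : Summable (fun l => K * (1 / 2 : ℝ) ^ l) :=
    (summable_geometric_of_lt_one (by norm_num) (by norm_num)).mul_left K
  rw [← summable_nat_add_iff l₀]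
  have h1' := (summable_nat_add_iff l₀).2 h1
  apply Summable.of_nonneg_of_le (fun l => blk_nonneg B _ y) _ h1'
  intro l
  have h2 := h (l + l₀) (by omega)
  have h3 := P.two_pow_le_W (l + l₀)
  have h4 : blk B (l + l₀) y ≤ K / P.W (l + l₀) := by
    rw [le_div_iff₀ (P.W_pos _)]
    linarith [mul_comm (P.W (l + l₀)) (blk B (l + l₀) y)]
  refine h4.trans ?_
  rw [one_div, inv_pow, ← div_eq_mul_inv]
  gcongr

/-- The tail of the series of the block norms. -/
lemma tail_blk {y : E} {K : ℝ} {l₀ : ℕ} (h : ∀ l ≥ l₀, P.W l * blk B l y ≤ K) {k : ℕ}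
    (hk : l₀ ≤ k) : P.W k * ∑' l, blk B (l + (k + 1)) y ≤ K := by
  have hK : 0 ≤ K := (mul_nonneg (P.W_pos l₀).le (blk_nonneg B l₀ y)).trans (h l₀ le_rfl)
  have hs := summable_blk B h
  have hs' := (summable_nat_add_iff (k + 1)).2 hs
  have hg : HasSum (fun l : ℕ => K * ((1 / 2 : ℝ) ^ (l + 1))) K := by
    have := (hasSum_geometric_two' K)
    convert this using 2 with l
    rw [one_div, inv_pow, pow_succ]
    ring
  rw [← tsum_mul_left]
  refine le_trans ((hs'.mul_left _).tsum_le_tsum (fun l => ?_) hg.summable) (le_of_eq hg.tsum_eq)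
  have h2 := h (l + (k + 1)) (by omega)
  have h3 := P.W_div_W (k := k) (l := l + (k + 1)) (by omega)
  have h4 : l + (k + 1) - k = l + 1 := by omega
  rw [h4] at h3
  have h5 := P.W_pos (l + (k + 1))
  have h6 := blk_nonneg B (l + (k + 1)) y
  calc P.W k * blk B (l + (k + 1)) y
      = (P.W k / P.W (l + (k + 1))) * (P.W (l + (k + 1)) * blk B (l + (k + 1)) y) := by
        field_simp
    _ ≤ (1 / 2) ^ (l + 1) * K := by gcongr
    _ = _ := mul_comm _ _

/-- The limit of the coefficients `bk`. -/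
noncomputable def bb (n : ℕ) (y : E) : 𝕜 :=
  B.co (Sum.inl n) y - ∑' l, if n < P.N l then B.co (P.ix l n) y else 0

lemma summable_ix {y : E} (hs : Summable (fun l => blk B l y)) (n : ℕ) :
    Summable (fun l => if n < P.N l then B.co (P.ix l n) y else 0) := by
  apply Summable.of_norm_bounded hs
  intro l
  split_ifs
  · exact co_ix_le_blk B l n y
  · rw [norm_zero]; exact blk_nonneg B l y

lemma tendsto_bk {y : E} (hs : Summable (fun l => blk B l y)) (n : ℕ) :
    Tendsto (fun k => bk B k n y) atTop (𝓝 (bb B n y)) := by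
  unfold bk bb
  apply Tendsto.const_sub
  have h := (summable_ix B hs n).hasSum.tendsto_sum_nat
  exact h.comp (tendsto_add_atTop_nat 1)

/-- The case when all coefficients vanish. -/
lemma zon_of_bb_zero {y : E} {K : ℝ} {l₀ : ℕ} (h : ∀ l ≥ l₀, P.W l * blk B l y ≤ K)
    (hb : ∀ n, bb B n y = 0) {k : ℕ} (hk : l₀ ≤ k) : P.W k * zon B k y ≤ K := by
  have hs := summable_blk B h
  refine le_trans ?_ (tail_blk B h hk)
  gcongr
  · exact (P.W_pos k).le
  unfold zon
  have h1 : ∀ n ∈ Finset.Ico (P.N k) (P.N (k + 1)), ‖B.co (Sum.inl n) y‖ ≤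
      ∑' l, ‖(if n < P.N (l + (k + 1)) then B.co (P.ix (l + (k + 1)) n) y else 0 : 𝕜)‖ := by
    intro n hn
    rw [Finset.mem_Ico] at hn
    have h2 : B.co (Sum.inl n) y = ∑' l, if n < P.N l then B.co (P.ix l n) y else 0 := by
      have := hb n
      unfold bb at this
      exact sub_eq_zero.1 this
    have h3 := (summable_ix B hs n).sum_add_tsum_nat_add (k + 1)
    have h4 : ∑ l ∈ Finset.range (k + 1), (if n < P.N l then B.co (P.ix l n) y else 0 : 𝕜) = 0 := by
      apply Finset.sum_eq_zero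
      intro l hl
      rw [Finset.mem_range] at hl
      have : P.N l ≤ P.N k := P.N_mono (by omega)
      rw [if_neg (by omega)]
    rw [h4, zero_add] at h3
    rw [h2, ← h3]
    apply norm_tsum_le_tsum_norm
    apply Summable.of_nonneg_of_le (fun _ => norm_nonneg _) _
      ((summable_nat_add_iff (k + 1)).2 hs)
    intro l
    split_ifs
    · exact co_ix_le_blk B _ n y
    · rw [norm_zero]; exact blk_nonneg B _ y
  have h5 : ∀ n ∈ Finset.Ico (P.N k) (P.N (k + 1)), Summable (fun l =>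
      ‖(if n < P.N (l + (k + 1)) then B.co (P.ix (l + (k + 1)) n) y else 0 : 𝕜)‖) := by
    intro n _
    apply Summable.of_nonneg_of_le (fun _ => norm_nonneg _) _
      ((summable_nat_add_iff (k + 1)).2 hs)
    intro l
    split_ifs
    · exact co_ix_le_blk B _ n y
    · rw [norm_zero]; exact blk_nonneg B _ y
  refine (Finset.sum_le_sum h1).trans ?_
  rw [← Summable.tsum_finsetSum h5]
  apply (summable_sum h5).tsum_le_tsum _ ((summable_nat_add_iff (k + 1)).2 hs)
  intro l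
  rw [blk_eq]
  have hNk : P.N (k + 1) ≤ P.N (l + (k + 1)) := P.N_mono (by omega)
  have hNq := P.N_lt_q (l + (k + 1))
  calc ∑ n ∈ Finset.Ico (P.N k) (P.N (k + 1)),
        ‖(if n < P.N (l + (k + 1)) then B.co (P.ix (l + (k + 1)) n) y else 0 : 𝕜)‖
      ≤ ∑ n ∈ Finset.Ico (P.N k) (P.N (k + 1)), ‖B.co (P.ix (l + (k + 1)) n) y‖ := by
        apply Finset.sum_le_sum
        intro n _
        split_ifs
        · exact le_rfl
        · rw [norm_zero]; exact norm_nonneg _
    _ ≤ _ := by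
        apply Finset.sum_le_sum_of_subset_of_nonneg
        · intro n hn
          rw [Finset.mem_Ico] at hn
          exact Finset.mem_range.2 (by omega)
        · intro _ _ _
          exact norm_nonneg _

/-- **Vectors with frequent hits are tame.** -/
theorem tame_of_dens {y : E} (hy : Dens B u y) : Tame B y := by
  classical
  obtain ⟨l₀, hl₀⟩ := blk_of_dens B u hy
  set K₁ := 2 * (1 + ‖y‖) with hK₁
  have hK₁0 : 0 ≤ K₁ := by positivity
  have hs := summable_blk B hl₀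
  by_cases hb : ∀ n, bb B n y = 0
  · exact ⟨K₁, hK₁0, l₀, fun l hl => ⟨hl₀ l hl, zon_of_bb_zero B hl₀ hb hl⟩⟩
  push Not at hb
  obtain ⟨m₀, hm₀⟩ := hb
  have hβ : 0 < ‖bb B m₀ y‖ := norm_pos_iff.2 hm₀
  have h1 : ∀ᶠ k in atTop, ‖bb B m₀ y‖ / 2 < ‖bk B k m₀ y‖ :=
    (tendsto_bk B hs m₀).norm.eventually (lt_mem_nhds (by linarith))
  obtain ⟨k₁, hk₁⟩ := eventually_atTop.1 h1
  obtain ⟨δ, hδ, n₀, hn₀⟩ := hy
  set β := ‖bb B m₀ y‖ / 2 with hβdef
  have hβ0 : 0 < β := by positivity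
  set K₂ := 1 + ‖y‖ + 2 * K₁ with hK₂
  have hK₂0 : 0 ≤ K₂ := by positivity
  obtain ⟨k₂, hk₂⟩ := exists_nat_gt (K₂ / β)
  obtain ⟨k₃, hk₃⟩ := exists_nat_gt (1 / δ)
  refine ⟨K₁ + K₂ + ‖y‖, by positivity, l₀ + k₁ + k₂ + k₃ + n₀ + m₀, fun k hk => ?_⟩
  have hWk := P.W_pos k
  constructor
  · have := hl₀ k (by omega)
    have := norm_nonneg y
    linarith
  -- a hit in the zone `k`
  have hQpos := P.Q_pos (k + 1)
  have hqQ := P.q_le_Q k
  have hNq := P.N_sq_le_q k
  have hlt := P.lt_N k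
  obtain ⟨t, htN, htQ, hthit⟩ : ∃ t, P.N k ≤ t ∧ 4 * t ≤ P.Q (k + 1) ∧ Hit B u y t := by
    have h2 := hn₀ (P.q k) (by have := P.N_lt_q k; omega)
    by_contra hcon
    push Not at hcon
    have h3 : (Finset.range (P.q k)).filter (Hit B u y) ⊆ Finset.range (P.N k) := by
      intro t ht
      rw [Finset.mem_filter, Finset.mem_range] at ht
      rw [Finset.mem_range]
      by_contra h4
      exact hcon t (by omega) (by omega) ht.2
    have h4 : ((Finset.range (P.q k)).filter (Hit B u y)).card ≤ P.N k := by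
      simpa using Finset.card_le_card h3
    have h5 : δ * (P.q k : ℝ) ≤ P.N k := h2.trans (by exact_mod_cast h4)
    have h6 : (P.N k : ℝ) * P.N k ≤ P.q k := by exact_mod_cast hNq
    have h7 : (1 : ℝ) / δ < P.N k := hk₃.trans (by exact_mod_cast (by omega : k₃ < P.N k))
    rw [div_lt_iff₀ hδ] at h7
    have h8 : (0 : ℝ) < P.N k := by exact_mod_cast P.N_pos k
    nlinarith
  have hthit' : ‖(TT B u ^ t) y‖ < 1 := hthit
  have hblk : 2 * P.W k * ∑ m : Fin (P.q (k + 1)), ‖B.co (Sum.inr ⟨k + 1, m⟩) y‖ ≤ 2 * K₁ := by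
    have h2 := hl₀ (k + 1) (by omega)
    have h3 : P.W k ≤ P.W (k + 1) := P.W_mono (Nat.le_succ k)
    have h4 := blk_nonneg B (k + 1) y
    have h5 : P.W k * blk B (k + 1) y ≤ P.W (k + 1) * blk B (k + 1) y := by gcongr
    have h6 : ∑ m : Fin (P.q (k + 1)), ‖B.co (Sum.inr ⟨k + 1, m⟩) y‖ = blk B (k + 1) y := rfl
    rw [h6]
    linarith
  have hQN := P.Q_lt_N (k + 1)
  have hNN : P.N (k + 1) < P.N (k + 2) := P.N_strictMono (Nat.lt_succ_self _)
  have hNlt : P.N k < P.N (k + 1) := P.N_strictMono (Nat.lt_succ_self _)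
  have hNQ2 : 2 * P.N (k + 1) ≤ P.N (k + 2) := by
    have h2 := P.N_lt_om (show k + 1 < k + 2 by omega)
    have h3 := P.two_om_le_N (k + 2)
    omega
  have hzm : P.zone (m₀ + t) = k := P.zone_eq (by omega) (by omega)
  -- `m₀ + t` is not wild
  have hm₀t : P.sch (m₀ + t) ≠ 0 := by
    intro h0
    have h2 := key_zone B u htQ {m₀} (by
      intro n hn
      rw [Finset.mem_singleton] at hn
      subst hn
      exact ⟨by omega, by omega, h0⟩) y
    rw [Finset.sum_singleton] at h2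
    have h3 := hk₁ k (by omega)
    have h4 : K₂ / β < P.W k := by
      refine hk₂.trans_le ?_
      have h5 : (k₂ : ℝ) ≤ (2 : ℝ) ^ k := by
        have h6 : k₂ ≤ 2 ^ k := (by omega : k₂ ≤ k).trans Nat.lt_two_pow_self.le
        exact_mod_cast h6
      exact h5.trans (P.two_pow_le_W k)
    rw [div_lt_iff₀ hβ0] at h4
    have h5 : P.W k * β < P.W k * ‖bk B k m₀ y‖ := by gcongr
    linarith
  -- the times which are not wild
  set R := (Finset.Ico (P.N k) (P.N (k + 1))).filter (fun n => P.sch n ≠ 0) with hR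
  have hm₀Q : 2 ^ (k + 3) * m₀ ≤ 3 * P.Q k := by
    have h2 : m₀ ≤ 2 ^ k := (by omega : m₀ ≤ k).trans Nat.lt_two_pow_self.le
    have h3 : 2 ^ (k + 3) * m₀ ≤ 2 ^ (k + 3) * 2 ^ k := Nat.mul_le_mul_left _ h2
    have h4 : 2 ^ (k + 3) * 2 ^ k = 2 ^ (k + 3 + k) := (pow_add 2 (k + 3) k).symm
    have h5 : 2 ^ (k + 3 + k) ≤ 2 ^ P.om k :=
      Nat.pow_le_pow_right (by norm_num) (by have := P.om_ge k; omega)
    have h6 : P.Q k = 2 ^ P.om k := rfl
    omega
  have hkey := key_zone B u htQ R (by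
    intro n hn
    rw [hR, Finset.mem_filter, Finset.mem_Ico] at hn
    obtain ⟨⟨hn1, hn2⟩, hn3⟩ := hn
    refine ⟨by omega, by omega, ?_⟩
    rcases Nat.lt_or_ge (n + t) (P.N (k + 1)) with h2 | h2
    · exact P.sch_sumfree (m := m₀) (P.zone_eq hn1 hn2) hn3 hzm hm₀t (P.zone_eq (by omega) h2) hm₀Q
    · exact P.sch_initial h2 (by omega)) y
  have hbk : ∀ n ∈ R, bk B k n y = B.co (Sum.inl n) y := by
    intro n hn
    rw [hR, Finset.mem_filter, Finset.mem_Ico] at hn
    unfold bk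
    rw [Finset.sum_eq_zero, sub_zero]
    intro l hl
    rw [Finset.mem_range] at hl
    have : P.N l ≤ P.N k := P.N_mono (by omega)
    rw [if_neg (by omega)]
  have h2 : P.W k * ∑ n ∈ R, ‖B.co (Sum.inl n) y‖ ≤ K₂ := by
    have h3 : ∑ n ∈ R, ‖bk B k n y‖ = ∑ n ∈ R, ‖B.co (Sum.inl n) y‖ :=
      Finset.sum_congr rfl (fun n hn => by rw [hbk n hn])
    rw [← h3]
    linarith
  have h3 : P.W k * ∑ n ∈ (Finset.Ico (P.N k) (P.N (k + 1))).filter (fun n => ¬ P.sch n ≠ 0),
      ‖B.co (Sum.inl n) y‖ ≤ ‖y‖ := by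
    rw [Finset.mul_sum]
    have hinj : Set.InjOn (fun n : ℕ => (Sum.inl n : P.Idx))
        ((Finset.Ico (P.N k) (P.N (k + 1))).filter (fun n => ¬ P.sch n ≠ 0) : Set ℕ) :=
      fun a _ b _ hab => Sum.inl_injective hab
    have h4 : ∑ n ∈ (Finset.Ico (P.N k) (P.N (k + 1))).filter (fun n => ¬ P.sch n ≠ 0),
        ‖B.co (Sum.inl n) y‖ * P.cost (Sum.inl n) ≤ ‖y‖ := by
      rw [← Finset.sum_image (g := fun n : ℕ => (Sum.inl n : P.Idx))
        (f := fun i => ‖B.co i y‖ * P.cost i) hinj]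
      exact sum_le_hasSum _ (fun i _ => mul_nonneg (norm_nonneg _) (P.cost_pos i).le)
        (B.hasSum_norm y)
    refine le_trans (Finset.sum_le_sum fun n hn => ?_) h4
    rw [Finset.mem_filter, Finset.mem_Ico] at hn
    obtain ⟨⟨hn1, hn2⟩, hn3⟩ := hn
    have h5 := P.c_wild (n := n) (by simpa using hn3)
    rw [P.zone_eq hn1 hn2] at h5
    rw [mul_comm, Par.cost_inl]
    gcongr
  have h4 : zon B k y = ∑ n ∈ R, ‖B.co (Sum.inl n) y‖ +
      ∑ n ∈ (Finset.Ico (P.N k) (P.N (k + 1))).filter (fun n => ¬ P.sch n ≠ 0),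
      ‖B.co (Sum.inl n) y‖ := by
    unfold zon
    rw [hR, Finset.sum_filter_add_sum_filter_not]
  rw [h4, mul_add]
  have := norm_nonneg y
  linarith

end

end Pool.Agent.FHC
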