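import Mathlib
import Pool.Agent.FHC.Tame

/-!
# A functional with slowly growing values on the orbit
-/

open scoped Topology
open Filter

namespace Pool.Agent.FHC

/-- Bounds for the values of the functional. -/
noncomputable def Bd (k : ℕ) : ℝ := 2 ^ (k * k)

/-- Bounds for the norms of the iterates of the functional. -/
noncomputable def Mb (k : ℕ) : ℝ := 2 ^ ((k + 3) * (k + 3))

lemma Bd_pos (k : ℕ) : 0 < Bd k := by unfold Bd; positivity

lemma one_le_Bd (k : ℕ) : 1 ≤ Bd k := one_le_pow₀ (by norm_num)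

lemma Bd_mono {k l : ℕ} (h : k ≤ l) : Bd k ≤ Bd l :=
  pow_le_pow_right₀ (by norm_num) (Nat.mul_le_mul h h)

lemma Mb_pos (k : ℕ) : 0 < Mb k := by unfold Mb; positivity

lemma one_le_Mb (k : ℕ) : 1 ≤ Mb k := one_le_pow₀ (by norm_num)

lemma Mb_mono {k l : ℕ} (h : k ≤ l) : Mb k ≤ Mb l :=
  pow_le_pow_right₀ (by norm_num) (Nat.mul_le_mul (by omega) (by omega))

lemma Bd_le_Mb (k : ℕ) : Bd k ≤ Mb k :=
  pow_le_pow_right₀ (by norm_num) (Nat.mul_le_mul (by omega) (by omega))

lemma Bd_succ_le_Mb (k : ℕ) : Bd (k + 1) ≤ Mb k :=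
  pow_le_pow_right₀ (by norm_num) (Nat.mul_le_mul (by omega) (by omega))

lemma Bd_mul_le_Mb (k : ℕ) : 4 * Bd (k + 2) * 2 ^ (k + 1) ≤ Mb k := by
  unfold Bd Mb
  have h : (2 : ℝ) ^ (2 + (k + 2) * (k + 2) + (k + 1)) =
      4 * 2 ^ ((k + 2) * (k + 2)) * 2 ^ (k + 1) := by
    have h0 : (2 : ℝ) ^ 2 = 4 := by norm_num
    rw [pow_add, pow_add 2 2, h0]
  rw [← h]
  apply pow_le_pow_right₀ (by norm_num)
  nlinarith

lemma two_pow_mul_Bd {i : ℕ} (hi : 1 ≤ i) : 2 ^ i * Bd (i - 1) ≤ Bd i := by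
  obtain ⟨j, rfl⟩ : ∃ j, i = j + 1 := ⟨i - 1, by omega⟩
  simp only [Nat.add_sub_cancel]
  unfold Bd
  rw [← pow_add]
  apply pow_le_pow_right₀ (by norm_num)
  nlinarith

lemma one_add_Bd {l : ℕ} (hl : 1 ≤ l) : 1 + Bd (l - 1) ≤ Bd l := by
  have h1 := two_pow_mul_Bd hl
  have h2 := one_le_Bd (l - 1)
  have h3 : (2 : ℝ) ≤ 2 ^ l := by
    calc (2 : ℝ) = 2 ^ 1 := by norm_num
      _ ≤ 2 ^ l := pow_le_pow_right₀ (by norm_num) hl
  nlinarith

namespace Par

variable (P : Par)

lemma Mb_mul_le_W (l : ℕ) : Mb l * 2 ^ l ≤ P.W l := by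
  unfold Mb W
  rw [← pow_add]
  apply pow_le_pow_right₀ (by norm_num)
  rcases Nat.eq_zero_or_pos l with rfl | hl
  · have := P.om0
    omega
  · obtain ⟨j, rfl⟩ : ∃ j, l = j + 1 := ⟨l - 1, by omega⟩
    have h1 := P.om_ge j
    have h2 := sq_le_two_pow' (P.sixteen_le_om j)
    have h3 : P.Q j = 2 ^ P.om j := rfl
    have h4 := P.Q_lt_N j
    have h5 := P.N_lt_q j
    have h6 := P.q_lt_om j
    nlinarith

lemma three_N_le (k : ℕ) : 3 * P.N (k + 1) ≤ P.N (k + 2) := by
  have h2 := P.N_lt_om (show k + 1 < k + 2 by omega)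
  have h3 := P.two_om_le_N (k + 2)
  omega

lemma zone_add_le {a b c k : ℕ} (ha : P.zone a ≤ k) (hb : P.zone b ≤ k) (hc : P.zone c ≤ k) :
    P.zone (a + b + c) ≤ k + 1 := by
  have h1 : ∀ {n : ℕ}, P.zone n ≤ k → n < P.N (k + 1) := fun {n} h =>
    (P.zone_lt_iff (by omega)).1 (by omega)
  have h2 := h1 ha
  have h3 := h1 hb
  have h4 := h1 hc
  have h5 := P.three_N_le k
  have := (P.zone_lt_iff (k := k + 2) (n := a + b + c) (by omega)).2 (by omega)
  omega

/-- The level of an index. -/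
def lev : P.Idx → ℕ := Sum.elim P.zone (fun β => β.1)

/-- The position of an index in the orbit. -/
def pos : P.Idx → ℕ := Sum.elim id (fun β => if (β.2 : ℕ) < P.N β.1 then (β.2 : ℕ) else 0)

lemma zone_pos (β : P.Idx) : P.zone (P.pos β) ≤ P.lev β := by
  rcases β with n | ⟨l, m⟩
  · exact le_rfl
  · simp only [pos, lev, Sum.elim_inr]
    split_ifs with h
    · exact P.zone_le_of_lt h
    · rw [P.zone_zero]
      omega

end Par

section

variable {𝕜 E : Type*} [RCLike 𝕜] [NormedAddCommGroup E] [NormedSpace 𝕜 E] {P : Par}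
variable (B : WB 𝕜 E P.Idx P.cost) (u : Tg 𝕜 P)

/-- The functional. -/
noncomputable def zt : E →L[𝕜] 𝕜 := B.co (P.ix 0 (P.N 0))

lemma zt_D_inl (n : ℕ) : zt B (B.D (Sum.inl n)) = 0 := B.co_ne _ _ (P.ix_ne_inl _ _ _)

lemma norm_zt_D_ix (l p : ℕ) : ‖zt B (B.D (P.ix l p))‖ ≤ 1 := by
  unfold zt
  by_cases h : P.ix 0 (P.N 0) = P.ix l p
  · rw [h, B.co_self, norm_one]
  · rw [B.co_ne _ _ h, norm_zero]
    exact zero_le_one

lemma zt_self : zt B (B.D (P.ix 0 (P.N 0))) = 1 := B.co_self _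

lemma ps_zt (v : E) : B.ps {P.ix 0 (P.N 0)} (fun _ => 1) v = ‖zt B v‖ := by
  simp [WB.ps, zt]

lemma omega_le_cost : ∀ i ∈ ({P.ix 0 (P.N 0)} : Finset P.Idx), (fun _ => (1 : ℝ)) i ≤ P.cost i := by
  intro i hi
  rw [Finset.mem_singleton] at hi
  subst hi
  rw [Par.cost_ix, Nat.mod_eq_of_lt (P.N_lt_q 0), P.C_eq_W le_rfl]
  exact P.one_le_W 0

lemma norm_zt_le (v : E) : ‖zt B v‖ ≤ ‖v‖ := by
  rw [← ps_zt]
  exact B.ps_le_norm omega_le_cost v (fun i => (P.cost_pos i).le)

lemma norm_zt_UU_aux {i s : ℕ} (h : ∀ l < i, ∀ p, ‖zt B (XX B u l p)‖ ≤ Bd l) :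
    ‖zt B (UU B u i s)‖ ≤ Bd i := by
  rcases Nat.eq_zero_or_pos i with rfl | hi
  · rw [UU_zero, map_zero, norm_zero]
    exact (Bd_pos 0).le
  · have h0 := Bd_pos (i - 1)
    have h1 := norm_sum_le (E := 𝕜) (u := u) (i := i)
      (f := fun β => zt B (XX B u β.1 (β.2 + s))) (M := Bd (i - 1)) h0.le (by
        intro β hβ
        have h1 := u.supp _ _ hβ
        exact (h β.1 h1 _).trans (Bd_mono (by omega)))
    have h2 : zt B (UU B u i s) = (u.u i).sum fun β a => a • zt B (XX B u β.1 (β.2 + s)) := by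
      rw [UU, Finsupp.sum, map_sum, Finsupp.sum]
      apply Finset.sum_congr rfl
      intro β _
      rw [map_smul]
    rw [h2]
    exact h1.trans (two_pow_mul_Bd hi)

lemma norm_zt_XX (l : ℕ) : ∀ p, ‖zt B (XX B u l p)‖ ≤ Bd l := by
  induction l using Nat.strong_induction_on with
  | _ l ih =>
    intro p
    rw [XX, map_add]
    have h1 := norm_zt_D_ix B l p
    rcases Nat.eq_zero_or_pos l with rfl | hl
    · have h2 : zt B (if p % P.q 0 < P.N 0 then xx B u (p % P.q 0) else 0) = 0 := by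
        split_ifs with h
        · rw [xx_eq, map_add, zt_D_inl, zero_add]
          have h3 : P.zone (p % P.q 0) = 0 := by
            have := P.zone_le_of_lt h
            omega
          rw [P.sch_zone_zero h3, UU_zero, map_zero]
        · rw [map_zero]
      rw [h2, add_zero]
      exact h1.trans (one_le_Bd 0)
    · have h2 : ‖zt B (if p % P.q l < P.N l then xx B u (p % P.q l) else 0)‖ ≤ Bd (l - 1) := by
        split_ifs with h
        · rw [xx_eq, map_add, zt_D_inl, zero_add]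
          have h3 : P.zone (p % P.q l) < l := (P.zone_lt_iff hl).2 h
          have h4 := P.sch_le_zone (p % P.q l)
          exact (norm_zt_UU_aux B u (fun l' hl' p' => ih l' (by omega) p')).trans
            (Bd_mono (by omega))
        · rw [map_zero, norm_zero]
          exact (Bd_pos _).le
      calc _ ≤ ‖zt B (B.D (P.ix l p))‖ +
            ‖zt B (if p % P.q l < P.N l then xx B u (p % P.q l) else 0)‖ := norm_add_le _ _
        _ ≤ 1 + Bd (l - 1) := add_le_add h1 h2
        _ ≤ Bd l := one_add_Bd hl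

lemma norm_zt_UU (i s : ℕ) : ‖zt B (UU B u i s)‖ ≤ Bd i :=
  norm_zt_UU_aux B u (fun l _ p => norm_zt_XX B u l p)

lemma norm_zt_xx (n : ℕ) : ‖zt B (xx B u n)‖ ≤ Bd (P.zone n) := by
  rw [xx_eq, map_add, zt_D_inl, zero_add]
  exact (norm_zt_UU B u _ _).trans (Bd_mono (P.sch_le_zone n))

variable [CompleteSpace E]

/-- The iterates of the functional on the basis vectors. -/
theorem norm_zt_pow_D (m : ℕ) (β : P.Idx) :
    ‖zt B ((TT B u ^ m) (B.D β))‖ ≤ Mb (P.zone m) * P.cost β := by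
  set κ := P.zone m with hκ
  have hm : m < P.N (κ + 1) := P.lt_N_zone_succ m
  have hMb1 := one_le_Mb κ
  have hcostpos := P.cost_pos β
  rcases β with n | ⟨l, m'⟩
  · rw [TT_pow_inl, map_add, zt_D_inl, zero_add]
    simp only [Par.cost_inl] at hcostpos ⊢
    rcases Nat.lt_or_ge (κ + 1) (P.zone n) with hz | hz
    · have h1 : P.N (κ + 1) < P.q (P.zone n - 1) :=
        (P.N_lt_q (κ + 1)).trans_le (P.q_mono (by omega))
      have h2 := err_inl B u (n := n) (t := m) (by omega) (by omega)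
      calc _ ≤ _ := norm_zt_le B _
        _ ≤ P.c n := h2
        _ ≤ Mb κ * P.c n := le_mul_of_one_le_left hcostpos.le hMb1
    · have h1 : P.zone (n + m) ≤ κ + 2 := by
        have := P.zone_add_le (a := n) (b := m) (c := 0) (k := κ + 1) hz (by omega)
          (by rw [P.zone_zero]; omega)
        simpa using this
      have h2 := P.sch_le_zone (n + m)
      have h3 := P.sch_le_zone n
      have e1 : ‖zt B (UU B u (P.sch (n + m)) (n + m))‖ ≤ Bd (κ + 2) :=
        (norm_zt_UU B u _ _).trans (Bd_mono (by omega))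
      have e2 : ‖zt B (UU B u (P.sch n) (n + m))‖ ≤ Bd (κ + 2) :=
        (norm_zt_UU B u _ _).trans (Bd_mono (by omega))
      have e3 : (1 / 2 : ℝ) ^ (κ + 1) ≤ P.c n :=
        (pow_le_pow_of_le_one (by norm_num) (by norm_num) hz).trans (P.c_ge_min n)
      have e4 := Bd_mul_le_Mb κ
      have e5 : Bd (κ + 2) = Bd (κ + 2) * 2 ^ (κ + 1) * (1 / 2) ^ (κ + 1) := by
        rw [mul_assoc, ← mul_pow]
        norm_num
      have e6 := Bd_pos (κ + 2)
      rw [map_sub]
      calc _ ≤ ‖zt B (UU B u (P.sch (n + m)) (n + m))‖ + ‖zt B (UU B u (P.sch n) (n + m))‖ :=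
            norm_sub_le _ _
        _ ≤ 4 * Bd (κ + 2) := by linarith
        _ = 4 * Bd (κ + 2) * 2 ^ (κ + 1) * (1 / 2) ^ (κ + 1) := by linarith [e5]
        _ ≤ Mb κ * P.c n := by gcongr
  · have hix : (Sum.inr ⟨l, m'⟩ : P.Idx) = P.ix l m' := (P.ix_fin ⟨l, m'⟩).symm
    rw [hix] at hcostpos ⊢
    rw [Par.cost_ix] at hcostpos ⊢
    rcases Nat.lt_or_ge (κ + 1) l with hz | hz
    · have h1 : P.N (κ + 1) < P.q (l - 1) :=
        (P.N_lt_q (κ + 1)).trans_le (P.q_mono (by omega))
      have h2 := err_ix B u (F := {P.ix 0 (P.N 0)}) (ω := fun _ => 1)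
        (fun _ _ => zero_le_one) omega_le_cost (l := l) (t := m) (by omega) (by omega)
        (by
          intro s
          rw [ps_zt, zt_D_inl, norm_zero]
          exact (P.V_pos l).le)
        (by
          intro p
          rw [ps_zt, norm_eq_zero]
          apply B.co_ne
          intro he
          have := (P.ix_inj he).1
          omega) m'
      rw [ps_zt] at h2
      exact h2.trans (le_mul_of_one_le_left hcostpos.le hMb1)
    · rw [TT_pow_ix, map_add, map_sub]
      have e1 := norm_zt_D_ix B l (m' + m)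
      have e2 : ‖zt B (if (m' + m) % P.q l < P.N l then xx B u ((m' + m) % P.q l) else 0)‖ ≤
          Bd (κ + 2) := by
        split_ifs with h
        · have := P.zone_le_of_lt h
          exact (norm_zt_xx B u _).trans (Bd_mono (by omega))
        · rw [map_zero, norm_zero]
          exact (Bd_pos _).le
      have e3 : ‖zt B (if (m' : ℕ) % P.q l < P.N l then xx B u (m' % P.q l + m) else 0)‖ ≤
          Bd (κ + 2) := by
        split_ifs with h
        · have h1 := P.zone_le_of_lt h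
          have := P.zone_add_le (a := m' % P.q l) (b := m) (c := 0) (k := κ + 1) (by omega)
            (by omega) (by rw [P.zone_zero]; omega)
          simp only [add_zero] at this
          exact (norm_zt_xx B u _).trans (Bd_mono this)
        · rw [map_zero, norm_zero]
          exact (Bd_pos _).le
      have e4 : (1 / 2 : ℝ) ^ (κ + 1) ≤ P.C l (m' % P.q l) :=
        (pow_le_pow_of_le_one (by norm_num) (by norm_num) hz).trans (P.C_ge_min l _)
      have e5 := Bd_mul_le_Mb κ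
      have e6 : Bd (κ + 2) = Bd (κ + 2) * 2 ^ (κ + 1) * (1 / 2) ^ (κ + 1) := by
        rw [mul_assoc, ← mul_pow]
        norm_num
      have e7 := one_le_Bd (κ + 2)
      calc _ ≤ ‖zt B (B.D (P.ix l (m' + m)))‖ +
            ‖zt B (if (m' + m) % P.q l < P.N l then xx B u ((m' + m) % P.q l) else 0) -
            zt B (if (m' : ℕ) % P.q l < P.N l then xx B u (m' % P.q l + m) else 0)‖ :=
            norm_add_le _ _
        _ ≤ ‖zt B (B.D (P.ix l (m' + m)))‖ +
            (‖zt B (if (m' + m) % P.q l < P.N l then xx B u ((m' + m) % P.q l) else 0)‖ +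
            ‖zt B (if (m' : ℕ) % P.q l < P.N l then xx B u (m' % P.q l + m) else 0)‖) := by
            gcongr
            exact norm_sub_le _ _
        _ ≤ 4 * Bd (κ + 2) := by linarith
        _ = 4 * Bd (κ + 2) * 2 ^ (κ + 1) * (1 / 2) ^ (κ + 1) := by linarith [e6]
        _ ≤ Mb κ * P.C l (m' % P.q l) := by gcongr

/-- The norms of the iterates of the functional. -/
theorem norm_zt_pow (m : ℕ) (v : E) : ‖zt B ((TT B u ^ m) v)‖ ≤ Mb (P.zone m) * ‖v‖ := by
  have h1 : HasSum (fun i => B.co i v * zt B ((TT B u ^ m) (B.D i))) (zt B ((TT B u ^ m) v)) := by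
    have := ((zt B).comp (TT B u ^ m)).hasSum (B.hasSum v)
    simpa [map_smul] using this
  have h2 : HasSum (fun i => Mb (P.zone m) * (‖B.co i v‖ * P.cost i)) (Mb (P.zone m) * ‖v‖) :=
    (B.hasSum_norm v).mul_left _
  rw [← h1.tsum_eq]
  apply tsum_of_norm_bounded h2
  intro i
  rw [norm_mul]
  calc ‖B.co i v‖ * ‖zt B ((TT B u ^ m) (B.D i))‖ ≤ ‖B.co i v‖ * (Mb (P.zone m) * P.cost i) := by
        gcongr
        exact norm_zt_pow_D B u m i
    _ = _ := by ring

end

end Pool.Agent.FHC
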