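import Mathlib
import Pool.Agent.FHC.Abs
import Pool.Agent.FHC.Func

/-!
# Orbits of pairs of vectors with frequent returns are not dense
-/

open scoped Topology
open Filter

namespace Pool.Agent.FHC

section

variable {𝕜 E : Type*} [RCLike 𝕜] [NormedAddCommGroup E] [NormedSpace 𝕜 E] {P : Par}
variable (B : WB 𝕜 E P.Idx P.cost) (u : Tg 𝕜 P)

/-- The weights of the positions. -/
noncomputable def wt (y : E) : P.Idx → 𝕜 :=
  Sum.elim (fun n => B.co (Sum.inl n) y)
    (fun β => if (β.2 : ℕ) < P.N β.1 then - B.co (Sum.inr β) y else 0)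

lemma norm_wt_le (y : E) (β : P.Idx) : ‖wt B y β‖ ≤ ‖B.co β y‖ := by
  rcases β with n | β
  · exact le_rfl
  · simp only [wt, Sum.elim_inr]
    split_ifs
    · rw [norm_neg]
    · rw [norm_zero]; exact norm_nonneg _

/-- A bound by a geometric sequence. -/
lemma mul_Mb_le {a K : ℝ} {l : ℕ} (ha : 0 ≤ a) (hK : P.W l * a ≤ K) :
    a * Mb l ≤ K * (1 / 2) ^ l := by
  have h1 := P.Mb_mul_le_W l
  have h2 : a * Mb l * 2 ^ l ≤ K := by
    calc a * Mb l * 2 ^ l = (Mb l * 2 ^ l) * a := by ring
      _ ≤ P.W l * a := by gcongr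
      _ ≤ K := hK
  rw [one_div, inv_pow, ← div_eq_mul_inv, le_div_iff₀ (by positivity)]
  exact h2

lemma summable_of_geom {f : ℕ → ℝ} (hf : ∀ l, 0 ≤ f l) {K : ℝ} {l₀ : ℕ}
    (h : ∀ l ≥ l₀, f l ≤ K * (1 / 2) ^ l) : Summable f := by
  have h1 : Summable (fun l => K * (1 / 2 : ℝ) ^ l) :=
    (summable_geometric_of_lt_one (by norm_num) (by norm_num)).mul_left K
  rw [← summable_nat_add_iff l₀]
  exact Summable.of_nonneg_of_le (fun l => hf _) (fun l => h _ (by omega))
    ((summable_nat_add_iff l₀).2 h1)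

/-- Splitting a sum into zones. -/
lemma sum_zones (f : ℕ → ℝ) (K : ℕ) :
    ∑ n ∈ Finset.range (P.N K), f n * Mb (P.zone n) =
      ∑ n ∈ Finset.range (P.N 0), f n * Mb (P.zone n) +
        ∑ k ∈ Finset.range K, (∑ n ∈ Finset.Ico (P.N k) (P.N (k + 1)), f n) * Mb k := by
  induction K with
  | zero => simp
  | succ K ih =>
    rw [Finset.sum_range_succ, ← add_assoc, ← ih]
    have h1 : P.N K ≤ P.N (K + 1) := P.N_mono (Nat.le_succ K)
    rw [← Finset.sum_range_add_sum_Ico _ h1]
    congr 1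
    rw [Finset.sum_mul]
    apply Finset.sum_congr rfl
    intro n hn
    rw [Finset.mem_Ico] at hn
    rw [P.zone_eq hn.1 hn.2]

/-- Tame vectors have rapidly decreasing coordinates. -/
theorem summable_of_tame {y : E} (hy : Tame B y) :
    Summable (fun β : P.Idx => ‖B.co β y‖ * Mb (P.lev β)) := by
  obtain ⟨K, hK, l₀, h⟩ := hy
  apply Summable.sum
  · -- the orbit part
    have hz : Summable (fun k => zon B k y * Mb k) :=
      summable_of_geom (fun l => mul_nonneg (zon_nonneg B l y) (Mb_pos l).le)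
        (fun l hl => mul_Mb_le (zon_nonneg B l y) (h l hl).2)
    have hnn : ∀ n : ℕ, 0 ≤ ‖B.co (Sum.inl n) y‖ * Mb (P.zone n) := fun n =>
      mul_nonneg (norm_nonneg _) (Mb_pos _).le
    apply summable_of_sum_range_le (c := ∑ n ∈ Finset.range (P.N 0),
      ‖B.co (Sum.inl n) y‖ * Mb (P.zone n) + ∑' k, zon B k y * Mb k) hnn
    intro n
    have h1 : n ≤ P.N n := (P.lt_N n).le
    calc ∑ i ∈ Finset.range n, ‖B.co (Sum.inl i) y‖ * Mb (P.zone i)
        ≤ ∑ i ∈ Finset.range (P.N n), ‖B.co (Sum.inl i) y‖ * Mb (P.zone i) := by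
          apply Finset.sum_le_sum_of_subset_of_nonneg
          · exact Finset.range_subset_range.2 h1
          · intro i _ _
            exact hnn i
      _ = ∑ n ∈ Finset.range (P.N 0), ‖B.co (Sum.inl n) y‖ * Mb (P.zone n) +
          ∑ k ∈ Finset.range n, zon B k y * Mb k :=
          sum_zones (fun i => ‖B.co (Sum.inl i) y‖) n
      _ ≤ _ := by
          gcongr
          exact hz.sum_le_tsum _ (fun k _ => mul_nonneg (zon_nonneg B k y) (Mb_pos k).le)
  · -- the block part
    have hb : Summable (fun l => blk B l y * Mb l) :=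
      summable_of_geom (fun l => mul_nonneg (blk_nonneg B l y) (Mb_pos l).le)
        (fun l hl => mul_Mb_le (blk_nonneg B l y) (h l hl).1)
    have hnn : ∀ β : (Σ l : ℕ, Fin (P.q l)), 0 ≤ ‖B.co (Sum.inr β) y‖ * Mb β.1 := fun β =>
      mul_nonneg (norm_nonneg _) (Mb_pos _).le
    have h2 : Summable (fun β : (Σ l : ℕ, Fin (P.q l)) => ‖B.co (Sum.inr β) y‖ * Mb β.1) := by
      rw [summable_sigma_of_nonneg hnn]
      refine ⟨fun l => Summable.of_finite, ?_⟩
      convert hb using 2 with l
      rw [tsum_fintype, blk, Finset.sum_mul]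
    exact h2

variable [CompleteSpace E]

/-- The error term. -/
lemma norm_err_le (t : ℕ) (y : E) (β : P.Idx) :
    ‖B.co β y * zt B ((TT B u ^ t) (B.D β)) -
      wt B y β * zt B (xx B u (P.pos β + t))‖ ≤ ‖B.co β y‖ * Mb (P.lev β) := by
  rcases β with n | ⟨l, m⟩
  · have h1 : B.D (Sum.inl n) = xx B u n - UU B u (P.sch n) n := by
      rw [xx_eq, add_sub_cancel_right]
    rw [h1, map_sub, TT_pow_xx, TT_pow_UU, map_sub]
    have h2 : B.co (Sum.inl n) y * (zt B (xx B u (n + t)) - zt B (UU B u (P.sch n) (n + t))) -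
        wt B y (Sum.inl n) * zt B (xx B u (P.pos (Sum.inl n) + t)) =
        - (B.co (Sum.inl n) y * zt B (UU B u (P.sch n) (n + t))) := by
      simp only [wt, Sum.elim_inl, Par.pos, id]
      ring
    rw [h2, norm_neg, norm_mul]
    gcongr
    calc _ ≤ Bd (P.sch n) := norm_zt_UU B u _ _
      _ ≤ Bd (P.zone n) := Bd_mono (P.sch_le_zone n)
      _ ≤ Mb (P.zone n) := Bd_le_Mb _
  · have hix : (Sum.inr ⟨l, m⟩ : P.Idx) = P.ix l m := (P.ix_fin ⟨l, m⟩).symm
    have hm : (m : ℕ) % P.q l = m := Nat.mod_eq_of_lt m.2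
    have h1 : B.D (Sum.inr ⟨l, m⟩) = XX B u l m - if (m : ℕ) < P.N l then xx B u m else 0 := by
      rw [hix, XX, hm, add_sub_cancel_right]
    have h3 : ‖zt B (XX B u l (m + t))‖ ≤ Mb l := (norm_zt_XX B u _ _).trans (Bd_le_Mb l)
    rw [h1, map_sub, TT_pow_XX, map_sub]
    simp only [wt, Sum.elim_inr, Par.pos, Par.lev]
    by_cases h : (m : ℕ) < P.N l
    · rw [if_pos h, if_pos h, if_pos h, TT_pow_xx]
      have h2 : B.co (Sum.inr ⟨l, m⟩) y * (zt B (XX B u l (m + t)) - zt B (xx B u (m + t))) -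
          -B.co (Sum.inr ⟨l, m⟩) y * zt B (xx B u (m + t)) =
          B.co (Sum.inr ⟨l, m⟩) y * zt B (XX B u l (m + t)) := by ring
      rw [h2, norm_mul]
      gcongr
    · rw [if_neg h, if_neg h, map_zero, map_zero, sub_zero, zero_mul, sub_zero, norm_mul]
      gcongr

/-- **The obstruction.** -/
theorem not_dense_pair {y z : E} (hy : Dens B u y) (hz : Dens B u z) :
    ¬ Dense (Set.range fun t : ℕ => ((TT B u ^ t) y, (TT B u ^ t) z)) := by
  intro hd
  have sy := summable_of_tame B (tame_of_dens B u hy)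
  have sz := summable_of_tame B (tame_of_dens B u hz)
  have hpsi : ∀ (m : ℕ), zt B ((TT B u ^ m) (xx B u 0)) = zt B (xx B u m) := by
    intro m
    rw [TT_pow_xx, zero_add]
  have hwt : ∀ v : E, Summable (fun β : P.Idx => ‖B.co β v‖ * Mb (P.lev β)) →
      Summable (fun β : P.Idx => ‖wt B v β‖ * Mb (P.lev β)) := by
    intro v hv
    apply Summable.of_nonneg_of_le (fun β => mul_nonneg (norm_nonneg _) (Mb_pos _).le) _ hv
    intro β
    exact mul_le_mul_of_nonneg_right (norm_wt_le B v β) (Mb_pos _).le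
  have hvals : ∀ (k a b c : ℕ), P.zone a ≤ k → P.zone b ≤ k → P.zone c ≤ k →
      ‖zt B (xx B u (a + b + c))‖ ≤ Mb k := by
    intro k a b c ha hb hc
    calc _ ≤ _ := norm_zt_xx B u _
      _ ≤ Bd (k + 1) := Bd_mono (P.zone_add_le ha hb hc)
      _ ≤ Mb k := Bd_succ_le_Mb k
  have h2 : ∀ (β γ : P.Idx) (t : ℕ), ‖zt B (xx B u (P.pos β + P.pos γ + t))‖ ≤
      Mb (P.lev β) * Mb (P.lev γ) * Mb (P.zone t) := by
    intro β γ t
    have hb := P.zone_pos β
    have hg := P.zone_pos γ
    have e1 := one_le_Mb (P.lev β)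
    have e2 := one_le_Mb (P.lev γ)
    have e3 := one_le_Mb (P.zone t)
    have e4 : 1 ≤ Mb (P.lev β) * Mb (P.lev γ) := one_le_mul_of_one_le_of_one_le e1 e2
    rcases le_total (P.lev β) (P.lev γ) with g1 | g1
    · rcases le_total (P.lev γ) (P.zone t) with g2 | g2
      · refine (hvals (P.zone t) _ _ _ (by omega) (by omega) (by omega)).trans ?_
        exact le_mul_of_one_le_left (Mb_pos _).le e4
      · refine (hvals (P.lev γ) _ _ _ (by omega) (by omega) (by omega)).trans ?_
        calc Mb (P.lev γ) = 1 * Mb (P.lev γ) * 1 := by ring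
          _ ≤ _ := by gcongr
    · rcases le_total (P.lev β) (P.zone t) with g2 | g2
      · refine (hvals (P.zone t) _ _ _ (by omega) (by omega) (by omega)).trans ?_
        exact le_mul_of_one_le_left (Mb_pos _).le e4
      · refine (hvals (P.lev β) _ _ _ (by omega) (by omega) (by omega)).trans ?_
        calc Mb (P.lev β) = Mb (P.lev β) * 1 * 1 := by ring
          _ ≤ _ := by
            have := (Mb_pos (P.lev β)).le
            gcongr
  have herr : ∀ v : E, Summable (fun β : P.Idx => ‖B.co β v‖ * Mb (P.lev β)) → ∀ t : ℕ,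
      ‖zt B ((TT B u ^ t) v) - ∑' β : P.Idx, wt B v β * zt B ((TT B u ^ (P.pos β + t)) (xx B u 0))‖ ≤
        ∑' β : P.Idx, ‖B.co β v‖ * Mb (P.lev β) := by
    intro v hv t
    have e1 : HasSum (fun i => B.co i v * zt B ((TT B u ^ t) (B.D i)))
        (zt B ((TT B u ^ t) v)) := by
      have := ((zt B).comp (TT B u ^ t)).hasSum (B.hasSum v)
      simpa [map_smul] using this
    have e2 : Summable (fun β : P.Idx =>
        wt B v β * zt B ((TT B u ^ (P.pos β + t)) (xx B u 0))) := by
      apply Summable.of_norm_bounded ((hwt v hv).mul_right (Mb 0 * Mb (P.zone t)))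
      intro β
      rw [norm_mul, mul_assoc]
      gcongr
      rw [hpsi]
      rcases le_total (P.lev β) (P.zone t) with g | g
      · have := hvals (P.zone t) (P.pos β) t 0 ((P.zone_pos β).trans g) le_rfl
          (by rw [P.zone_zero]; omega)
        rw [add_zero] at this
        refine this.trans ?_
        have g1 := one_le_Mb (P.lev β)
        have g2 := one_le_Mb 0
        have g3 := (Mb_pos (P.zone t)).le
        calc Mb (P.zone t) = 1 * (1 * Mb (P.zone t)) := by ring
          _ ≤ _ := by gcongr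
      · have := hvals (P.lev β) (P.pos β) t 0 (P.zone_pos β) g (by rw [P.zone_zero]; omega)
        rw [add_zero] at this
        refine this.trans ?_
        have g1 := (Mb_pos (P.lev β)).le
        have g2 := one_le_Mb 0
        have g3 := one_le_Mb (P.zone t)
        exact le_mul_of_one_le_right g1 (one_le_mul_of_one_le_of_one_le g2 g3)
    have e3 := e1.sub e2.hasSum
    rw [← e3.tsum_eq]
    apply tsum_of_norm_bounded hv.hasSum
    intro β
    rw [hpsi]
    exact norm_err_le B u t v β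
  refine abs_obstruction (TT B u) (zt B) (e := B.D (P.ix 0 (P.N 0))) (by
    rw [zt_self]; exact one_ne_zero) (xx B u 0) P.pos (fun β => Mb (P.lev β))
    (fun t => Mb (P.zone t)) (fun β => one_le_Mb _) ?_ ?_ y z (wt B y) (wt B z) (hwt y sy)
    (hwt z sz) _ _ (herr y sy) (herr z sz) hd
  · intro β v
    refine (norm_zt_pow B u _ v).trans ?_
    have := Mb_mono (P.zone_pos β)
    gcongr
  · intro β γ t
    rw [hpsi]
    exact h2 β γ t

end

end Pool.Agent.FHC
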