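import Mathlib
import Pool.Agent.FHC.Obstr
import Pool.Agent.FHC.Density

/-!
# Assembly
-/

open scoped Topology
open Filter

namespace Pool.Agent.FHC

section

variable {𝕜 E : Type*} [RCLike 𝕜] [NormedAddCommGroup E] [NormedSpace 𝕜 E] {P : Par}
variable (B : WB 𝕜 E P.Idx P.cost) (u : Tg 𝕜 P) [CompleteSpace E]

lemma coe_iterate (T : E →L[𝕜] E) (n : ℕ) (v : E) : (⇑T)^[n] v = (T ^ n) v := by
  induction n with
  | zero => simp
  | succ n ih =>
    rw [Function.iterate_succ_apply', ih, pow_succ']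
    rfl

lemma prodMap_iterate (T : E →L[𝕜] E) (n : ℕ) (v : E × E) :
    (⇑(T.prodMap T))^[n] v = ((T ^ n) v.1, (T ^ n) v.2) := by
  induction n with
  | zero => simp
  | succ n ih =>
    rw [Function.iterate_succ_apply', ih, pow_succ']
    rfl

/-- `x` is frequently hypercyclic. -/
theorem fhc_xx
    (hvis : ∀ i : ℕ, 1 ≤ i → ∃ δ : ℝ, 0 < δ ∧ ∃ n₀ : ℕ, ∀ n ≥ n₀, δ * n ≤
      ((Finset.range n).filter
        (fun m => P.sch m = i ∧ P.q (i - 1) ∣ m ∧ P.c m ≤ (1 / 2) ^ i)).card)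
    (htg : ∀ (v : E) (ε : ℝ), 0 < ε → ∃ i, 1 ≤ i ∧ ‖UU B u i 0 - v‖ < ε ∧ (1 / 2 : ℝ) ^ i < ε) :
    IsFHCVector (TT B u) (xx B u 0) := by
  classical
  intro U hU hne
  obtain ⟨v, hv⟩ := hne
  obtain ⟨ε, hε, hball⟩ := Metric.isOpen_iff.1 hU v hv
  obtain ⟨i, hi, h1, h2⟩ := htg v (ε / 2) (by positivity)
  obtain ⟨δ, hδ, n₀, hn₀⟩ := hvis i hi
  apply lowerDensity_pos hδ (n₀ := n₀)
  intro n hn
  refine (hn₀ n hn).trans ?_
  have hsub : (Finset.range n).filter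
      (fun m => P.sch m = i ∧ P.q (i - 1) ∣ m ∧ P.c m ≤ (1 / 2) ^ i) ⊆
      (Finset.range n).filter (· ∈ {m : ℕ | (⇑(TT B u))^[m] (xx B u 0) ∈ U}) := by
    intro m hm
    rw [Finset.mem_filter] at hm ⊢
    obtain ⟨hm1, hm2, hm3, hm4⟩ := hm
    refine ⟨hm1, ?_⟩
    rw [Set.mem_setOf_eq, coe_iterate, TT_pow_xx, zero_add]
    apply hball
    rw [Metric.mem_ball, dist_eq_norm, xx_eq, hm2]
    have h3 : UU B u i m = UU B u i 0 := UU_period B u (fun l hl =>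
      (P.q_dvd_q (by omega)).trans hm3)
    rw [h3]
    have h4 : ‖B.D (Sum.inl m)‖ = P.c m := B.norm_D _
    calc ‖B.D (Sum.inl m) + UU B u i 0 - v‖ = ‖B.D (Sum.inl m) + (UU B u i 0 - v)‖ := by
          rw [add_sub_assoc]
      _ ≤ ‖B.D (Sum.inl m)‖ + ‖UU B u i 0 - v‖ := norm_add_le _ _
      _ < ε := by
          rw [h4]
          have : P.c m < ε / 2 := hm4.trans_lt h2
          linarith
  exact_mod_cast Finset.card_le_card hsub

/-- The direct sum is not frequently hypercyclic. -/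
theorem not_fhc_prod : ¬ FrequentlyHypercyclic ((TT B u).prodMap (TT B u)) := by
  classical
  rintro ⟨⟨y, z⟩, h⟩
  have hU : ∀ U : Set (E × E), IsOpen U → U.Nonempty → ∃ δ : ℝ, 0 < δ ∧ ∃ n₀ : ℕ, ∀ n ≥ n₀,
      δ * n ≤ ((Finset.range n).filter
        (fun t => ((TT B u ^ t) y, (TT B u ^ t) z) ∈ U)).card := by
    intro U hU hne
    obtain ⟨δ, hδ, n₀, hn₀⟩ := exists_of_lowerDensity_pos (h U hU hne)
    refine ⟨δ, hδ, n₀, fun n hn => (hn₀ n hn).trans ?_⟩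
    have hsub : (Finset.range n).filter (· ∈ {t : ℕ | (⇑((TT B u).prodMap (TT B u)))^[t] (y, z) ∈ U}) ⊆
        (Finset.range n).filter (fun t => ((TT B u ^ t) y, (TT B u ^ t) z) ∈ U) := by
      intro t ht
      rw [Finset.mem_filter] at ht ⊢
      obtain ⟨ht1, ht2⟩ := ht
      refine ⟨ht1, ?_⟩
      rw [Set.mem_setOf_eq, prodMap_iterate] at ht2
      exact ht2
    exact_mod_cast Finset.card_le_card hsub
  have hy : Dens B u y := by
    obtain ⟨δ, hδ, n₀, hn₀⟩ := hU {p | ‖p.1‖ < 1} (isOpen_lt (by fun_prop) continuous_const)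
      ⟨0, by simp⟩
    refine ⟨δ, hδ, n₀, fun n hn => ?_⟩
    convert hn₀ n hn
    rfl
  have hz : Dens B u z := by
    obtain ⟨δ, hδ, n₀, hn₀⟩ := hU {p | ‖p.2‖ < 1} (isOpen_lt (by fun_prop) continuous_const)
      ⟨0, by simp⟩
    refine ⟨δ, hδ, n₀, fun n hn => ?_⟩
    convert hn₀ n hn
    rfl
  refine not_dense_pair B u hy hz ?_
  rw [dense_iff_inter_open]
  intro U hUo hne
  obtain ⟨δ, hδ, n₀, hn₀⟩ := hU U hUo hne
  have h1 := hn₀ (max n₀ 1) (le_max_left _ _)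
  have h2 : (0 : ℝ) < ((max n₀ 1 : ℕ) : ℝ) := by
    have : 0 < max n₀ 1 := by omega
    exact_mod_cast this
  have h3 : (0 : ℝ) < ((Finset.range (max n₀ 1)).filter
        (fun t => ((TT B u ^ t) y, (TT B u ^ t) z) ∈ U)).card :=
    (mul_pos hδ h2).trans_le h1
  have h4 : 0 < ((Finset.range (max n₀ 1)).filter
        (fun t => ((TT B u ^ t) y, (TT B u ^ t) z) ∈ U)).card := by exact_mod_cast h3
  obtain ⟨t, ht⟩ := Finset.card_pos.1 h4
  exact ⟨_, (Finset.mem_filter.1 ht).2, ⟨t, rfl⟩⟩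

end

end Pool.Agent.FHC
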