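import Mathlib
import Pool.Agent.FHC.Supp

/-!
# The targets
-/

open scoped Topology
open Filter

namespace Pool.Agent.FHC

/-- A pair of rational numbers as a scalar. -/
noncomputable def cnv (𝕜 : Type*) [RCLike 𝕜] (p : ℚ × ℚ) : 𝕜 :=
  ((p.1 : ℚ) : 𝕜) + ((p.2 : ℚ) : 𝕜) * RCLike.I

@[simp] lemma cnv_zero (𝕜 : Type*) [RCLike 𝕜] : cnv 𝕜 0 = 0 := by simp [cnv]

lemma exists_cnv (𝕜 : Type*) [RCLike 𝕜] (z : 𝕜) {δ : ℝ} (hδ : 0 < δ) :
    ∃ p : ℚ × ℚ, ‖z - cnv 𝕜 p‖ < δ := by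
  obtain ⟨a, ha1, ha2⟩ := exists_rat_btwn (show RCLike.re z - δ / 2 < RCLike.re z by linarith)
  obtain ⟨b, hb1, hb2⟩ := exists_rat_btwn (show RCLike.im z - δ / 2 < RCLike.im z by linarith)
  refine ⟨(a, b), ?_⟩
  have h0 : ((a : ℚ) : 𝕜) = ((a : ℝ) : 𝕜) := by norm_cast
  have h0' : ((b : ℚ) : 𝕜) = ((b : ℝ) : 𝕜) := by norm_cast
  have h1 : z - cnv 𝕜 (a, b) = ((RCLike.re z - a : ℝ) : 𝕜) +
      ((RCLike.im z - b : ℝ) : 𝕜) * RCLike.I := by
    have h := (RCLike.re_add_im z).symm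
    unfold cnv
    simp only
    rw [h0, h0']
    push_cast
    linear_combination h
  rw [h1]
  have h2 : ‖((RCLike.re z - a : ℝ) : 𝕜)‖ < δ / 2 := by
    rw [RCLike.norm_ofReal, abs_lt]
    constructor <;> linarith
  have h3 : ‖((RCLike.im z - b : ℝ) : 𝕜) * RCLike.I‖ < δ / 2 := by
    rw [norm_mul]
    have h4 : ‖(RCLike.I : 𝕜)‖ ≤ 1 := by
      rcases eq_or_ne (RCLike.I : 𝕜) 0 with h | h
      · rw [h, norm_zero]; exact zero_le_one
      · rw [RCLike.norm_I_of_ne_zero h]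
    have h5 : ‖((RCLike.im z - b : ℝ) : 𝕜)‖ < δ / 2 := by
      rw [RCLike.norm_ofReal, abs_lt]
      constructor <;> linarith
    calc _ ≤ ‖((RCLike.im z - b : ℝ) : 𝕜)‖ * 1 := by gcongr
      _ < δ / 2 := by rw [mul_one]; exact h5
  calc _ ≤ _ := norm_add_le _ _
    _ < δ := by linarith

/-- Existence of a system of targets. -/
theorem exists_tg (𝕜 : Type*) [RCLike 𝕜] (P : Par) : ∃ u : Tg 𝕜 P,
    ∀ f : (Σ l : ℕ, Fin (P.q l)) →₀ ℚ × ℚ, ∀ i₀ : ℕ, ∃ i ≥ i₀, ∀ β, u.u i β = cnv 𝕜 (f β) := by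
  classical
  obtain ⟨s, hs⟩ := exists_surjective_nat (((Σ l : ℕ, Fin (P.q l)) →₀ ℚ × ℚ) × ℕ)
  set g : ℕ → ((Σ l : ℕ, Fin (P.q l)) →₀ 𝕜) := fun i =>
    Finsupp.mapRange (cnv 𝕜) (cnv_zero 𝕜) (s i).1 with hg
  set ok : ℕ → Prop := fun i => i ≠ 0 ∧ (∀ β ∈ (g i).support, β.1 < i) ∧
    ((g i).sum fun _ a => ‖a‖) ≤ 2 ^ i with hok
  refine ⟨⟨fun i => if ok i then g i else 0, ?_, ?_, ?_⟩, ?_⟩
  · rw [if_neg]
    rw [hok]
    simp
  · intro i β hβ
    by_cases h : ok i
    · rw [if_pos h] at hβ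
      exact h.2.1 β hβ
    · rw [if_neg h] at hβ
      simp at hβ
  · intro i
    by_cases h : ok i
    · rw [if_pos h]
      exact h.2.2
    · rw [if_neg h, Finsupp.sum_zero_index]
      positivity
  · intro f i₀
    set f' : (Σ l : ℕ, Fin (P.q l)) →₀ 𝕜 := Finsupp.mapRange (cnv 𝕜) (cnv_zero 𝕜) f with hf'
    obtain ⟨n₁, hn₁⟩ := exists_nat_gt (f'.sum fun _ a => ‖a‖)
    set n₂ := f'.support.sup (fun β => β.1) with hn₂
    have hinf : ∃ i ≥ max i₀ (max (n₁ + 1) (n₂ + 1)), (s i).1 = f := by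
      by_contra hcon
      push Not at hcon
      set m := max i₀ (max (n₁ + 1) (n₂ + 1))
      choose t ht using fun j : ℕ => hs (f, j)
      have ht' : ∀ j, t j < m := by
        intro j
        by_contra h
        exact hcon (t j) (not_lt.1 h) (by rw [ht])
      have hinj : Function.Injective (fun j : ℕ => (⟨t j, ht' j⟩ : Fin m)) := by
        intro a b hab
        have h1 : t a = t b := by simpa using hab
        have h2 : (f, a) = (f, b) := by rw [← ht a, ← ht b, h1]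
        exact (Prod.mk.inj h2).2
      exact not_injective_infinite_finite _ hinj
    obtain ⟨i, hi, hsi⟩ := hinf
    have hgi : g i = f' := by rw [hg, hf']; simp only; rw [hsi]
    refine ⟨i, (le_max_left _ _).trans hi, ?_⟩
    have hoki : ok i := by
      refine ⟨?_, ?_, ?_⟩
      · have : n₁ + 1 ≤ i := (le_max_left _ _).trans ((le_max_right _ _).trans hi)
        omega
      · intro β hβ
        rw [hgi] at hβ
        have h1 : β.1 ≤ n₂ := Finset.le_sup (f := fun β : (Σ l : ℕ, Fin (P.q l)) => β.1) hβ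
        have : n₂ + 1 ≤ i := (le_max_right _ _).trans ((le_max_right _ _).trans hi)
        omega
      · rw [hgi]
        have h1 : n₁ + 1 ≤ i := (le_max_left _ _).trans ((le_max_right _ _).trans hi)
        have h2 : n₁ ≤ 2 ^ i := (by omega : n₁ ≤ i).trans Nat.lt_two_pow_self.le
        have h3 : (n₁ : ℝ) ≤ 2 ^ i := by exact_mod_cast h2
        exact hn₁.le.trans h3
    intro β
    simp only
    rw [if_pos hoki, hgi, hf', Finsupp.mapRange_apply]

section

variable {𝕜 E : Type*} [RCLike 𝕜] [NormedAddCommGroup E] [NormedSpace 𝕜 E] {P : Par}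
variable (B : WB 𝕜 E P.Idx P.cost) (u : Tg 𝕜 P)

/-- Finite combinations of the periodic vectors. -/
noncomputable def Lc : ((Σ l : ℕ, Fin (P.q l)) →₀ 𝕜) →ₗ[𝕜] E :=
  Finsupp.linearCombination 𝕜 (fun β => XX B u β.1 β.2)

lemma XX_mem (l p : ℕ) : XX B u l p ∈ LinearMap.range (Lc B u) := by
  refine ⟨Finsupp.single ⟨l, ⟨p % P.q l, Nat.mod_lt _ (P.q_pos l)⟩⟩ 1, ?_⟩
  unfold Lc
  rw [Finsupp.linearCombination_single, one_smul]
  exact XX_mod B u l p

lemma UU_mem (i s : ℕ) : UU B u i s ∈ LinearMap.range (Lc B u) := by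
  rw [UU, Finsupp.sum]
  exact Submodule.sum_mem _ fun β _ => Submodule.smul_mem _ _ (XX_mem B u _ _)

lemma xx_mem (n : ℕ) : xx B u n ∈ (LinearMap.range (Lc B u)).topologicalClosure := by
  have h1 : Tendsto (fun l => XX B u l n) atTop (𝓝 (xx B u n)) := by
    rw [tendsto_iff_norm_sub_tendsto_zero]
    have h2 : Tendsto (fun l : ℕ => (1 / 2 : ℝ) ^ l) atTop (𝓝 0) :=
      tendsto_pow_atTop_nhds_zero_of_lt_one (by norm_num) (by norm_num)
    apply squeeze_zero' (Eventually.of_forall fun _ => norm_nonneg _) _ h2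
    filter_upwards [eventually_ge_atTop (2 * n)] with l hl
    have h3 : 2 * n ≤ P.N l := hl.trans (P.lt_N l).le
    have h4 : n < P.N l := by
      have := P.N_pos l
      omega
    have h5 : n % P.q l = n := Nat.mod_eq_of_lt (h4.trans (P.N_lt_q l))
    rw [XX, h5, if_pos h4, add_sub_cancel_right, B.norm_D, Par.cost_ix, h5]
    exact P.C_small h3
  have h2 : ∀ l, XX B u l n ∈ ((LinearMap.range (Lc B u)).topologicalClosure : Set E) := fun l =>
    Submodule.le_topologicalClosure _ (XX_mem B u l n)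
  exact (Submodule.isClosed_topologicalClosure _).mem_of_tendsto h1 (Eventually.of_forall h2)

lemma D_mem (β : P.Idx) : B.D β ∈ (LinearMap.range (Lc B u)).topologicalClosure := by
  rcases β with n | β
  · have h1 : B.D (Sum.inl n) = xx B u n - UU B u (P.sch n) n := by
      rw [xx_eq, add_sub_cancel_right]
    rw [h1]
    exact Submodule.sub_mem _ (xx_mem B u n)
      (Submodule.le_topologicalClosure _ (UU_mem B u _ _))
  · have h1 : B.D (Sum.inr β) = XX B u β.1 β.2 -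
        if (β.2 : ℕ) % P.q β.1 < P.N β.1 then xx B u ((β.2 : ℕ) % P.q β.1) else 0 := by
      rw [XX, add_sub_cancel_right, P.ix_fin]
    rw [h1]
    apply Submodule.sub_mem _ (Submodule.le_topologicalClosure _ (XX_mem B u _ _))
    split_ifs
    · exact xx_mem B u _
    · exact Submodule.zero_mem _

lemma mem_closure (v : E) : v ∈ (LinearMap.range (Lc B u)).topologicalClosure := by
  have h1 := B.hasSum v
  apply (Submodule.isClosed_topologicalClosure _).mem_of_tendsto h1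
  apply Eventually.of_forall
  intro s
  exact Submodule.sum_mem _ fun β _ => Submodule.smul_mem _ _ (D_mem B u β)

/-- The targets are dense. -/
theorem dense_targets
    (hu : ∀ f : (Σ l : ℕ, Fin (P.q l)) →₀ ℚ × ℚ, ∀ i₀ : ℕ, ∃ i ≥ i₀, ∀ β, u.u i β = cnv 𝕜 (f β))
    (v : E) {ε : ℝ} (hε : 0 < ε) :
    ∃ i, 1 ≤ i ∧ ‖UU B u i 0 - v‖ < ε ∧ (1 / 2 : ℝ) ^ i < ε := by
  classical
  have h1 : v ∈ closure ((LinearMap.range (Lc B u) : Submodule 𝕜 E) : Set E) :=
    mem_closure B u v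
  obtain ⟨_, ⟨g, rfl⟩, hg⟩ := Metric.mem_closure_iff.1 h1 (ε / 2) (by positivity)
  set M : ℝ := ∑ β ∈ g.support, ‖XX B u β.1 β.2‖ with hM
  have hM0 : 0 ≤ M := Finset.sum_nonneg fun _ _ => norm_nonneg _
  set δ : ℝ := ε / (2 * (M + 1)) with hδ
  have hδ0 : 0 < δ := by positivity
  choose r hr using fun z : 𝕜 => exists_cnv 𝕜 z hδ0
  set r' : 𝕜 → ℚ × ℚ := fun z => if z = 0 then 0 else r z with hr'
  have hr'' : ∀ z : 𝕜, ‖z - cnv 𝕜 (r' z)‖ ≤ δ := by
    intro z
    rw [hr']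
    simp only
    split_ifs with h
    · rw [h, cnv_zero, sub_zero, norm_zero]
      exact hδ0.le
    · exact (hr z).le
  set f := g.mapRange r' (by simp [hr']) with hf
  obtain ⟨n₁, hn₁⟩ := exists_pow_lt_of_lt_one hε (show (1 / 2 : ℝ) < 1 by norm_num)
  obtain ⟨i, hi, hui⟩ := hu f (max 1 n₁)
  refine ⟨i, (le_max_left _ _).trans hi, ?_, ?_⟩
  · have h2 : UU B u i 0 = ∑ β ∈ g.support, cnv 𝕜 (r' (g β)) • XX B u β.1 β.2 := by
      rw [UU, Finsupp.sum]
      have hsub : (u.u i).support ⊆ g.support := by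
        intro β hβ
        rw [Finsupp.mem_support_iff] at hβ ⊢
        intro h
        apply hβ
        rw [hui, hf, Finsupp.mapRange_apply, h, hr']
        simp
      rw [Finset.sum_subset hsub]
      · apply Finset.sum_congr rfl
        intro β _
        rw [hui, hf, Finsupp.mapRange_apply, add_zero]
      · intro β _ hβ
        rw [Finsupp.notMem_support_iff] at hβ
        rw [hβ, zero_smul]
    have h3 : Lc B u g = ∑ β ∈ g.support, g β • XX B u β.1 β.2 := by
      unfold Lc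
      rw [Finsupp.linearCombination_apply, Finsupp.sum]
    have h4 : ‖UU B u i 0 - Lc B u g‖ ≤ δ * M := by
      rw [h2, h3, ← Finset.sum_sub_distrib, hM, Finset.mul_sum]
      refine (norm_sum_le_of_le _ fun β _ => ?_)
      rw [← sub_smul, norm_smul, norm_sub_rev]
      exact mul_le_mul_of_nonneg_right (hr'' _) (norm_nonneg _)
    have h5 : δ * M < ε / 2 := by
      have h6 : δ * (M + 1) = ε / 2 := by
        rw [hδ]
        field_simp
      have : δ * M < δ * (M + 1) := by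
        apply mul_lt_mul_of_pos_left _ hδ0
        linarith
      linarith
    have h6 : ‖Lc B u g - v‖ < ε / 2 := by
      rw [← dist_eq_norm, dist_comm]
      exact hg
    calc ‖UU B u i 0 - v‖ = ‖(UU B u i 0 - Lc B u g) + (Lc B u g - v)‖ := by congr 1; abel
      _ ≤ ‖UU B u i 0 - Lc B u g‖ + ‖Lc B u g - v‖ := norm_add_le _ _
      _ < ε := by linarith
  · calc (1 / 2 : ℝ) ^ i ≤ (1 / 2) ^ n₁ :=
          pow_le_pow_of_le_one (by norm_num) (by norm_num) ((le_max_right _ _).trans hi)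
      _ < ε := hn₁

end

end Pool.Agent.FHC
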