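import Mathlib
import Pool.Agent.FHC.Tame

/-!
# Counting the visits
-/

namespace Pool.Agent.FHC

namespace Par

variable (P : Par)

/-- Arithmetic of the first part of a run. -/
lemma exists_run {i k : ℕ} (hi : 1 ≤ i) (hk : i ≤ k) : ∃ z R : ℕ, 0 < z ∧ 0 < R ∧
    P.Q k = 2 ^ (i + 1) * z ∧ z = 8 * P.q (i - 1) * R ∧ 8 * (P.om k + i) < z := by
  have h1 := P.om_ge k
  have h2 := P.om_mono hk
  have h3 : P.N (i - 1) + i + 4 ≤ P.om k := by
    have e1 := P.N_sq_le_q (i - 1)
    have e2 := P.q_lt_om (i - 1)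
    have e3 : i - 1 + 1 = i := by omega
    rw [e3] at e2
    have e4 := P.om_ge (i - 1)
    have e5 := P.om_lt_Q (i - 1)
    have e6 := P.Q_lt_N (i - 1)
    have e7 : i + 15 ≤ P.N (i - 1) := by omega
    nlinarith
  set x := P.om k with hx
  refine ⟨2 ^ (x - (i + 1)), 2 ^ (x - (i + 4) - P.N (i - 1)), by positivity, by positivity,
    ?_, ?_, ?_⟩
  · rw [← pow_add]
    unfold Q
    congr 1
    omega
  · have e1 : 8 * P.q (i - 1) = 2 ^ (3 + P.N (i - 1)) := by
      rw [pow_add]
      rfl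
    rw [e1, ← pow_add]
    congr 1
    omega
  · obtain ⟨n, hn⟩ : ∃ n, x = n + (i + 4) := ⟨x - (i + 4), by omega⟩
    have e1 : x - (i + 1) = 3 + n := by omega
    rw [e1, pow_add]
    have e2 : n * n ≤ 2 ^ n := sq_le_two_pow (by omega)
    have e3 : x + i < n * n := by
      have : 12 ≤ n := by omega
      nlinarith
    omega

lemma good {i k j s z R : ℕ} (hi : 1 ≤ i) (hk : i ≤ k) (hz : 0 < z)
    (hQ : P.Q k = 2 ^ (i + 1) * z) (hR : z = 8 * P.q (i - 1) * R) (hzx : 8 * (P.om k + i) < z)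
    (h1 : P.N k ≤ j * P.Q k) (h2 : 2 * ((j + 1) * P.Q k) ≤ P.N (k + 1)) (hs : s < R) :
    P.sch (j * P.Q k + (2 ^ i * z - z + s * P.q (i - 1))) = i ∧
    P.q (i - 1) ∣ j * P.Q k + (2 ^ i * z - z + s * P.q (i - 1)) ∧
    P.c (j * P.Q k + (2 ^ i * z - z + s * P.q (i - 1))) ≤ (1 / 2) ^ i := by
  set q' := P.q (i - 1) with hq'
  have h2i : 2 ≤ 2 ^ i := by
    calc 2 = 2 ^ 1 := by norm_num
      _ ≤ 2 ^ i := Nat.pow_le_pow_right (by norm_num) hi
  have hhalf : P.Q k = 2 * (2 ^ i * z) := by rw [hQ, pow_succ]; ring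
  have h2z : 2 * z ≤ 2 ^ i * z := Nat.mul_le_mul_right _ h2i
  set A := 2 ^ i * z with hA
  have hsq : 8 * (s * q') < z := by
    have e1 : (s + 1) * q' ≤ R * q' := Nat.mul_le_mul_right _ hs
    have e2 : 0 < q' := P.q_pos _
    have e3 : z = 8 * (R * q') := by rw [hR]; ring
    have e4 : (s + 1) * q' = s * q' + q' := by ring
    omega
  set m := j * P.Q k + (A - z + s * q') with hm
  have hjQ : (j + 1) * P.Q k = j * P.Q k + P.Q k := by ring
  have hrun : ∀ j' ≤ P.om k + i, P.zone (m + j') = k ∧ P.sch (m + j') = i := by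
    intro j' hj'
    have hzone : P.zone (m + j') = k := by
      apply P.zone_eq
      · omega
      · omega
    refine ⟨hzone, ?_⟩
    apply P.sch_eq_of_inRun
    rw [hzone]
    have hmod : (m + j') % P.Q k = A - z + s * q' + j' := by
      have e1 : m + j' = (A - z + s * q' + j') + P.Q k * j := by rw [hm]; ring
      rw [e1, Nat.add_mul_mod_self_left]
      apply Nat.mod_eq_of_lt
      omega
    unfold InRun
    rw [hmod]
    have hdiv : P.Q k / 2 = A := by omega
    rw [hdiv]
    have hd : A - (A - z + s * q' + j') = z - (s * q' + j') := by omega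
    rw [hd]
    refine ⟨hi, hk, by omega, ?_, ?_⟩
    · rw [hQ]
      exact Nat.mul_le_mul_left _ (Nat.sub_le _ _)
    · have e1 : 2 ^ (i + 3) = 4 * 2 ^ (i + 1) := by
        rw [show i + 3 = 2 + (i + 1) by ring, pow_add]
        norm_num
      rw [hQ, e1]
      have e2 : 3 * z < 4 * (z - (s * q' + j')) := by omega
      calc 3 * (2 ^ (i + 1) * z) = 2 ^ (i + 1) * (3 * z) := by ring
        _ < 2 ^ (i + 1) * (4 * (z - (s * q' + j'))) := by
            apply Nat.mul_lt_mul_of_pos_left e2 (by positivity)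
        _ = 4 * 2 ^ (i + 1) * (z - (s * q' + j')) := by ring
  have h0 := hrun 0 (by omega)
  rw [add_zero] at h0
  refine ⟨h0.2, ?_, ?_⟩
  · have d1 : q' ∣ z := by
      rw [hR]
      exact Dvd.intro (8 * R) (by ring)
    have d2 : q' ∣ A := d1.mul_left _
    have d3 : q' ∣ P.Q k := by
      rw [hQ]
      exact d1.mul_left _
    have d4 : q' ∣ A - z := Nat.dvd_sub d2 d1
    exact (d3.mul_left _).add (d4.add (Dvd.intro_left _ rfl))
  · apply P.c_run h0.2 (by omega) (h := P.om k + i) (fun j' hj' => (hrun j' hj').2)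
    · rw [h0.1]
    · rw [h0.1]
      omega

/-- **Counting of the visits.** -/
theorem visits (i : ℕ) (hi : 1 ≤ i) : ∃ δ : ℝ, 0 < δ ∧ ∃ n₀ : ℕ, ∀ n ≥ n₀,
    δ * n ≤ ((Finset.range n).filter
      (fun m => P.sch m = i ∧ P.q (i - 1) ∣ m ∧ P.c m ≤ (1 / 2) ^ i)).card := by
  classical
  refine ⟨1 / (2 ^ (i + 8) * P.q (i - 1)), ?_, 4 * P.N i, fun n hn => ?_⟩
  · have : (0 : ℝ) < P.q (i - 1) := by exact_mod_cast P.q_pos _
    positivity
  -- choice of the zone
  obtain ⟨k, hk, hk1, hk2⟩ : ∃ k, i ≤ k ∧ 4 * P.N k ≤ n ∧ n < 4 * P.N (k + 1) := by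
    have hex : ∃ l, n < 4 * P.N l := ⟨n, by have := P.lt_N n; omega⟩
    set l := Nat.find hex with hl
    have h1 : n < 4 * P.N l := Nat.find_spec hex
    have h2 : i < l := by
      by_contra hcon
      have := P.N_mono (not_lt.1 hcon)
      omega
    refine ⟨l - 1, by omega, ?_, ?_⟩
    · have := Nat.find_min hex (show l - 1 < l by omega)
      omega
    · rw [show l - 1 + 1 = l by omega]
      exact h1
  obtain ⟨z, R, hz, hR, hQ, hzR, hzx⟩ := P.exists_run hi hk
  set q' := P.q (i - 1) with hq'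
  have hQpos := P.Q_pos k
  obtain ⟨a, ha⟩ := P.Q_dvd_N k
  have hNN : 8 * P.N k ≤ P.N (k + 1) := by
    have e1 := P.N_lt_om (Nat.lt_succ_self k)
    simp only [Nat.succ_eq_add_one] at e1
    have e2 := P.Q_lt_N (k + 1)
    have e3 := sq_le_two_pow' (P.sixteen_le_om (k + 1))
    have e4 : P.Q (k + 1) = 2 ^ P.om (k + 1) := rfl
    have e5 := P.sixteen_le_om (k + 1)
    nlinarith
  have hQN := P.Q_lt_N k
  set M := min n (P.N (k + 1) / 2) with hM
  have hM1 : n < 8 * M + 8 := by
    rcases le_total n (P.N (k + 1) / 2) with h | h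
    · rw [hM, min_eq_left h]; omega
    · rw [hM, min_eq_right h]; omega
  have hM2 : 4 * P.N k ≤ M := by
    rw [hM]
    apply le_min hk1
    omega
  have hMn : M ≤ n := min_le_left _ _
  have hMN : 2 * M ≤ P.N (k + 1) := by
    have := min_le_right n (P.N (k + 1) / 2)
    omega
  set b := M / P.Q k with hb
  have hb1 : b * P.Q k ≤ M := Nat.div_mul_le_self _ _
  have hb2 : M < (b + 1) * P.Q k := by
    have := Nat.lt_div_mul_add (a := M) hQpos
    rw [add_mul, one_mul]
    exact this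
  set f : ℕ × ℕ → ℕ := fun p => p.1 * P.Q k + (2 ^ i * z - z + p.2 * q') with hf
  have h2i : 2 ≤ 2 ^ i := by
    calc 2 = 2 ^ 1 := by norm_num
      _ ≤ 2 ^ i := Nat.pow_le_pow_right (by norm_num) hi
  have hhalf : P.Q k = 2 * (2 ^ i * z) := by rw [hQ, pow_succ]; ring
  have h2z : 2 * z ≤ 2 ^ i * z := Nat.mul_le_mul_right _ h2i
  have hsq : ∀ s < R, 2 ^ i * z - z + s * q' < P.Q k := by
    intro s hs
    have e1 : (s + 1) * q' ≤ R * q' := Nat.mul_le_mul_right _ hs
    have e2 : 0 < q' := P.q_pos _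
    have e3 : z = 8 * (R * q') := by rw [hzR]; ring
    have e4 : (s + 1) * q' = s * q' + q' := by ring
    omega
  have hcard : ((Finset.Ico a b) ×ˢ (Finset.range R)).card ≤
      ((Finset.range n).filter
      (fun m => P.sch m = i ∧ P.q (i - 1) ∣ m ∧ P.c m ≤ (1 / 2) ^ i)).card := by
    apply Finset.card_le_card_of_injOn f
    · rintro ⟨j, s⟩ hjs
      simp only [Finset.coe_product, Finset.coe_Ico, Finset.coe_range, Set.mem_prod, Set.mem_Ico,
        Set.mem_Iio] at hjs
      obtain ⟨⟨hja, hjb⟩, hs⟩ := hjs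
      have e1 : (j + 1) * P.Q k ≤ b * P.Q k := Nat.mul_le_mul_right _ hjb
      have e2 : a * P.Q k ≤ j * P.Q k := Nat.mul_le_mul_right _ hja
      have e3 : P.N k = a * P.Q k := by rw [ha]; ring
      have e4 : (j + 1) * P.Q k = j * P.Q k + P.Q k := by ring
      have e5 := hsq s hs
      rw [Finset.coe_filter, Set.mem_setOf_eq, Finset.mem_range]
      have hg := P.good (j := j) (s := s) hi hk hz hQ hzR hzx (by omega) (by omega) hs
      refine ⟨?_, hg⟩
      simp only [hf]
      omega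
    · rintro ⟨j, s⟩ hjs ⟨j', s'⟩ hjs' heq
      simp only [Finset.coe_product, Finset.coe_Ico, Finset.coe_range, Set.mem_prod, Set.mem_Ico,
        Set.mem_Iio] at hjs hjs'
      simp only [hf] at heq
      have e1 := hsq s hjs.2
      have e2 := hsq s' hjs'.2
      have e3 : j = j' := by
        have g1 : (j * P.Q k + (2 ^ i * z - z + s * q')) / P.Q k = j := by
          rw [mul_comm, Nat.mul_add_div hQpos, Nat.div_eq_of_lt e1, add_zero]
        have g2 : (j' * P.Q k + (2 ^ i * z - z + s' * q')) / P.Q k = j' := by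
          rw [mul_comm, Nat.mul_add_div hQpos, Nat.div_eq_of_lt e2, add_zero]
        rw [← g1, ← g2, heq]
      subst e3
      have e4 : s * q' = s' * q' := by omega
      have e5 : s = s' := Nat.eq_of_mul_eq_mul_right (P.q_pos _) e4
      rw [e5]
  rw [Finset.card_product, Nat.card_Ico, Finset.card_range] at hcard
  -- the count
  have hab : a ≤ b := by
    have e3 : P.N k = a * P.Q k := by rw [ha]; ring
    have e4 : a * P.Q k < (b + 1) * P.Q k := by omega
    have := Nat.lt_of_mul_lt_mul_right e4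
    omega
  clear_value b
  obtain ⟨d, rfl⟩ : ∃ d, b = a + d := ⟨b - a, by omega⟩
  have hd : n ≤ 16 * (d * P.Q k) := by
    have e3 : P.N k = a * P.Q k := by rw [ha]; ring
    have e4 : (a + d + 1) * P.Q k = a * P.Q k + d * P.Q k + P.Q k := by ring
    have e5 : 16 < P.Q k := by
      have := P.om_lt_Q k
      have := P.sixteen_le_om k
      omega
    omega
  have hkey : n ≤ 2 ^ (i + 8) * q' * (d * R) := by
    calc n ≤ 16 * (d * P.Q k) := hd
      _ = 2 ^ (i + 8) * q' * (d * R) := by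
        have e1 : 2 ^ (i + 8) = 2 ^ (i + 1) * 128 := by
          rw [show i + 8 = (i + 1) + 7 by ring, pow_add]
          norm_num
        rw [hQ, hzR, e1]
        ring
  have hkey2 : n ≤ 2 ^ (i + 8) * q' * ((Finset.range n).filter
      (fun m => P.sch m = i ∧ P.q (i - 1) ∣ m ∧ P.c m ≤ (1 / 2) ^ i)).card := by
    refine hkey.trans (Nat.mul_le_mul_left _ ?_)
    have : a + d - a = d := by omega
    rwa [this] at hcard
  have hpos : (0 : ℝ) < 2 ^ (i + 8) * q' := by
    have : (0 : ℝ) < q' := by exact_mod_cast P.q_pos _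
    positivity
  rw [one_div, inv_mul_le_iff₀ hpos]
  exact_mod_cast hkey2

end Par

end Pool.Agent.FHC
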